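import Pool.Agent.MP_4948b4_mp.Mg.LogMain

/-!
Four bodies: normalised central configurations, the linearised pencil, Dziobek coordinates.
-/

namespace Pool.Agent.MP_4948b4_mp.N4

open Complex Finset ComplexConjugate

/-- the eigenvalue equations for the exponent `i ω s`, lengths normalised by `ω ^ 2 = ∑ μ` -/
def Pen (μ : Fin 4 → ℝ) (p : Fin 4 → ℂ) (s : ℂ) (a b : Fin 4 → ℂ) : Prop :=
  (∀ i, ((∑ j, μ j : ℝ) : ℂ) * (s + 1) ^ 2 * a i + ∑ j, ((μ j * wc p i j : ℝ) : ℂ) *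
    (1 / 2 * (a i - a j) + 3 / 2 * ec p i j * (b i - b j)) = 0) ∧
  (∀ i, ((∑ j, μ j : ℝ) : ℂ) * (s - 1) ^ 2 * b i + ∑ j, ((μ j * wc p i j : ℝ) : ℂ) *
    (1 / 2 * (b i - b j) + 3 / 2 * conj (ec p i j) * (a i - a j)) = 0)

/-- no exponent with positive real part -/
def Stab (μ : Fin 4 → ℝ) (p : Fin 4 → ℂ) (σ : ℝ) : Prop :=
  ∀ s a b, ¬ (a = 0 ∧ b = 0) → Pen μ p s a b → 0 ≤ σ * s.im

/-- normalised central configuration equations -/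
def CCn (μ : Fin 4 → ℝ) (p : Fin 4 → ℂ) : Prop :=
  ∀ i, ∑ j, ((μ j * (1 - wc p i j) : ℝ) : ℂ) * (p j - p i) = 0

/-- a normalised counterexample -/
structure Cfg where
  μ : Fin 4 → ℝ
  p : Fin 4 → ℂ
  σ : ℝ
  pos : ∀ i, 0 < μ i
  inj : Function.Injective p
  cc : CCn μ p
  hσ : σ ≠ 0
  st : Stab μ p σ
  dom : ∀ i, 11 * μ i ≤ 10 * ∑ j, μ j

/-- a counterexample with Dziobek coordinates -/
structure Dz extends Cfg where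
  t : Fin 4 → ℝ
  hS : ∀ i j, i ≠ j → 1 - wc p i j = t i * t j
  h0 : ∑ i, μ i * t i = 0
  h1 : ∑ i, ((μ i * t i : ℝ) : ℂ) * p i = 0
  ht : ∀ i, t i ≠ 0

/-- `w ^ (-1/3)` -/
noncomputable def cr (w : ℝ) : ℝ := w ^ (-(1 / 3 : ℝ))

theorem cr_pos {w : ℝ} (h : 0 < w) : 0 < cr w := Real.rpow_pos_of_pos h _

theorem cr_cube {w : ℝ} (h : 0 < w) : cr w ^ 3 * w = 1 := by
  rw [cr, ← Real.rpow_natCast, ← Real.rpow_mul h.le]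
  norm_num
  rw [Real.rpow_neg_one, inv_mul_cancel₀ h.ne']

theorem cr_eq {w r : ℝ} (hr : 0 < r) (h : r ^ 3 * w = 1) : cr w = r := by
  have hw : 0 < w := by
    by_contra h0
    nlinarith [pow_pos hr 3, not_lt.1 h0]
  have h1 := cr_cube hw
  have h2 : cr w ^ 3 = r ^ 3 := mul_right_cancel₀ hw.ne' (h1.trans h.symm)
  exact (pow_left_inj₀ (cr_pos hw).le hr.le (by norm_num)).1 h2

/-- `u1 = t1 / t3`, `u2 = t2 / t3`, `γ = t3 / t4`, `ε = r34` -/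
structure Par where
  u1 : ℝ
  u2 : ℝ
  γ : ℝ
  ε : ℝ

namespace Par

variable (P : Par)

noncomputable def E : ℝ := 1 - 1 / P.ε ^ 3
noncomputable def S24 : ℝ := P.u2 * P.E
noncomputable def S14 : ℝ := P.u1 * P.E
noncomputable def S23 : ℝ := P.γ * P.S24
noncomputable def S13 : ℝ := P.γ * P.S14
noncomputable def S12 : ℝ := P.S13 * P.u2
noncomputable def r12 : ℝ := cr (1 - P.S12)
noncomputable def r13 : ℝ := cr (1 - P.S13)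
noncomputable def r14 : ℝ := cr (1 - P.S14)
noncomputable def r23 : ℝ := cr (1 - P.S23)
noncomputable def r24 : ℝ := cr (1 - P.S24)
noncomputable def x1 : ℝ := (P.ε - (P.r14 ^ 2 - P.r13 ^ 2) / P.ε) / 2
noncomputable def x2 : ℝ := (P.ε - (P.r24 ^ 2 - P.r23 ^ 2) / P.ε) / 2
noncomputable def Y1 : ℝ := P.r13 ^ 2 - P.x1 ^ 2
noncomputable def Y2 : ℝ := P.r23 ^ 2 - P.x2 ^ 2
noncomputable def Pi : ℝ := (P.r13 ^ 2 + P.r23 ^ 2 - P.r12 ^ 2) / 2 - P.x1 * P.x2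
noncomputable def g : ℝ := P.Y1 * P.Y2 - P.Pi ^ 2
/-- the Gram form for the weights `a1, a2, -a1 - a2 - A / ε, A / ε` -/
noncomputable def Q (a1 a2 A : ℝ) : ℝ :=
  P.Y1 * a1 ^ 2 + 2 * P.Pi * (a1 * a2) + P.Y2 * a2 ^ 2 + (A + (a1 * P.x1 + a2 * P.x2)) ^ 2
/-- all five inverse cubes are positive -/
def W : Prop := 0 < 1 - P.S12 ∧ 0 < 1 - P.S13 ∧ 0 < 1 - P.S14 ∧ 0 < 1 - P.S23 ∧ 0 < 1 - P.S24
/-- rescaling of `t1` and `t2` -/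
def sc (θ1 θ2 : ℝ) : Par := ⟨θ1 * P.u1, θ2 * P.u2, P.γ, P.ε⟩

end Par

/-- ordinates and masses: `m3 = ε ^ 3 n3`, `m4 = ε ^ 3 γ n4` -/
structure Val extends Par where
  y1 : ℝ
  y2 : ℝ
  m1 : ℝ
  m2 : ℝ
  n3 : ℝ
  n4 : ℝ

namespace Val

variable (V : Val)

noncomputable def m3 : ℝ := V.ε ^ 3 * V.n3
noncomputable def m4 : ℝ := V.ε ^ 3 * (V.γ * V.n4)
noncomputable def si : ℝ := V.m1 + V.m2 + V.m3 + V.m4
noncomputable def T : ℝ :=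
  (V.ε ^ 3 - 1) * (V.n4 + V.n3 * V.γ) + V.m2 * (V.u2 * V.S23) + V.m1 * (V.u1 * V.S13)
noncomputable def q1 : ℂ := V.x1 + V.y1 * I
noncomputable def q2 : ℂ := V.x2 + V.y2 * I
noncomputable def mass : Fin 4 → ℝ := ![V.m1, V.m2, V.m3, V.m4]
noncomputable def pts : Fin 4 → ℂ := ![V.q1, V.q2, 0, V.ε]
noncomputable def U13 : ℂ := ((1 - V.S13) * ((1 - V.S13) * V.r13) : ℝ) * V.q1 ^ 2
noncomputable def U23 : ℂ := ((1 - V.S23) * ((1 - V.S23) * V.r23) : ℝ) * V.q2 ^ 2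
noncomputable def U14 : ℂ := ((1 - V.S14) * ((1 - V.S14) * V.r14) : ℝ) * (V.q1 - V.ε) ^ 2
noncomputable def U24 : ℂ := ((1 - V.S24) * ((1 - V.S24) * V.r24) : ℝ) * (V.q2 - V.ε) ^ 2
/-- `1 / (q2 - q1)` -/
noncomputable def ze : ℂ := ((1 - V.S12) * V.r12 : ℝ) * conj (V.q2 - V.q1)
noncomputable def xi3 : ℂ := -(V.q1 * V.ze)
noncomputable def xi4 : ℂ := V.xi3 + V.ε * V.ze
noncomputable def K33 : ℂ := V.m1 * V.U13 + V.m2 * V.U23 +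
  V.m3 * (V.U13 + V.xi3 * (V.U23 - V.U13)) + (V.γ * V.n4 : ℝ)
noncomputable def K43 : ℂ := V.m3 * (V.U13 + V.xi4 * (V.U23 - V.U13)) - V.n3
noncomputable def K44 : ℂ := V.m1 * V.U14 + V.m2 * V.U24 +
  V.m4 * (V.U14 + V.xi4 * (V.U24 - V.U14)) + V.n3
noncomputable def K34 : ℂ := V.m4 * (V.U14 + V.xi3 * (V.U24 - V.U14)) - (V.γ * V.n4 : ℝ)
noncomputable def F : ℝ :=
  (V.K33 * conj V.K33).re + (V.K44 * conj V.K44).re + 2 * (V.K34 * conj V.K43).re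
noncomputable def c3 : ℂ :=
  ((V.ε ^ 3 - 1) * V.γ : ℝ) * ((1 - V.u1 : ℝ) - (V.u2 - V.u1 : ℝ) * V.xi3)
noncomputable def c4 : ℂ :=
  (V.ε ^ 3 - 1 : ℝ) * (1 - V.γ * ((V.u2 - V.u1 : ℝ) * V.xi4 + V.u1))
noncomputable def ρ3 : ℂ := V.n3 * V.K33 + V.n4 * V.K43
noncomputable def ρ4 : ℂ := V.n3 * V.K34 + V.n4 * V.K44
noncomputable def Xc : ℂ := V.ρ3 * (conj V.K33 * V.c3 + conj V.K34 * V.c4) +
  V.ρ4 * (conj V.K43 * V.c3 + conj V.K44 * V.c4)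
noncomputable def yy : ℂ := V.ρ3 * conj V.c3 + V.ρ4 * conj V.c4
noncomputable def dt : ℂ := V.K33 * V.K44 - V.K34 * V.K43
noncomputable def B0 : ℝ := 9 * V.si ^ 2 + 6 * (V.si * V.T) + V.T ^ 2
noncomputable def E1 : ℝ := 2 * V.si - V.T
noncomputable def E2 : ℝ := 22 * V.si ^ 2 + 2 * (V.si * V.T) + V.T ^ 2 - 9 * V.F
noncomputable def E3 : ℝ := V.si * V.B0 + 9 * ((V.si - V.T) * (V.si ^ 2 - V.F) - V.Xc.re)
noncomputable def E4 : ℝ := V.B0 * (V.si ^ 2 - V.F) + 2 * ((3 * V.si + V.T) * V.Xc.re) -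
  (V.yy * conj V.yy).re + 9 * (V.dt * conj V.dt).re

end Val

/-- a counterexample in coordinates -/
structure Sol extends Val where
  σ : ℝ
  hε : 0 < ε
  hE : 0 < γ * toPar.E
  hW : toPar.W
  hY1 : y1 ^ 2 = toPar.Y1
  hY2 : y2 ^ 2 = toPar.Y2
  hPi : y1 * y2 = toPar.Pi
  hy1 : y1 ≠ 0
  hy2 : y2 ≠ 0
  hu1 : u1 ≠ 0
  hu2 : u2 ≠ 0
  p1 : 0 < m1
  p2 : 0 < m2
  p3 : 0 < n3
  p4 : 0 < γ * n4
  l0 : m1 * u1 + m2 * u2 + ε ^ 3 * n3 + ε ^ 3 * n4 = 0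
  lx : m1 * u1 * toPar.x1 + m2 * u2 * toPar.x2 + ε ^ 4 * n4 = 0
  ly : m1 * u1 * y1 + m2 * u2 * y2 = 0
  dom : ∀ i, 11 * toVal.mass i ≤ 10 * toVal.si
  hσ : σ ≠ 0
  st : Stab toVal.mass toVal.pts σ

/-- the cases left by the ordering of the Dziobek coordinates -/
def Par.Ord (P : Par) : Prop :=
  |P.γ| ≤ 1 ∧ |P.u2| ≤ 1 ∧ ((P.γ < 0 ∧ P.ε ≤ 1 ∧ |P.u1| ≤ |P.u2|) ∨
    (0 < P.γ ∧ 1 ≤ P.ε ∧ P.ε ≤ 2 ∧ P.u1 < 0 ∧
      ((P.u2 < 0 ∧ |P.u1| ≤ |P.u2|) ∨ (0 < P.u2 ∧ -1 ≤ P.u1))))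

end Pool.Agent.MP_4948b4_mp.N4
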