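import Pool.Agent.MP_4948b4_mp.N4.Sym

/-! Monotonicity of the Gram form along rescalings; normal form of the masses. -/

namespace Pool.Agent.MP_4948b4_mp.N4

open Complex Finset ComplexConjugate

lemma br_mono {a S S' : ℝ} (h : 0 ≤ a * (S' - S)) (h1 : 0 < 1 - S) (h2 : 0 < 1 - S') :
    a * cr (1 - S) ^ 2 ≤ a * cr (1 - S') ^ 2 := by
  have key : ∀ {x y : ℝ}, 0 < x → x ≤ y → cr y ^ 2 ≤ cr x ^ 2 := fun hx hxy =>
    pow_le_pow_left₀ (cr_pos (hx.trans_le hxy)).le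
      (Real.rpow_le_rpow_of_nonpos hx hxy (by norm_num)) 2
  rcases lt_trichotomy S S' with h3 | rfl | h3
  · exact mul_le_mul_of_nonneg_left (key h2 (by linarith))
      (nonneg_of_mul_nonneg_left h (sub_pos.2 h3))
  · exact le_rfl
  · exact mul_le_mul_of_nonpos_left (key h1 (by linarith))
      (nonpos_of_mul_nonneg_left h (sub_neg.2 h3))

lemma br_Q (P : Par) (hε : P.ε ≠ 0) {a1 a2 a3 a4 : ℝ} (h : a1 + a2 + a3 + a4 = 0) :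
    P.Q a1 a2 (P.ε * a4) = -(a1 * a2 * cr (1 - P.S12) ^ 2 + a1 * a3 * cr (1 - P.S13) ^ 2 +
      a1 * a4 * cr (1 - P.S14) ^ 2 + a2 * a3 * cr (1 - P.S23) ^ 2 + a2 * a4 * cr (1 - P.S24) ^ 2 +
      a3 * a4 * P.ε ^ 2) := by
  obtain rfl : a3 = -a1 - a2 - a4 := by linarith
  simp only [Par.Q, Par.Y1, Par.Y2, Par.Pi, Par.x1, Par.x2, Par.r12, Par.r13, Par.r14, Par.r23,
    Par.r24]
  field_simp
  ring

/-- comparison of the Gram forms of two parameter sets with the same `ε` -/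
lemma br_cmp {P P' : Par} (hε : P.ε ≠ 0) (he : P'.ε = P.ε) (hW : P.W) (hW' : P'.W)
    {a1 a2 a3 a4 : ℝ} (h : a1 + a2 + a3 + a4 = 0) (h12 : 0 ≤ a1 * a2 * (P'.S12 - P.S12))
    (h13 : 0 ≤ a1 * a3 * (P'.S13 - P.S13)) (h14 : 0 ≤ a1 * a4 * (P'.S14 - P.S14))
    (h23 : 0 ≤ a2 * a3 * (P'.S23 - P.S23)) (h24 : 0 ≤ a2 * a4 * (P'.S24 - P.S24)) :
    P'.Q a1 a2 (P.ε * a4) ≤ P.Q a1 a2 (P.ε * a4) := by
  have e := br_Q P' (he ▸ hε) h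
  rw [he] at e
  rw [e, br_Q P hε h]
  obtain ⟨w1, w2, w3, w4, w5⟩ := hW
  obtain ⟨v1, v2, v3, v4, v5⟩ := hW'
  linarith [br_mono h12 w1 v1, br_mono h13 w2 v2, br_mono h14 w3 v3, br_mono h23 w4 v4,
    br_mono h24 w5 v5]

lemma br_sign (S : Sol) {a1 a2 a3 a4 τ : ℝ} (hτ : τ ≠ 0) (s1 : 0 ≤ a1 * S.u1 * τ)
    (s2 : 0 ≤ a2 * S.u2 * τ) (s3 : 0 ≤ a3 * τ) (s4 : 0 ≤ a4 * S.γ * τ) :
    0 ≤ a1 * a2 * S.S12 ∧ 0 ≤ a1 * a3 * S.S13 ∧ 0 ≤ a1 * a4 * S.S14 ∧ 0 ≤ a2 * a3 * S.S23 ∧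
      0 ≤ a2 * a4 * S.S24 := by
  have hE := S.hE
  have hγ : S.γ ≠ 0 := fun h => by rw [h, zero_mul] at hE; exact lt_irrefl _ hE
  have t1 : 0 < τ ^ 2 := by positivity
  have t2 : 0 < (S.γ * τ) ^ 2 := by positivity
  simp only [Par.S12, Par.S13, Par.S14, Par.S23, Par.S24]
  refine ⟨nonneg_of_mul_nonneg_left ?_ t1, nonneg_of_mul_nonneg_left ?_ t1,
    nonneg_of_mul_nonneg_left ?_ t2, nonneg_of_mul_nonneg_left ?_ t1,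
    nonneg_of_mul_nonneg_left ?_ t2⟩
  · exact (mul_nonneg hE.le (mul_nonneg s1 s2)).trans_eq (by ring)
  · exact (mul_nonneg hE.le (mul_nonneg s1 s3)).trans_eq (by ring)
  · exact (mul_nonneg hE.le (mul_nonneg s1 s4)).trans_eq (by ring)
  · exact (mul_nonneg hE.le (mul_nonneg s2 s3)).trans_eq (by ring)
  · exact (mul_nonneg hE.le (mul_nonneg s2 s4)).trans_eq (by ring)

lemma br_sc (P : Par) (θ1 θ2 : ℝ) : (P.sc θ1 θ2).S12 = θ1 * θ2 * P.S12 ∧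
    (P.sc θ1 θ2).S13 = θ1 * P.S13 ∧ (P.sc θ1 θ2).S14 = θ1 * P.S14 ∧
    (P.sc θ1 θ2).S23 = θ2 * P.S23 ∧ (P.sc θ1 θ2).S24 = θ2 * P.S24 := by
  simp only [Par.S12, Par.S13, Par.S14, Par.S23, Par.S24, Par.sc, Par.E]
  refine ⟨?_, ?_, ?_, ?_, ?_⟩ <;> ring

lemma br_sq (S : Sol) (a1 a2 A : ℝ) :
    S.Q a1 a2 A = (a1 * S.y1 + a2 * S.y2) ^ 2 + (A + (a1 * S.x1 + a2 * S.x2)) ^ 2 := by
  rw [Par.Q, ← S.hY1, ← S.hY2, ← S.hPi]
  ring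

theorem Sol.Ltest (S : Sol) {θ1 θ2 : ℝ} (h1 : 1 ≤ θ1) (h2 : 1 ≤ θ2) (hW : (S.sc θ1 θ2).W) :
    ¬ (0 < (S.sc θ1 θ2).g ∧ 0 < (S.sc θ1 θ2).Y1 + (S.sc θ1 θ2).Y2) := by
  rintro ⟨hg, hY⟩
  have hε := S.hε
  have p1 := S.p1
  have p2 := S.p2
  have p3 := S.p3
  have p4 := S.p4
  obtain ⟨s1, s2, s3, s4, s5⟩ := br_sign S (a1 := S.m1 * S.u1) (a2 := S.m2 * S.u2)
    (a3 := S.ε ^ 3 * S.n3) (a4 := S.ε ^ 3 * S.n4) one_ne_zero
    ((mul_nonneg p1.le (sq_nonneg S.u1)).trans_eq (by ring))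
    ((mul_nonneg p2.le (sq_nonneg S.u2)).trans_eq (by ring)) (by positivity)
    ((mul_pos (pow_pos hε 3) p4).le.trans_eq (by ring))
  obtain ⟨e1, e2, e3, e4, e5⟩ := br_sc S.toPar θ1 θ2
  have t1 : 0 ≤ θ1 - 1 := by linarith
  have t2 : 0 ≤ θ2 - 1 := by linarith
  have t3 : 0 ≤ θ1 * θ2 - 1 := by nlinarith
  have h := br_cmp (P := S.toPar) (P' := S.sc θ1 θ2) hε.ne' rfl S.hW hW S.l0
    ((mul_nonneg t3 s1).trans_eq (by rw [e1]; ring)) ((mul_nonneg t1 s2).trans_eq (by rw [e2]; ring))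
    ((mul_nonneg t1 s3).trans_eq (by rw [e3]; ring)) ((mul_nonneg t2 s4).trans_eq (by rw [e4]; ring))
    ((mul_nonneg t2 s5).trans_eq (by rw [e5]; ring))
  have h0 : S.ε * (S.ε ^ 3 * S.n4) + (S.m1 * S.u1 * S.x1 + S.m2 * S.u2 * S.x2) = 0 := by
    linear_combination S.lx
  rw [br_sq, S.ly, h0, Par.Q] at h
  rw [Par.g] at hg
  have ha : 0 < (S.m1 * S.u1) ^ 2 := sq_pos_of_ne_zero (mul_ne_zero p1.ne' S.hu1)
  generalize (S.sc θ1 θ2).Y1 = Y1, (S.sc θ1 θ2).Y2 = Y2, (S.sc θ1 θ2).Pi = Z at h hg hY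
  generalize S.m1 * S.u1 = a, S.m2 * S.u2 = b at h ha
  have hY2 : 0 < Y2 := by
    by_contra h3
    have h4 : Y2 ≤ 0 := not_lt.1 h3
    nlinarith [sq_nonneg Z, mul_nonneg (by linarith : 0 ≤ Y1) (by linarith : 0 ≤ -Y2)]
  have h5 : Y1 * a ^ 2 + 2 * Z * (a * b) + Y2 * b ^ 2 ≤ 0 := by
    refine le_trans (le_add_of_nonneg_right (sq_nonneg _)) (h.trans_eq (by ring))
  nlinarith [mul_nonneg hY2.le (neg_nonneg.2 h5), sq_nonneg (Z * a + Y2 * b), mul_pos hg ha]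

theorem Sol.Utest (S : Sol) {θ1 θ2 a1 a2 A : ℝ} (h1 : 0 ≤ θ1) (h1' : θ1 ≤ 1) (h2 : 0 ≤ θ2)
    (h2' : θ2 ≤ 1) (hW : (S.sc θ1 θ2).W) (s1 : 0 ≤ a1 * (S.u1 * S.γ)) (s2 : 0 ≤ a2 * (S.u2 * S.γ))
    (s3 : 0 ≤ (-(S.ε * (a1 + a2)) - A) * S.γ) (s4 : 0 ≤ A) : 0 ≤ (S.sc θ1 θ2).Q a1 a2 A := by
  have hε := S.hε
  have hE := S.hE
  have hγ : S.γ ≠ 0 := fun h => by rw [h, zero_mul] at hE; exact lt_irrefl _ hE
  obtain ⟨a4, rfl⟩ : ∃ a4, A = S.ε * a4 := ⟨A / S.ε, by field_simp⟩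
  have s5 : 0 ≤ a4 := nonneg_of_mul_nonneg_right s4 hε
  obtain ⟨k1, k2, k3, k4, k5⟩ := br_sign S (a1 := a1) (a2 := a2) (a3 := -a1 - a2 - a4) (a4 := a4) hγ
    (s1.trans_eq (by ring)) (s2.trans_eq (by ring))
    (nonneg_of_mul_nonneg_right (s3.trans_eq (by ring)) hε)
    ((mul_nonneg s5 (sq_nonneg S.γ)).trans_eq (by ring))
  obtain ⟨e1, e2, e3, e4, e5⟩ := br_sc S.toPar θ1 θ2
  have t1 : 0 ≤ 1 - θ1 := by linarith
  have t2 : 0 ≤ 1 - θ2 := by linarith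
  have t3 : 0 ≤ 1 - θ1 * θ2 := by nlinarith
  have h := br_cmp (P := S.sc θ1 θ2) (P' := S.toPar) hε.ne' rfl hW S.hW
    (a1 := a1) (a2 := a2) (a3 := -a1 - a2 - a4) (a4 := a4) (by ring)
    ((mul_nonneg t3 k1).trans_eq (by rw [e1]; ring)) ((mul_nonneg t1 k2).trans_eq (by rw [e2]; ring))
    ((mul_nonneg t1 k3).trans_eq (by rw [e3]; ring)) ((mul_nonneg t2 k4).trans_eq (by rw [e4]; ring))
    ((mul_nonneg t2 k5).trans_eq (by rw [e5]; ring))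
  refine le_trans ?_ h
  rw [br_sq]
  positivity

theorem de_eq {w w' ε b : ℝ} (hw : 0 < w) (hw' : 0 < w') (hε : ε ≠ 0) (h : w - w' = ε * b) :
    (cr w' ^ 2 - cr w ^ 2) / ε = b * ((cr w * cr w' * (cr w * cr w') * (cr w * cr w') *
      (cr w + cr w')) * (cr w ^ 2 + cr w' ^ 2 + cr w * cr w')⁻¹) := by
  have h1 := cr_cube hw
  have h2 := cr_cube hw'
  have h3 := cr_pos hw
  have h4 := cr_pos hw'
  generalize cr w = r at *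
  generalize cr w' = r' at *
  have h5 : r ^ 2 + r' ^ 2 + r * r' ≠ 0 := by positivity
  rw [← mul_assoc, ← div_eq_mul_inv, div_eq_div_iff hε h5]
  linear_combination (r + r') * (r * r') ^ 3 * h - (r + r') * r' ^ 3 * h1 + (r + r') * r ^ 3 * h2

theorem Sol.g_eq (S : Sol) : S.g = 0 := by
  rw [Par.g, ← S.hY1, ← S.hY2, ← S.hPi]
  ring

/-- the product of the two ordinates has the sign opposite to `u1 u2` -/
theorem Sol.Pi_sign (S : Sol) : S.Pi * (S.u1 * S.u2) < 0 := by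
  have h1 : 0 < S.m2 * (S.u2 * S.y2) ^ 2 :=
    mul_pos S.p2 (sq_pos_of_ne_zero (mul_ne_zero S.hu2 S.hy2))
  have h2 : S.m1 * (S.Pi * (S.u1 * S.u2)) < 0 := by
    rw [← S.hPi]
    linear_combination h1 + (S.u2 * S.y2) * S.ly
  exact neg_of_mul_neg_right h2 S.p1.le

lemma br_refl (S : Sol) :
    ∃ S' : Sol, S'.toVal = ⟨S.toPar, -S.y1, -S.y2, S.m1, S.m2, S.n3, S.n4⟩ := by
  refine ⟨⟨⟨S.toPar, -S.y1, -S.y2, S.m1, S.m2, S.n3, S.n4⟩, -S.σ, S.hε, S.hE, S.hW,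
    (neg_sq _).trans S.hY1, (neg_sq _).trans S.hY2, (neg_mul_neg _ _).trans S.hPi,
    neg_ne_zero.2 S.hy1, neg_ne_zero.2 S.hy2, S.hu1, S.hu2, S.p1, S.p2, S.p3, S.p4, S.l0, S.lx,
    by linear_combination -S.ly, S.dom, neg_ne_zero.2 S.hσ, ?_⟩, rfl⟩
  have e : Val.pts ⟨S.toPar, -S.y1, -S.y2, S.m1, S.m2, S.n3, S.n4⟩ = fun i => conj (S.pts i) := by
    funext i
    fin_cases i <;> simp [Val.pts, Val.q1, Val.q2]
  rw [e]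
  exact S.st.refl

lemma br_scale (S : Sol) {κ : ℝ} (hκ : 0 < κ) :
    ∃ S' : Sol, S'.toVal = ⟨S.toPar, S.y1, S.y2, κ * S.m1, κ * S.m2, κ * S.n3, κ * S.n4⟩ := by
  have e : Val.mass ⟨S.toPar, S.y1, S.y2, κ * S.m1, κ * S.m2, κ * S.n3, κ * S.n4⟩ =
      fun i => κ * S.mass i := by
    funext i
    fin_cases i <;> simp [Val.mass, Val.m3, Val.m4] <;> ring
  refine ⟨⟨⟨S.toPar, S.y1, S.y2, κ * S.m1, κ * S.m2, κ * S.n3, κ * S.n4⟩, S.σ, S.hε, S.hE, S.hW,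
    S.hY1, S.hY2, S.hPi, S.hy1, S.hy2, S.hu1, S.hu2, mul_pos hκ S.p1, mul_pos hκ S.p2,
    mul_pos hκ S.p3, (mul_pos hκ S.p4).trans_eq (by ring), by linear_combination κ * S.l0,
    by linear_combination κ * S.lx, by linear_combination κ * S.ly, fun i => ?_, S.hσ, ?_⟩, rfl⟩
  · rw [e]
    have h := mul_le_mul_of_nonneg_left (S.dom i) hκ.le
    simp only [Val.si, Val.m3, Val.m4] at h ⊢
    linear_combination h
  · rw [e]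
    exact S.st.scale hκ

theorem Sol.norm (S : Sol) {p q n c y1 y2 : ℝ} (hp : p * S.u1 = n * S.ε ^ 4)
    (hq : q * S.u2 = n * S.ε ^ 4) (hn : n ≠ 0) (h12 : y1 * y2 = S.Pi)
    (hy : y1 ^ 2 = S.Y1 ∨ y2 ^ 2 = S.Y2) (hs : 0 < c * (p * y2) ∨ c * (q * y1) < 0) :
    ∃ S' : Sol, S'.toVal = ⟨S.toPar, y1, y2, c * (p * y2), -(c * (q * y1)),
      c * (n * (S.ε * (y1 - y2) - (y1 * S.x2 - y2 * S.x1))), c * (n * (y1 * S.x2 - y2 * S.x1))⟩ := by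
  have hs1 : (y1 = S.y1 ∧ y2 = S.y2) ∨ (y1 = -S.y1 ∧ y2 = -S.y2) := by
    rw [← S.hPi] at h12
    rcases hy with hy | hy
    · rcases sq_eq_sq_iff_eq_or_eq_neg.1 (hy.trans S.hY1.symm) with rfl | rfl
      · exact .inl ⟨rfl, mul_left_cancel₀ S.hy1 h12⟩
      · exact .inr ⟨rfl, mul_left_cancel₀ S.hy1 (by linear_combination -h12)⟩
    · rcases sq_eq_sq_iff_eq_or_eq_neg.1 (hy.trans S.hY2.symm) with rfl | rfl
      · exact .inl ⟨mul_right_cancel₀ S.hy2 h12, rfl⟩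
      · exact .inr ⟨mul_right_cancel₀ S.hy2 (by linear_combination -h12), rfl⟩
  have ly : S.m1 * S.u1 * y1 + S.m2 * S.u2 * y2 = 0 := by
    rcases hs1 with ⟨rfl, rfl⟩ | ⟨rfl, rfl⟩
    · exact S.ly
    · linear_combination -S.ly
  have hε := S.hε.ne'
  obtain ⟨κ, e1⟩ : ∃ κ, κ * S.m1 = c * (p * y2) :=
    ⟨c * (p * y2) / S.m1, div_mul_cancel₀ _ S.p1.ne'⟩
  have a1 : κ * S.m1 * S.u1 = c * n * S.ε ^ 4 * y2 := by linear_combination S.u1 * e1 + c * y2 * hp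
  have a2 : κ * S.m2 * S.u2 = -(c * n * S.ε ^ 4 * y1) := by
    refine mul_left_cancel₀ (mul_ne_zero S.p1.ne' S.hu1) ?_
    linear_combination S.m2 * S.u2 * a1 + c * n * S.ε ^ 4 * ly
  have e2 : κ * S.m2 = -(c * (q * y1)) :=
    mul_right_cancel₀ S.hu2 (by linear_combination a2 + c * y1 * hq)
  have e4 : κ * S.n4 = c * (n * (y1 * S.x2 - y2 * S.x1)) :=
    mul_left_cancel₀ (pow_ne_zero 4 hε)
      (by linear_combination κ * S.lx - S.x1 * a1 - S.x2 * a2)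
  have e3 : κ * S.n3 = c * (n * (S.ε * (y1 - y2) - (y1 * S.x2 - y2 * S.x1))) :=
    mul_left_cancel₀ (pow_ne_zero 3 hε)
      (by linear_combination κ * S.l0 - a1 - a2 - S.ε ^ 3 * e4)
  have hκ : 0 < κ := by
    rcases hs with hs | hs
    · exact (mul_pos_iff_of_pos_right S.p1).1 (e1 ▸ hs)
    · exact (mul_pos_iff_of_pos_right S.p2).1 (e2 ▸ neg_pos.2 hs)
  rw [← e1, ← e2, ← e3, ← e4]
  have _ := hn
  rcases hs1 with ⟨rfl, rfl⟩ | ⟨rfl, rfl⟩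
  · exact br_scale S hκ
  · obtain ⟨S1, h1⟩ := br_refl S
    obtain ⟨S2, h2⟩ := br_scale S1 hκ
    exact ⟨S2, by rw [h2, h1]⟩

end Pool.Agent.MP_4948b4_mp.N4
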