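import Pool.Agent.MP_4948b4_mp.N4.RT

/-! The box checker. -/

namespace Pool.Agent.MP_4948b4_mp.N4

open Pool.Agent.Sok Pool.Agent.Sok.TMI

structure Pre where
  (al ga ep e3 em k1 k2 ie : TM)

structure Geo where
  (c v u2 ob s13 s23 w12 w13 w14 w23 w24 r12 r13 r14 r23 r24 x1 x2 Y1 Y2 Pi g : TM)

structure Ms where
  (y1 y2 u1 m1 m2 n3 n4 g4 m3 m4 si T E1 : TM)

structure Kk where
  (xi3 xi4 K33 K43 K44 K34 F ss sT TT E2 NW : TM)

structure Xx where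
  (c3 c4 p3 p4 X B0 sF E3 : TM)

def fl (n o m : ℕ) : ℕ := Nat.land (Nat.shiftRight n o) m
def bt (n o : ℕ) : Bool := Nat.beq (Nat.land (Nat.shiftRight n o) 1) 1
def br (b x y : Bool) : Bool := Bool.rec (motive := fun _ => Bool) y x b

def mkPre (B big : Bool) (AL GA EP : TM) (k : Pre → Bool) : Bool :=
  bnd EP fun ep => bnd GA fun ga => bnd AL fun al => mulRR ep ep fun e2 => mulRR e2 ep fun e3 =>
  bnd (rd e3 268435456) fun em =>
  br B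
    (
    rinv ep fun ie => mulRR ie ie fun i2 => mulRR i2 ie fun i3 => mulRR i2 i2 fun k1 =>
    k ⟨al, ga, ep, e3, em, k1, om i3, ie⟩)
    (
    mulRR e2 e2 fun k1 => mulRR ep em fun k2 =>
    br big (rinv ep fun ie => k ⟨al, ga, ep, e3, em, k1, k2, ie⟩)
      (mulRR em (om ga) fun ie => k ⟨al, ga, ep, e3, em, k1, k2, ie⟩))

def geoS (B sb : Bool) (P : Pre) (c v : TM) (k : TM → TM → TM → TM → Bool) : Bool :=
  br B (mulRR P.al P.k2 fun s24 => mulRR (rn c) P.k2 fun s14 => k P.al s24 s14 (rd c 268435456))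
    (mulRR v P.k1 fun u2 => mulRR v P.k2 fun s24 => mulRR P.al s24 fun s14 =>
      k u2 s24 s14 (rd (sg sb u2) 268435456))

def dd (r s d e b : TM) (k : TM → Bool) : Bool :=
  mulRR r s fun a1 => mulRR a1 a1 fun a2 => mulRR a2 a1 fun a3 => mulRR a3 (ra r s) fun a4 =>
  rinv (ra (ra d e) a1) fun a5 => mulRR a4 a5 fun a6 => mulRR b a6 fun a7 =>
  k a7

def geoD (big : Bool) (P : Pre) (v r13 r14 r23 r24 d13 d14 d23 d24 : TM) (k : TM → TM → Bool) :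
    Bool :=
  br big (mulRR (rs d14 d13) P.ie fun de1 => mulRR (rs d24 d23) P.ie fun de2 => k de1 de2)
    (mulRR v P.ie fun b2 => mulRR P.al b2 fun b1 => dd r13 r14 d13 d14 b1 fun de1 =>
      dd r23 r24 d23 d24 b2 fun de2 => k de1 de2)

def geoX (P : Pre) (de1 de2 d12 d13 d23 : TM) (k : TM → TM → TM → TM → TM → TM → Bool) : Bool :=
  smp (rs P.ep de1) 134217728 fun x1 => smp (rs P.ep de2) 134217728 fun x2 =>
  mulRR x1 x1 fun a1 => mulRR x2 x2 fun a2 => mulRR x1 x2 fun a3 =>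
  smp (rs (ra d13 d23) d12) 134217728 fun a4 => bnd (rs d13 a1) fun Y1 =>
  bnd (rs d23 a2) fun Y2 => bnd (rs a4 a3) fun Pi => mulRR Y1 Y2 fun a5 => mulRR Pi Pi fun a6 =>
  bnd (rs a5 a6) fun g =>
  k x1 x2 Y1 Y2 Pi g

def geo (B big sb : Bool) (P : Pre) (c : TM) (n : ℕ) (k : Geo → Bool) : Bool :=
  bnd (sg sb c) fun v => geoS B sb P c v fun u2 s24 s14 ob =>
  mulRR P.ga s24 fun s23 => mulRR P.ga s14 fun s13 => mulRR s13 u2 fun s12 =>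
  bnd (om s12) fun w12 => bnd (om s13) fun w13 => bnd (om s14) fun w14 => bnd (om s23) fun w23 =>
  bnd (om s24) fun w24 => cbi w12 (fl n 36 4095) fun r12 => cbi w13 (fl n 48 4095) fun r13 =>
  cbi w14 (fl n 60 4095) fun r14 => cbi w23 (fl n 72 4095) fun r23 =>
  cbi w24 (fl n 84 4095) fun r24 => mulRR r12 r12 fun d12 => mulRR r13 r13 fun d13 =>
  mulRR r14 r14 fun d14 => mulRR r23 r23 fun d23 => mulRR r24 r24 fun d24 =>
  geoD big P v r13 r14 r23 r24 d13 d14 d23 d24 fun de1 de2 =>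
  geoX P de1 de2 d12 d13 d23 fun x1 x2 Y1 Y2 Pi g =>
  k ⟨c, v, u2, ob, s13, s23, w12, w13, w14, w23, w24, r12, r13, r14, r23, r24, x1, x2, Y1, Y2, Pi, g⟩

/-- `1 + x3` -/
def xp : TM := rv 3 0 268435456
/-- `x3 - 1` -/
def xm : TM := rd xp 536870912

def ltest (G : Geo) (n : ℕ) : Bool :=
  grd (comb [G.g, rn G.c, xp, rn xp] (fl n 96 1208925819614629174706175) rz)
    (comb [ra G.Y1 G.Y2, rn G.c, xp, rn xp] (fl n 176 1208925819614629174706175) rz)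

def uq (sa s1 s2 sc : Bool) (P : Pre) (G : Geo) (p1 p2 r : ℕ) (f : Bool) (m : ℕ) : Bool :=
  bnd (rs (sg f (ru rz (Nat.shiftLeft r 14))) (ra (sg s1 (rk G.x1 p1)) (sg s2 (rk G.x2 p2)))) fun A =>
  grd (pos A) (grd (pos (sg sc (rs (rn (ra (sg s1 (rk P.ep p1)) (sg s2 (rk P.ep p2)))) A)))
    (comb [rn (ru (ra (ra (rk G.Y1 (Nat.mul p1 p1)) (sg sa (rk G.Pi (Nat.mul 2 (Nat.mul p1 p2)))))
      (rk G.Y2 (Nat.mul p2 p2))) (Nat.mul r r)), G.ob, xm, rn xm] m rz))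

def utest (sa sb sc : Bool) (P : Pre) (G : Geo) (n : ℕ) : Bool :=
  br (bt n 316) (uq sa (xor sa (xor sb sc)) (xor sb sc) sc P G (fl n 317 511) (fl n 326 511)
      (fl n 335 16777215) (bt n 359) (fl n 360 1208925819614629174706175))
    (comb [G.ob, xm, rn xm] (fl n 360 1208925819614629174706175) rz)

def ords (f : Bool) (G : Geo) (y : ℕ) (k : TM → TM → Bool) : Bool :=
  br f (rsq G.Y2 y fun r => mulRR G.Y2 r fun y2 => mulRR G.Pi r fun y1 => k y1 y2)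
    (rsq G.Y1 y fun r => mulRR G.Y1 r fun y1 => mulRR G.Pi r fun y2 => k y1 y2)

def pq (B : Bool) (P : Pre) (G : Geo) (y1 y2 : TM) (k : TM → TM → TM → TM → Bool) : Bool :=
  br B (mulRR (rn G.c) G.u2 fun t => mulRR t P.k1 fun nn => mulRR G.u2 y2 fun py =>
      mulRR (rn G.c) y1 fun qy => k (rn G.c) nn py qy)
    (mulRR P.al G.u2 fun u1 => mulRR P.al G.v fun nn => mulRR P.al y1 fun qy => k u1 nn y2 qy)

def mass (P : Pre) (G : Geo) (y1 y2 u1 nn py qy : TM) (f : Bool) (N : ℕ) (k : Ms → Bool) : Bool :=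
  mulRR y1 G.x2 fun a1 => mulRR y2 G.x1 fun a2 => mulRR P.ep (rs y1 y2) fun a3 =>
  bnd (rs a1 a2) fun A4 => mulRR nn (rs a3 A4) fun b3 => mulRR nn A4 fun b4 =>
  bnd (sg f (rk py N)) fun m1 => bnd (rn (sg f (rk qy N))) fun m2 =>
  bnd (sg f (rk b3 N)) fun n3 => bnd (sg f (rk b4 N)) fun n4 => mulRR P.ga n4 fun g4 =>
  mulRR P.e3 n3 fun m3 => mulRR P.e3 g4 fun m4 => bnd (ra (ra (ra m1 m2) m3) m4) fun si =>
  mulRR n3 P.ga fun c1 => mulRR P.em (ra n4 c1) fun c2 => mulRR G.u2 G.s23 fun c3 =>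
  mulRR m2 c3 fun c4 => mulRR u1 G.s13 fun c5 => mulRR m1 c5 fun c6 =>
  bnd (ra (ra c2 c4) c6) fun T => bnd (rs (rk si 2) T) fun E1 =>
  k ⟨y1, y2, u1, m1, m2, n3, n4, g4, m3, m4, si, T, E1⟩

def uf (w r q : TM) (k : TM → Bool) : Bool :=
  mulRR w r fun a1 => mulRR w a1 fun a2 => mulCC q q fun a3 => mulRC a2 a3 fun a4 =>
  k a4

def kk (M : Ms) (xi3 xi4 U13 U23 U14 U24 : TM) (k : TM → TM → TM → TM → Bool) : Bool :=
  bnd (cs U23 U13) fun D3 => bnd (cs U24 U14) fun D4 => mulCC xi3 D3 fun b1 =>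
  mulCC xi4 D3 fun b2 => mulCC xi4 D4 fun b3 => mulCC xi3 D4 fun b4 => mulRC M.m1 U13 fun c1 =>
  mulRC M.m2 U23 fun c2 => mulRC M.m3 (ca U13 b1) fun c3 => mulRC M.m3 (ca U13 b2) fun c4 =>
  mulRC M.m1 U14 fun c5 => mulRC M.m2 U24 fun c6 => mulRC M.m4 (ca U14 b3) fun c7 =>
  mulRC M.m4 (ca U14 b4) fun c8 => bnd (car (ca (ca c1 c2) c3) M.g4) fun K33 =>
  bnd (csr c4 M.n3) fun K43 => bnd (car (ca (ca c5 c6) c7) M.n3) fun K44 =>
  bnd (csr c8 M.g4) fun K34 =>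
  k K33 K43 K44 K34

def kst (P : Pre) (G : Geo) (M : Ms) (k : Kk → Bool) : Bool :=
  bnd (mkc G.x1 M.y1) fun q1 => bnd (mkc G.x2 M.y2) fun q2 =>
  uf G.w13 G.r13 q1 fun U13 => uf G.w23 G.r23 q2 fun U23 =>
  uf G.w14 G.r14 (csr q1 P.ep) fun U14 => uf G.w24 G.r24 (csr q2 P.ep) fun U24 =>
  mulRR G.w12 G.r12 fun s12 => mulRC s12 (cj (cs q2 q1)) fun ze => mulCC q1 ze fun a1 =>
  bnd (cg a1) fun xi3 => mulRC P.ep ze fun a2 => bnd (ca xi3 a2) fun xi4 =>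
  kk M xi3 xi4 U13 U23 U14 U24 fun K33 K43 K44 K34 =>
  mulCC K33 (cj K33) fun f1 => mulCC K44 (cj K44) fun f2 => mulCC K34 (cj K43) fun f3 =>
  bnd (ra (ra (nz f1) (nz f2)) (rk (nz f3) 2)) fun F => mulRR M.si M.si fun ss =>
  mulRR M.si M.T fun sT => mulRR M.T M.T fun TT =>
  bnd (rs (ra (ra (rk ss 22) (rk sT 2)) TT) (rk F 9)) fun E2 =>
  bnd (rs (rs (ra (rk ss 32) (rk sT 16)) TT) (rk F 18)) fun NW =>
  k ⟨xi3, xi4, K33, K43, K44, K34, F, ss, sT, TT, E2, NW⟩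

def xst (P : Pre) (G : Geo) (M : Ms) (K : Kk) (k : Xx → Bool) : Bool :=
  bnd (rs G.u2 M.u1) fun du => mulRR P.em P.ga fun a1 => mulRC du K.xi3 fun a2 =>
  mulRC a1 (car (cg a2) (om M.u1)) fun c3 => mulRC du K.xi4 fun a3 =>
  mulRC P.ga (car a3 M.u1) fun a4 => mulRC P.em (car (cg a4) (om rz)) fun c4 =>
  mulRC M.n3 K.K33 fun b1 => mulRC M.n4 K.K43 fun b2 => mulRC M.n3 K.K34 fun b3 =>
  mulRC M.n4 K.K44 fun b4 => bnd (ca b1 b2) fun p3 => bnd (ca b3 b4) fun p4 =>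
  mulCC (cj K.K33) c3 fun v1 => mulCC (cj K.K34) c4 fun v2 => mulCC (cj K.K43) c3 fun v3 =>
  mulCC (cj K.K44) c4 fun v4 => mulCC p3 (ca v1 v2) fun z1 => mulCC p4 (ca v3 v4) fun z2 =>
  bnd (nz (ca z1 z2)) fun X => bnd (ra (ra (rk K.ss 9) (rk K.sT 6)) K.TT) fun B0 =>
  bnd (rs K.ss K.F) fun sF => mulRR M.si B0 fun e1 => mulRR (rs M.si M.T) sF fun e2 =>
  bnd (ra e1 (rk (rs e2 X) 9)) fun E3 =>
  k ⟨c3, c4, p3, p4, X, B0, sF, E3⟩

def est (M : Ms) (K : Kk) (X : Xx) (k : TM → Bool) : Bool :=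
  mulCC X.p3 (cj X.c3) fun a1 => mulCC X.p4 (cj X.c4) fun a2 => bnd (ca a1 a2) fun yy =>
  mulCC yy (cj yy) fun a3 => mulCC K.K33 K.K44 fun a4 => mulCC K.K34 K.K43 fun a5 =>
  bnd (cs a4 a5) fun dt => mulCC dt (cj dt) fun a6 => mulRR X.B0 X.sF fun a7 =>
  mulRR (ra (rk M.si 3) M.T) X.X fun a8 =>
  bnd (ra (rs (ra a7 (rk a8 2)) (nz a3)) (rk (nz a6) 9)) fun E4 =>
  k E4

def cr4 (P : Pre) (G : Geo) (M : Ms) (K : Kk) (l : List TM) (st m : ℕ) : Bool :=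
  xst P G M K fun X => br (Nat.beq st 4) (comb (rn X.E3 :: l) m rz)
    (br (Nat.beq st 5) (mulRR M.E1 K.E2 fun t => comb (rs (rk X.E3 6) t :: rn X.E3 :: l) m rz)
      (est M K X fun E4 => comb (rn E4 :: rn X.E3 :: l) m rz))

def cr3 (P : Pre) (G : Geo) (M : Ms) (l : List TM) (st m : ℕ) : Bool :=
  br (Nat.beq st 2) (comb l m rz) (kst P G M fun K =>
    br (Nat.beq st 3) (comb (rn K.E2 :: K.NW :: l) m rz) (cr4 P G M K (rn K.E2 :: K.NW :: l) st m))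

def cr2 (B sa : Bool) (P : Pre) (G : Geo) (l : List TM) (n : ℕ) : Bool :=
  ords (bt n 443) G (fl n 444 16777215) fun y1 y2 => pq B P G y1 y2 fun u1 nn py qy =>
  mass P G y1 y2 u1 nn py qy (br (bt n 443) false (br sa false true)) (Nat.succ (fl n 468 4095)) fun M =>
  cr3 P G M (rs (rk M.m1 11) (rk M.si 10) :: rn M.E1 :: rn M.m2 :: rn M.m1 :: l) (fl n 440 7)
    (Nat.shiftRight n 480)

def crit (B sa : Bool) (P : Pre) (G : Geo) (n : ℕ) : Bool :=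
  br (Nat.beq (fl n 440 7) 1)
    (comb [G.g, sg sa G.Pi, G.ob, rn G.g, rn G.Y2, rn G.Y1] (Nat.shiftRight n 480) rz)
    (cr2 B sa P G [G.g, sg sa G.Pi, G.ob, rn G.g, rn G.Y2, rn G.Y1] n)

def chain (B big sa sb sc : Bool) (P : Pre) (ψ : TM) (l : List ℕ) : ℕ → Bool → Bool :=
  List.rec (motive := fun _ => ℕ → Bool → Bool) (fun _ _ => false)
    (fun n _ ih acc fst =>
      geo B big sb P (ra ψ (rv 3 acc (Nat.add acc (fl n 0 34359738367)))) n fun G =>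
      grd (br fst (ltest G n) true)
        (grd (br (Nat.beq (fl n 0 34359738367) 0) true (crit B sa P G n))
          (br (bt n 35) (grd (comb [G.c, xm, rn xm] (fl n 256 1152921504606846975) rz)
            (utest sa sb sc P G n)) (ih (Nat.add acc (fl n 0 34359738367)) false)))) l

def cψ : ℕ := Nat.sub cH (Nat.shiftLeft (sp [0, 30, 35, 37, 60, 65, 67, 70, 72, 74]) 33)

def mkψ (h : ℕ) : ℕ :=
  Nat.add (Nat.add (Nat.add (Nat.add (Nat.add (Nat.add (Nat.add (Nat.add (Nat.add (Nat.add cψ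
    (fl h 2 17179869183)) (Nat.shiftLeft (fl h 36 17179869183) 2400))
    (Nat.shiftLeft (fl h 70 17179869183) 2800)) (Nat.shiftLeft (fl h 104 17179869183) 2960))
    (Nat.shiftLeft (fl h 138 17179869183) 4800)) (Nat.shiftLeft (fl h 172 17179869183) 5200))
    (Nat.shiftLeft (fl h 206 17179869183) 5360)) (Nat.shiftLeft (fl h 240 17179869183) 5600))
    (Nat.shiftLeft (fl h 274 17179869183) 5760)) (Nat.shiftLeft (fl h 308 17179869183) 5920)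

def leaf (B sa sb sc : Bool) (l0 h0 l1 h1 l2 h2 h : ℕ) (l : List ℕ) : Bool :=
  mkPre B (br B true (bt h 0)) (sg (br B false sa) (rv 0 l0 h0)) (sg sc (rv 1 l1 h1)) (rv 2 l2 h2) fun P =>
  br (bt h 1)
    (geo B (br B true (bt h 0)) sb P rz (Nat.shiftRight h 2) fun G =>
      utest sa sb sc P G (Nat.shiftRight h 2))
    (bnd (rpoly (mkψ h)) fun ψ => chain B (br B true (bt h 0)) sa sb sc P ψ l 0 true)

inductive Tr : Type
  | l (h : ℕ) (l : List ℕ)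
  | a (s t : Tr)
  | b (s t : Tr)
  | c (s t : Tr)

def mid (l h : ℕ) : ℕ := Nat.shiftRight (Nat.add l h) 1

noncomputable def chk (B sa sb sc : Bool) (t : Tr) : ℕ → ℕ → ℕ → ℕ → ℕ → ℕ → Bool :=
  Tr.rec (motive := fun _ => ℕ → ℕ → ℕ → ℕ → ℕ → ℕ → Bool)
    (fun h l l0 h0 l1 h1 l2 h2 => leaf B sa sb sc l0 h0 l1 h1 l2 h2 h l)
    (fun _ _ s t l0 h0 l1 h1 l2 h2 =>
      grd (s l0 (mid l0 h0) l1 h1 l2 h2) (t (mid l0 h0) h0 l1 h1 l2 h2))
    (fun _ _ s t l0 h0 l1 h1 l2 h2 =>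
      grd (s l0 h0 l1 (mid l1 h1) l2 h2) (t l0 h0 (mid l1 h1) h1 l2 h2))
    (fun _ _ s t l0 h0 l1 h1 l2 h2 =>
      grd (s l0 h0 l1 h1 l2 (mid l2 h2)) (t l0 h0 l1 h1 (mid l2 h2) h2)) t

end Pool.Agent.MP_4948b4_mp.N4
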