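import Pool.Agent.MP_4948b4_mp.N4.Base

/-! Collinear configurations are unstable. -/

namespace Pool.Agent.MP_4948b4_mp.N4

open Complex Finset ComplexConjugate

open Matrix in
theorem col_neg_eig {B : Matrix (Fin 4) (Fin 4) ℝ} (hB : B.IsHermitian) {x : Fin 4 → ℝ}
    (hx : x ⬝ᵥ B *ᵥ x < 0) : ∃ β : ℝ, β < 0 ∧ ∃ u : Fin 4 → ℝ, u ≠ 0 ∧ B *ᵥ u = β • u := by
  by_contra hc
  have h1 : B.PosSemidef := by
    rw [hB.posSemidef_iff_eigenvalues_nonneg]
    intro i
    by_contra h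
    refine hc ⟨hB.eigenvalues i, not_le.1 h, hB.eigenvectorBasis i, fun e => ?_,
      hB.mulVec_eigenvectorBasis i⟩
    refine hB.eigenvectorBasis.orthonormal.ne_zero i ?_
    ext j
    exact congrFun e j
  have h2 := h1.dotProduct_mulVec_nonneg x
  rw [star_trivial] at h2
  linarith

open Matrix in
/-- a weighted Laplacian whose Rayleigh quotient exceeds `M` has an eigenvalue above `M` -/
theorem col_eig {μ : Fin 4 → ℝ} (hμ : ∀ i, 0 < μ i) {w : Fin 4 → Fin 4 → ℝ}
    (hw : ∀ i j, w j i = w i j) {M : ℝ} {v : Fin 4 → ℝ}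
    (hv : ∑ i, μ i * v i * (M * v i - ∑ j, μ j * w i j * (v i - v j)) < 0) :
    ∃ l : ℝ, M < l ∧ ∃ u : Fin 4 → ℝ, u ≠ 0 ∧
      ∀ i, ∑ j, μ j * w i j * (u i - u j) = l * u i := by
  have hs : ∀ i, √(μ i) * √(μ i) = μ i := fun i => Real.mul_self_sqrt (hμ i).le
  have hs0 : ∀ i, √(μ i) ≠ 0 := fun i => (Real.sqrt_pos.2 (hμ i)).ne'
  set B : Matrix (Fin 4) (Fin 4) ℝ := diagonal (fun i => M - ∑ k, μ k * w i k) +
    of fun i j => √(μ i) * √(μ j) * w i j with hBd
  have hB : B.IsHermitian := by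
    refine IsHermitian.add (isHermitian_diagonal _) ?_
    ext i j
    simp only [conjTranspose_apply, of_apply, star_trivial, hw i j, mul_comm]
  have key : ∀ (a : Fin 4 → ℝ) (i : Fin 4), (B *ᵥ fun j => √(μ j) * a j) i =
      √(μ i) * (M * a i - ∑ j, μ j * w i j * (a i - a j)) := fun a i => by
    rw [hBd, add_mulVec, Pi.add_apply, mulVec_diagonal]
    have e1 : ((of fun i j => √(μ i) * √(μ j) * w i j) *ᵥ fun j => √(μ j) * a j) i =
        √(μ i) * ∑ j, μ j * w i j * a j := by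
      rw [mul_sum, mulVec, dotProduct]
      refine sum_congr rfl fun j _ => ?_
      simp only [of_apply]
      linear_combination (√(μ i) * w i j * a j) * hs j
    rw [e1]
    simp only [mul_sub, sum_sub_distrib, ← sum_mul]
    ring
  obtain ⟨β, hβ, u, hu, h⟩ := col_neg_eig hB (x := fun j => √(μ j) * v j) (by
    refine lt_of_eq_of_lt (sum_congr rfl fun i _ => ?_) hv
    rw [key]
    linear_combination (v i * (M * v i - ∑ j, μ j * w i j * (v i - v j))) * hs i)
  have e : u = fun j => √(μ j) * (u j / √(μ j)) := funext fun j => (mul_div_cancel₀ _ (hs0 j)).symm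
  refine ⟨M - β, by linarith, fun j => u j / √(μ j), fun h0 => hu ?_, fun i => ?_⟩
  · rw [e]
    funext j
    have := congrFun h0 j
    simp only [Pi.zero_apply] at this ⊢
    rw [this, mul_zero]
  · have h1 := key (fun j => u j / √(μ j)) i
    rw [← e, h, Pi.smul_apply, smul_eq_mul] at h1
    have h2 : √(μ i) * (β * (u i / √(μ i))) = β * u i := by
      rw [mul_left_comm, mul_div_cancel₀ _ (hs0 i)]
    have h3 := mul_left_cancel₀ (hs0 i) (h2.trans h1)
    linarith

theorem col_root {M l σ : ℝ} (hM : 0 < M) (hl : M < l) (hσ : σ ≠ 0) : ∃ τ : ℝ, σ * τ < 0 ∧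
    M ^ 2 * (τ ^ 2 + 1) ^ 2 + M * l * (1 - τ ^ 2) - 2 * l ^ 2 = 0 := by
  have h0 : 0 < l := hM.trans hl
  have hc : ContinuousOn (fun T : ℝ => M ^ 2 * (T + 1) ^ 2 + M * l * (1 - T) - 2 * l ^ 2)
      (Set.Icc 0 (3 * l / M)) := by fun_prop
  have f0 : M ^ 2 * (0 + 1) ^ 2 + M * l * (1 - 0) - 2 * l ^ 2 < 0 := by nlinarith
  have f1 : 0 ≤ M ^ 2 * (3 * l / M + 1) ^ 2 + M * l * (1 - 3 * l / M) - 2 * l ^ 2 := by
    have : M ^ 2 * (3 * l / M + 1) ^ 2 + M * l * (1 - 3 * l / M) - 2 * l ^ 2 =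
        4 * l ^ 2 + 7 * (l * M) + M ^ 2 := by
      field_simp
      ring
    rw [this]
    positivity
  obtain ⟨T, hT, e⟩ := intermediate_value_Icc (by positivity) hc ⟨f0.le, f1⟩
  have hT0 : 0 < T := lt_of_le_of_ne hT.1 fun h => by
    rw [← h] at e
    exact f0.ne e
  have hs := Real.sqrt_pos.2 hT0
  rcases lt_or_gt_of_ne hσ with h | h
  · exact ⟨√T, mul_neg_of_neg_of_pos h hs, by rw [Real.sq_sqrt hT0.le]; exact e⟩
  · exact ⟨-√T, mul_neg_of_pos_of_neg h (neg_neg_of_pos hs),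
      by rw [neg_sq, Real.sq_sqrt hT0.le]; exact e⟩

theorem col_pos {r : ℝ} (h : 0 < r) : ((r ^ 3)⁻¹ - 1) * (1 - r) =
    (1 - r) ^ 2 * ((1 + r + r ^ 2) / r ^ 3) := by
  field_simp
  ring

theorem Cfg.col (C : Cfg) (h : ∀ i, (C.p i).im = 0) : False := by
  obtain ⟨x, hx⟩ : ∃ x : Fin 4 → ℝ, ∀ i, C.p i = x i :=
    ⟨fun i => (C.p i).re, fun i => Complex.ext rfl (h i)⟩
  have xi : ∀ i j, x i = x j → i = j := fun i j e => C.inj (by rw [hx, hx, e])
  obtain ⟨i, -, hi⟩ := exists_min_image univ x univ_nonempty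
  have hr : ∀ j ∈ univ.erase i, 0 < x j - x i := fun j hj =>
    sub_pos.2 (lt_of_le_of_ne (hi j (mem_univ j)) fun e => ne_of_mem_erase hj (xi _ _ e.symm))
  have hw : ∀ j ∈ univ.erase i, wc C.p i j = ((x j - x i) ^ 3)⁻¹ := fun j hj => by
    rw [wc, hx, hx, ← ofReal_sub, norm_real, Real.norm_of_nonneg (hr j hj).le]
  have c1 : ∑ j ∈ univ.erase i, C.μ j * (1 - wc C.p i j) * (x j - x i) = 0 := by
    have e := C.cc i
    simp only [hx, ← ofReal_sub, ← ofReal_mul, ← ofReal_sum, ofReal_eq_zero] at e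
    rwa [← add_sum_erase _ _ (mem_univ i), sub_self, mul_zero, zero_add] at e
  have c2 : 0 < ∑ j ∈ univ.erase i, C.μ j * ((wc C.p i j - 1) * (1 - (x j - x i))) := by
    refine sum_pos' (fun j hj => ?_) ?_
    · have := hr j hj
      have := C.pos j
      rw [hw j hj, col_pos (hr j hj)]
      positivity
    · have hd : ∀ i : Fin 4, i + 1 ≠ i ∧ i + 2 ≠ i ∧ i + 1 ≠ i + 2 := by decide
      obtain ⟨j, hj, hj1⟩ : ∃ j ∈ univ.erase i, 1 - (x j - x i) ≠ 0 := by
        by_contra hc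
        push Not at hc
        have e1 := hc _ (mem_erase.2 ⟨(hd i).1, mem_univ _⟩)
        have e2 := hc _ (mem_erase.2 ⟨(hd i).2.1, mem_univ _⟩)
        exact (hd i).2.2 (xi _ _ (by linarith))
      refine ⟨j, hj, ?_⟩
      have := hr j hj
      have := C.pos j
      rw [hw j hj, col_pos (hr j hj)]
      positivity
  set M := ∑ j, C.μ j with hM
  have hM0 : 0 < M := sum_pos (fun j _ => C.pos j) univ_nonempty
  set W := ∑ j ∈ univ.erase i, C.μ j * wc C.p i j with hW
  have m1 : ∑ j ∈ univ.erase i, C.μ j = M - C.μ i := by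
    rw [hM, ← add_sum_erase _ _ (mem_univ i), add_sub_cancel_left]
  have c3 : M - C.μ i < W := by
    have e : ∑ j ∈ univ.erase i, C.μ j * ((wc C.p i j - 1) * (1 - (x j - x i))) =
        W - ∑ j ∈ univ.erase i, C.μ j +
          ∑ j ∈ univ.erase i, C.μ j * (1 - wc C.p i j) * (x j - x i) := by
      rw [hW, ← sum_sub_distrib, ← sum_add_distrib]
      exact sum_congr rfl fun j _ => by ring
    linarith
  obtain ⟨l, hl, u, hu, hL⟩ := col_eig C.pos (w := wc C.p) (wc_symm C.p) (M := M)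
    (v := fun j => if j = i then M - C.μ i else -C.μ i) (by
      have a1 : ∑ j, C.μ j * wc C.p i j * ((M - C.μ i) - if j = i then M - C.μ i else -C.μ i) =
          W * M := by
        rw [← add_sum_erase _ _ (mem_univ i), if_pos rfl, sub_self, mul_zero, zero_add, hW, sum_mul]
        exact sum_congr rfl fun j hj => by rw [if_neg (ne_of_mem_erase hj)]; ring
      have a2 : ∀ k, ∑ j, C.μ j * wc C.p k j *
          (-C.μ i - if j = i then M - C.μ i else -C.μ i) = -(C.μ i * wc C.p i k * M) := fun k => by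
        rw [sum_eq_single i (fun j _ hj => by rw [if_neg hj, sub_self, mul_zero])
          (fun hj => absurd (mem_univ i) hj), if_pos rfl, wc_symm]
        ring
      rw [← add_sum_erase _ _ (mem_univ i), if_pos rfl, a1,
        sum_congr rfl (g := fun k => C.μ i ^ 2 * M * C.μ k - C.μ i ^ 2 * M * (C.μ k * wc C.p i k))
          fun k hk => by rw [if_neg (ne_of_mem_erase hk), a2]; ring,
        sum_sub_distrib, ← mul_sum, ← mul_sum, m1, ← hW]
      have a3 : 0 < C.μ i * M ^ 2 * (W - (M - C.μ i)) :=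
        mul_pos (mul_pos (C.pos i) (pow_pos hM0 2)) (sub_pos.2 c3)
      linarith)
  obtain ⟨τ, hτ, hq⟩ := col_root hM0 hl C.hσ
  have hl0 : (l : ℂ) ≠ 0 := ofReal_ne_zero.2 (hM0.trans hl).ne'
  have he : ∀ k j, k ≠ j → ec C.p k j = 1 := fun k j hkj => by
    have n : x j - x k ≠ 0 := fun e => hkj (xi _ _ (by linarith))
    rw [ec, hx, hx, ← ofReal_sub, norm_real, ← ofReal_div, ← ofReal_pow, div_pow,
      Real.norm_eq_abs, sq_abs, div_self (pow_ne_zero 2 n), ofReal_one]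
  have hS : ∀ (a b : ℂ) (e : Fin 4 → Fin 4 → ℂ), (∀ k j, k ≠ j → e k j = 1) → ∀ k,
      ∑ j, ((C.μ j * wc C.p k j : ℝ) : ℂ) *
        (1 / 2 * (a * u k - a * u j) + 3 / 2 * e k j * (b * u k - b * u j)) =
      (1 / 2 * a + 3 / 2 * b) * (l * u k) := fun a b e h1 k => by
    have e1 := congrArg (fun t : ℝ => (t : ℂ)) (hL k)
    simp only [ofReal_sum, ofReal_mul, ofReal_sub] at e1
    rw [← e1, mul_sum]
    refine sum_congr rfl fun j _ => ?_
    by_cases hkj : k = j
    · rw [hkj]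
      ring
    · rw [h1 k j hkj]
      push_cast
      ring
  have hst := C.st (τ * I) (fun k => 3 / 2 * l * u k)
    (fun k => -(M * (τ * I + 1) ^ 2 + l / 2) * u k) (fun h0 => hu (funext fun k => by
      have := congrFun h0.1 k
      simpa [hl0] using this)) ⟨fun k => ?_, fun k => ?_⟩
  · simp only [mul_im, ofReal_re, I_im, mul_one, ofReal_im, I_re, mul_zero, add_zero] at hst
    linarith
  · rw [hS _ _ _ he, ← hM]
    ring
  · rw [hS _ _ (fun k j => conj (ec C.p k j)) (fun k j hkj => by rw [he k j hkj, map_one]), ← hM]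
    have e1 := congrArg (fun t : ℝ => (t : ℂ)) hq
    simp only [ofReal_add, ofReal_mul, ofReal_sub, ofReal_pow, ofReal_one, ofReal_ofNat,
      ofReal_zero] at e1
    have e2 : (τ * I : ℂ) ^ 2 = -τ ^ 2 := by rw [mul_pow, I_sq]; ring
    linear_combination (-(u k : ℂ)) * e1 -
      (u k * (M ^ 2 * ((τ * I) ^ 2 - τ ^ 2 - 2) + M * l)) * e2

end Pool.Agent.MP_4948b4_mp.N4
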