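import Pool.Agent.MP_4948b4_mp.N4.Base

/-! Dziobek coordinates. -/

namespace Pool.Agent.MP_4948b4_mp.N4

open Complex Finset ComplexConjugate

theorem dz_ker {p : Fin 4 → ℂ} (h2 : p 2 = 0) (h3 : (p 3).im = 0) (he : (p 3).re ≠ 0)
    (hn : ¬ ((p 0).im = 0 ∧ (p 1).im = 0)) :
    ∃ D : Fin 4 → ℝ, D ≠ 0 ∧ ∑ i, D i = 0 ∧ ∑ i, (D i : ℂ) * p i = 0 ∧
      ∀ c : Fin 4 → ℝ, ∑ i, c i = 0 → ∑ i, (c i : ℂ) * p i = 0 → ∃ l, ∀ j, c j = l * D j := by
  refine ⟨![(p 1).im * (p 3).re, -((p 0).im * (p 3).re),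
    -((p 1).im * (p 3).re) + (p 0).im * (p 3).re -
      ((p 0).im * (p 1).re - (p 1).im * (p 0).re),
    (p 0).im * (p 1).re - (p 1).im * (p 0).re], ?_, ?_, ?_, ?_⟩
  · intro h
    have a0 := congrFun h 0
    have a1 := congrFun h 1
    simp only [Matrix.cons_val_zero, Matrix.cons_val_one, Pi.zero_apply, neg_eq_zero,
      mul_eq_zero, he, or_false] at a0 a1
    exact hn ⟨a1, a0⟩
  · simp only [Fin.sum_univ_four, Matrix.cons_val]
    ring
  · apply Complex.ext
    · simp only [Fin.sum_univ_four, Matrix.cons_val, h2, add_re, mul_re, ofReal_re, ofReal_im,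
        zero_re, zero_im]
      ring
    · simp only [Fin.sum_univ_four, Matrix.cons_val, h2, h3, add_im, mul_im, ofReal_re, ofReal_im,
        zero_re, zero_im]
      ring
  · intro c c0 c1
    have cx := congrArg Complex.re c1
    have cy := congrArg Complex.im c1
    simp only [Fin.sum_univ_four, h2, h3, add_re, mul_re, add_im, mul_im, ofReal_re, ofReal_im,
      zero_re, zero_im, zero_mul, mul_zero, sub_zero, add_zero] at c0 cx cy
    have key : ∃ l, c 0 = l * ((p 1).im * (p 3).re) ∧ c 1 = l * -((p 0).im * (p 3).re) := by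
      by_cases hy : (p 1).im = 0
      · have hy0 : (p 0).im ≠ 0 := fun h => hn ⟨h, hy⟩
        refine ⟨-(c 1 / ((p 0).im * (p 3).re)), ?_, ?_⟩
        · rw [hy, mul_zero, add_zero, mul_eq_zero] at cy
          rw [hy, zero_mul, mul_zero]
          exact cy.resolve_right hy0
        · field_simp
      · refine ⟨c 0 / ((p 1).im * (p 3).re), ?_, ?_⟩
        · field_simp
        · field_simp
          linear_combination cy
    obtain ⟨l, l0, l1⟩ := key
    have l3 : c 3 = l * ((p 0).im * (p 1).re - (p 1).im * (p 0).re) := by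
      refine mul_right_cancel₀ he ?_
      rw [l0, l1] at cx
      linear_combination cx
    refine ⟨l, fun j => ?_⟩
    fin_cases j
    · simpa using l0
    · simpa using l1
    · simp only [Fin.reduceFinMk, Matrix.cons_val]
      linear_combination c0 - l0 - l1 - l3
    · simpa using l3

theorem dz_tri {a b c x y z : ℝ} (hx : 0 < x) (hy : 0 < y) (hz : 0 < z)
    (h1 : b * x + c * y = 0) (h2 : a * x + c * z = 0) (h3 : a * y + b * z = 0) :
    a = 0 ∧ b = 0 ∧ c = 0 := by
  have hc : c = 0 := by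
    have : c * (2 * y * z) = 0 := by linear_combination z * h1 + y * h2 - x * h3
    exact (mul_eq_zero.1 this).resolve_right (by positivity)
  rw [hc, zero_mul, add_zero, mul_eq_zero] at h1 h2
  exact ⟨h2.resolve_right hx.ne', h1.resolve_right hx.ne', hc⟩

theorem dz_abs {μ D l : Fin 4 → ℝ} {d S : Fin 4 → Fin 4 → ℝ} {K : ℝ} (hμ : ∀ i, 0 < μ i)
    (hD : D ≠ 0) (h0 : ∑ i, D i = 0) (hK : ∀ i, ∑ j, D j * d i j = K) (dii : ∀ i, d i i = 0)
    (dsym : ∀ i j, d j i = d i j) (dpos : ∀ i j, i ≠ j → 0 < d i j)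
    (Ssym : ∀ i j, S j i = S i j) (hsg : ∀ i j, i ≠ j → 0 ≤ S i j * (d i j - 1))
    (hS0 : ∀ i j, i ≠ j → S i j = 0 → d i j = 1)
    (hl : ∀ i j, i ≠ j → μ i * μ j * S i j = l i * D j) :
    ∃ r : ℝ, r ≠ 0 ∧ (∀ i, D i ≠ 0) ∧
      ∀ i j, i ≠ j → μ i * μ j * S i j = r * D i * (r * D j) := by
  obtain ⟨k, hk⟩ := Function.ne_iff.1 hD
  have hk' : D k ≠ 0 := hk
  obtain ⟨lam, hlam⟩ : ∃ lam : ℝ, ∀ j, l j = lam * D j := by
    refine ⟨l k / D k, fun j => ?_⟩
    by_cases hj : j = k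
    · rw [hj]
      field_simp
    · have a := hl j k hj
      have b := hl k j (Ne.symm hj)
      rw [Ssym] at a
      field_simp
      linear_combination b - a
  have hs : ∀ i j, i ≠ j → μ i * μ j * S i j = lam * (D i * D j) := fun i j h => by
    rw [hl i j h, hlam]
    ring
  have hz : ∀ i j, i ≠ j → lam * (D i * D j) = 0 → d i j = 1 := fun i j h h' => by
    refine hS0 i j h ?_
    have := (hs i j h).trans h'
    exact (mul_eq_zero.1 this).resolve_left (mul_pos (hμ i) (hμ j)).ne'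
  have hp : ∀ i j, i ≠ j → 0 ≤ lam * (D i * D j) * (d i j - 1) := fun i j h => by
    rw [← hs i j h, mul_assoc]
    exact mul_nonneg (mul_pos (hμ i) (hμ j)).le (hsg i j h)
  have K0 := hK 0
  have K1 := hK 1
  have K2 := hK 2
  have K3 := hK 3
  simp only [Fin.sum_univ_four, dii, mul_zero, add_zero, zero_add] at h0 K0 K1 K2 K3
  rw [dsym 0 1] at K1
  rw [dsym 0 2, dsym 1 2] at K2
  rw [dsym 0 3, dsym 1 3, dsym 2 3] at K3
  have hne : ¬ (D 0 = 0 ∧ D 1 = 0 ∧ D 2 = 0 ∧ D 3 = 0) := by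
    rintro ⟨a, b, c, e⟩
    refine hD (funext fun i => ?_)
    fin_cases i
    exacts [a, b, c, e]
  have hQ : 0 < D 0 ^ 2 + D 1 ^ 2 + D 2 ^ 2 + D 3 ^ 2 := by
    by_contra h
    refine hne ⟨?_, ?_, ?_, ?_⟩ <;>
      nlinarith [sq_nonneg (D 0), sq_nonneg (D 1), sq_nonneg (D 2), sq_nonneg (D 3)]
  have hid : D 0 ^ 2 + D 1 ^ 2 + D 2 ^ 2 + D 3 ^ 2 = 2 * (D 0 * D 1 * (d 0 1 - 1) +
      D 0 * D 2 * (d 0 2 - 1) + D 0 * D 3 * (d 0 3 - 1) + D 1 * D 2 * (d 1 2 - 1) +
      D 1 * D 3 * (d 1 3 - 1) + D 2 * D 3 * (d 2 3 - 1)) := by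
    linear_combination (D 0 + D 1 + D 2 + D 3 - K) * h0 - D 0 * K0 - D 1 * K1 - D 2 * K2 -
      D 3 * K3
  have hl0 : 0 ≤ lam := by
    have : 0 ≤ lam * (D 0 ^ 2 + D 1 ^ 2 + D 2 ^ 2 + D 3 ^ 2) := by
      rw [hid]
      have := hp 0 1 (by decide)
      have := hp 0 2 (by decide)
      have := hp 0 3 (by decide)
      have := hp 1 2 (by decide)
      have := hp 1 3 (by decide)
      have := hp 2 3 (by decide)
      linarith
    exact nonneg_of_mul_nonneg_left this hQ
  have hl1 : lam ≠ 0 := by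
    intro h
    have hd : ∀ i j, i ≠ j → d i j = 1 := fun i j hij => hz i j hij (by rw [h, zero_mul])
    rw [hd 0 1 (by decide), hd 0 2 (by decide), hd 0 3 (by decide)] at K0
    rw [hd 0 1 (by decide), hd 1 2 (by decide), hd 1 3 (by decide)] at K1
    rw [hd 0 2 (by decide), hd 1 2 (by decide), hd 2 3 (by decide)] at K2
    rw [hd 0 3 (by decide), hd 1 3 (by decide), hd 2 3 (by decide)] at K3
    exact hne ⟨by linarith, by linarith, by linarith, by linarith⟩
  have d01 := dpos 0 1 (by decide)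
  have d02 := dpos 0 2 (by decide)
  have d03 := dpos 0 3 (by decide)
  have d12 := dpos 1 2 (by decide)
  have d13 := dpos 1 3 (by decide)
  have d23 := dpos 2 3 (by decide)
  refine ⟨√lam, (Real.sqrt_ne_zero hl0).2 hl1, fun i hi => ?_, fun i j h => ?_⟩
  · have h1 : ∀ j, i ≠ j → d i j = 1 := fun j h => hz i j h (by rw [hi, zero_mul, mul_zero])
    have h2 : ∀ j, i ≠ j → d j i = 1 := fun j h => (dsym i j).trans (h1 j h)
    fin_cases i
    · have e : D 0 = 0 := hi
      have a : d 0 1 = 1 := h1 1 (by decide)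
      have b : d 0 2 = 1 := h1 2 (by decide)
      have c : d 0 3 = 1 := h1 3 (by decide)
      rw [a, b, c] at K0
      rw [e] at h0 K1 K2 K3
      obtain ⟨u, v, w⟩ := dz_tri (a := D 1) (b := D 2) (c := D 3) d12 d13 d23
        (by linarith) (by linarith) (by linarith)
      exact hne ⟨e, u, v, w⟩
    · have e : D 1 = 0 := hi
      have a : d 0 1 = 1 := h2 0 (by decide)
      have b : d 1 2 = 1 := h1 2 (by decide)
      have c : d 1 3 = 1 := h1 3 (by decide)
      rw [a, b, c] at K1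
      rw [e] at h0 K0 K2 K3
      obtain ⟨u, v, w⟩ := dz_tri (a := D 0) (b := D 2) (c := D 3) d02 d03 d23
        (by linarith) (by linarith) (by linarith)
      exact hne ⟨u, e, v, w⟩
    · have e : D 2 = 0 := hi
      have a : d 0 2 = 1 := h2 0 (by decide)
      have b : d 1 2 = 1 := h2 1 (by decide)
      have c : d 2 3 = 1 := h1 3 (by decide)
      rw [a, b, c] at K2
      rw [e] at h0 K0 K1 K3
      obtain ⟨u, v, w⟩ := dz_tri (a := D 0) (b := D 1) (c := D 3) d01 d03 d13
        (by linarith) (by linarith) (by linarith)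
      exact hne ⟨u, v, e, w⟩
    · have e : D 3 = 0 := hi
      have a : d 0 3 = 1 := h2 0 (by decide)
      have b : d 1 3 = 1 := h2 1 (by decide)
      have c : d 2 3 = 1 := h2 2 (by decide)
      rw [a, b, c] at K3
      rw [e] at h0 K0 K1 K2
      obtain ⟨u, v, w⟩ := dz_tri (a := D 0) (b := D 1) (c := D 2) d01 d02 d12
        (by linarith) (by linarith) (by linarith)
      exact hne ⟨u, v, w, e⟩
  · rw [hs i j h]
    linear_combination (-(D i * D j)) * Real.mul_self_sqrt hl0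

theorem dz_sign {r : ℝ} (hr : 0 < r) :
    0 ≤ (1 - (r ^ 3)⁻¹) * (r ^ 2 - 1) ∧ (1 - (r ^ 3)⁻¹ = 0 → r ^ 2 = 1) := by
  have h3 : 0 < r ^ 3 := pow_pos hr 3
  constructor
  · rcases le_total r 1 with h | h
    · refine mul_nonneg_of_nonpos_of_nonpos ?_ ?_
      · rw [sub_nonpos]
        exact (one_le_inv₀ h3).2 (pow_le_one₀ hr.le h)
      · rw [sub_nonpos]
        exact pow_le_one₀ hr.le h
    · refine mul_nonneg ?_ ?_
      · rw [sub_nonneg]
        exact inv_le_one_of_one_le₀ (one_le_pow₀ h)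
      · rw [sub_nonneg]
        exact one_le_pow₀ h
  · intro h
    have h1 : r ^ 3 = 1 := inv_eq_one.1 (sub_eq_zero.1 h).symm
    rw [(pow_eq_one_iff_of_nonneg hr.le (by norm_num)).1 h1, one_pow]

theorem Cfg.dz (C : Cfg) (h2 : C.p 2 = 0) (h3 : (C.p 3).im = 0)
    (hn : ¬ ((C.p 0).im = 0 ∧ (C.p 1).im = 0)) : ∃ D : Dz, D.toCfg = C := by
  have he : (C.p 3).re ≠ 0 := by
    intro h
    have : C.p 3 = C.p 2 := by
      rw [h2]
      exact Complex.ext h h3
    exact absurd (C.inj this) (by decide)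
  obtain ⟨D, hD, h0, h1, hker⟩ := dz_ker h2 h3 he hn
  have hrow : ∀ i, ∃ l : ℝ, ∀ j, i ≠ j → C.μ i * C.μ j * (1 - wc C.p i j) = l * D j := by
    intro i
    obtain ⟨l, hl⟩ := hker (fun j => C.μ i * C.μ j * (1 - wc C.p i j) -
      if i = j then ∑ k, C.μ i * C.μ k * (1 - wc C.p i k) else 0)
      (by rw [sum_sub_distrib, sum_ite_eq, if_pos (mem_univ _), sub_self])
      (by
        have e : ∀ j, ((C.μ i * C.μ j * (1 - wc C.p i j) -
            if i = j then ∑ k, C.μ i * C.μ k * (1 - wc C.p i k) else 0 : ℝ) : ℂ) * C.p j =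
            ((C.μ i * C.μ j * (1 - wc C.p i j) : ℝ) : ℂ) * C.p j -
              if i = j then ((∑ k, C.μ i * C.μ k * (1 - wc C.p i k) : ℝ) : ℂ) * C.p j
              else 0 := by
          intro j
          split_ifs
          · rw [ofReal_sub, sub_mul]
          · rw [sub_zero, sub_zero]
        simp only [e]
        rw [sum_sub_distrib, sum_ite_eq, if_pos (mem_univ _), ofReal_sum, sum_mul,
          ← sum_sub_distrib]
        have := congrArg (fun z => (C.μ i : ℂ) * z) (C.cc i)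
        simp only [mul_zero, mul_sum] at this
        rw [← this]
        refine sum_congr rfl fun j _ => ?_
        push_cast
        ring)
    refine ⟨l, fun j hij => ?_⟩
    have := hl j
    rwa [if_neg hij, sub_zero] at this
  choose l hl using hrow
  have hr : ∀ i j, i ≠ j → 0 < ‖C.p j - C.p i‖ := fun i j h =>
    norm_pos_iff.2 (sub_ne_zero.2 fun e => h (C.inj e).symm)
  have hx := congrArg Complex.re h1
  have hy := congrArg Complex.im h1
  simp only [Fin.sum_univ_four, add_re, mul_re, add_im, mul_im, ofReal_re, ofReal_im,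
    zero_re, zero_im, zero_mul, sub_zero, add_zero] at hx hy
  obtain ⟨r, hr0, hDi, hS⟩ := dz_abs (μ := C.μ) (D := D) (l := l)
    (d := fun i j => ‖C.p j - C.p i‖ ^ 2) (S := fun i j => 1 - wc C.p i j)
    (K := ∑ j, D j * ((C.p j).re ^ 2 + (C.p j).im ^ 2)) C.pos hD h0
    (fun i => by
      simp only [Complex.sq_norm, normSq_apply, sub_re, sub_im, Fin.sum_univ_four] at h0 ⊢
      linear_combination ((C.p i).re ^ 2 + (C.p i).im ^ 2) * h0 - 2 * (C.p i).re * hx -
        2 * (C.p i).im * hy)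
    (fun i => by simp) (fun i j => by simp only [norm_sub_rev])
    (fun i j h => pow_pos (hr i j h) 2) (fun i j => by simp only [wc_symm])
    (fun i j h => (dz_sign (hr i j h)).1) (fun i j h => (dz_sign (hr i j h)).2) hl
  have hm : ∀ i, C.μ i * (r * D i / C.μ i) = r * D i := fun i =>
    mul_div_cancel₀ _ (C.pos i).ne'
  refine ⟨⟨C, fun i => r * D i / C.μ i, fun i j h => ?_, ?_, ?_, fun i => ?_⟩, rfl⟩
  · have a := (C.pos i).ne'
    have b := (C.pos j).ne'
    have := hS i j h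
    field_simp
    linear_combination this
  · simp only [hm]
    rw [← mul_sum, h0, mul_zero]
  · simp only [hm, ofReal_mul, mul_assoc]
    rw [← mul_sum, h1, mul_zero]
  · exact div_ne_zero (mul_ne_zero hr0 (hDi i)) (C.pos i).ne'

end Pool.Agent.MP_4948b4_mp.N4
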