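import Pool.Agent.MP_4948b4_mp.N4.Snd

/-! Soundness of the box checker: tests, chains of slabs, trees of boxes. -/

set_option linter.unusedVariables false
set_option maxHeartbeats 400000

namespace Pool.Agent.MP_4948b4_mp.N4

open Pool.Agent.Sok Pool.Agent.Sok.TMI ComplexConjugate

/-- the counterexample `S` sits at the parameter `c` of the chart -/
structure Ctx (B sa sb sc : Bool) (al c : ℝ) (S : Sol) : Prop where
  par : S.toPar = par B sb al S.γ S.ε c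
  pos : 0 < c
  ob : obv B S.ε c ≤ 0
  hγ : 0 < sv sc * S.γ
  hB : B = true → sa = true ∧ sb = false ∧ 0 < al
  hA : B = false → 0 < sv sa * al

theorem np_nil {x : Pt} : ∀ c ∈ ([] : List TM), NP x c := by simp

theorem np_cons {x : Pt} {a : TM} {l : List TM} {z : ℝ} (h : R x a z) (hz : z ≤ 0)
    (hl : ∀ c ∈ l, NP x c) : ∀ c ∈ a :: l, NP x c :=
  List.forall_mem_cons.2 ⟨⟨z, h, hz⟩, hl⟩

theorem comb0 {x : Pt} {l : List TM} {n : ℕ} (h : comb l n rz = true) (hl : ∀ c ∈ l, NP x c) :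
    False := comb_ok h hl ⟨0, R_rz, le_rfl⟩

theorem R_xp (x : Pt) : R x xp (1 + x.x3) :=
  (R_rv 3 (Nat.zero_le _)).cg (by simp only [vv, Pt.get]; norm_num; ring)

theorem R_xm (x : Pt) : R x xm (x.x3 - 1) := (R_rd (R_xp x) _).cg (by norm_num; ring)

theorem sv_xor (a b : Bool) : sv (xor a b) = sv a * sv b := by cases a <;> cases b <;> simp [sv]

variable {B big sa sb sc : Bool} {al cs c : ℝ} {S : Sol} {x : Pt} {P : Pre} {G : Geo} {n : ℕ}

theorem Ctx.u2 (h : Ctx B sa sb sc al cs S) : 0 < sv sb * S.u2 := by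
  have e := congrArg Par.u2 h.par
  cases B
  · have : sv sb * S.u2 = cs * S.ε ^ 4 := by
      rw [e]; simp only [N4.par, cond_false]; linear_combination (cs * S.ε ^ 4) * sv_sq sb
    rw [this]; have := h.pos; have := S.hε; positivity
  · obtain ⟨-, rfl, h3⟩ := h.hB rfl
    rw [e]; simpa [sv, N4.par] using h3

theorem Ctx.u12 (h : Ctx B sa sb sc al cs S) : 0 < sv sa * (S.u1 * S.u2) := by
  have e1 := congrArg Par.u1 h.par
  have e2 := congrArg Par.u2 h.par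
  cases B
  · have e : S.u1 = al * S.u2 := by rw [e1, e2]; rfl
    have := mul_pos (h.hA rfl) (mul_self_pos.2 S.hu2)
    rw [e]; linarith
  · obtain ⟨rfl, -, h3⟩ := h.hB rfl
    rw [e1, e2]; simpa [sv, N4.par] using mul_pos h.pos h3

theorem Ctx.sc_eq (h : Ctx B sa sb sc al cs S) (c : ℝ) :
    N4.par B sb al S.γ S.ε c = S.sc (c / cs) (cond B 1 (c / cs)) := by
  have e1 := congrArg Par.u1 h.par
  have e2 := congrArg Par.u2 h.par
  have h0 := h.pos.ne'
  rw [Par.sc, e1, e2]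
  cases B <;> simp only [N4.par, cond_true, cond_false, Par.mk.injEq, and_true] <;>
    constructor <;> field_simp

theorem ltest_ok (h : ltest G n = true) (C : Ctx B sa sb sc al cs S) (hx : x.x3 = -1) {v ob : ℝ}
    (hG : GeoR x G (par B sb al S.γ S.ε c) c v ob) : c ≤ cs := by
  by_contra hc
  have h0 := C.pos
  have h1 : 1 ≤ c / cs := by rw [le_div_iff₀ h0]; linarith
  obtain ⟨g1, g2⟩ := grd_ok h
  have hl : ∀ a ∈ [rn G.c, xp, rn xp], NP x a := np_cons (R_rn hG.c) (by linarith)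
    (np_cons (R_xp x) (by linarith) (np_cons (R_rn (R_xp x)) (by linarith) np_nil))
  rw [C.sc_eq] at hG
  refine S.Ltest h1 (θ2 := cond B 1 (c / cs)) (by cases B <;> simp [h1]) hG.W ⟨?_, ?_⟩
  · by_contra g
    exact comb0 g1 (np_cons hG.g (not_lt.1 g) hl)
  · by_contra g
    exact comb0 g2 (np_cons (R_ra hG.Y1 hG.Y2) (not_lt.1 g) hl)

theorem utest_ok (h : utest sa sb sc P G n = true) (C : Ctx B sa sb sc al cs S) (hx : x.x3 = 1)
    {v : ℝ} (hP : PreR x P B big al S.γ S.ε)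
    (hG : GeoR x G (par B sb al S.γ S.ε c) c v (obv B S.ε c)) (h0 : 0 ≤ c) (h1 : c ≤ cs) :
    False := by
  have hob : obv B S.ε c ≤ 0 := by
    refine le_trans ?_ C.ob
    have := mul_le_mul_of_nonneg_right h1 (pow_pos S.hε 4).le
    cases B <;> simp only [obv, cond_true, cond_false] <;> linarith
  have hl : ∀ a ∈ [G.ob, xm, rn xm], NP x a := np_cons hG.ob hob
    (np_cons (R_xm x) (by linarith) (np_cons (R_rn (R_xm x)) (by linarith) np_nil))
  rcases br_ok h with ⟨-, g⟩ | ⟨-, g⟩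
  swap
  · exact comb0 g hl
  generalize fl n 317 511 = p1 at g
  generalize fl n 326 511 = p2 at g
  generalize fl n 335 16777215 = r at g
  generalize bt n 359 = f at g
  obtain ⟨A, g, rA⟩ := bndR g
  obtain ⟨g1, g⟩ := grd_ok g
  obtain ⟨g2, g⟩ := grd_ok g
  have hA := rA x _ (R_rs (R_sg f (R_ru R_rz _)) (R_ra (R_sg _ (R_rk hG.x1 p1)) (R_sg _ (R_rk hG.x2 p2))))
  have k1 := pos_ok g1 hA
  have k2 := pos_ok g2 (R_sg sc (R_rs (R_rn (R_ra (R_sg _ (R_rk hP.ep p1)) (R_sg _ (R_rk hP.ep p2)))) hA))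
  refine comb0 g (np_cons (R_rn (R_ru (R_ra (R_ra (R_rk hG.Y1 _) (R_sg sa (R_rk hG.Pi _)))
    (R_rk hG.Y2 _)) _)) ?_ hl)
  have hW := hG.W
  rw [C.sc_eq] at hW k1 k2 ⊢
  have t0 : 0 ≤ c / cs := div_nonneg h0 C.pos.le
  have t1 : c / cs ≤ 1 := by rwa [div_le_one C.pos]
  have u2 := C.u2
  have u12 := C.u12
  have hγ := C.hγ
  have qa := sv_sq sa
  have qb := sv_sq sb
  have qc := sv_sq sc
  have qf := sv_sq f
  have s2 : 0 < sv sb * sv sc * (S.u2 * S.γ) := by nlinarith [mul_pos u2 hγ]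
  have s1 : 0 < sv sa * (sv sb * sv sc) * (S.u1 * S.γ) := by
    have := mul_pos u12 s2
    have h2 := mul_self_pos.2 S.hu2
    by_contra hh
    nlinarith [mul_le_mul_of_nonneg_right (not_lt.1 hh) h2.le]
  simp only [sv_xor] at k1 k2
  have key := S.Utest t0 t1 (θ2 := cond B 1 (c / cs)) (by cases B <;> simp [t0])
    (by cases B <;> simp [t1]) hW (a1 := sv sa * (sv sb * sv sc) * p1) (a2 := sv sb * sv sc * p2)
    (by nlinarith [mul_nonneg s1.le (Nat.cast_nonneg (α := ℝ) p1)])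
    (by nlinarith [mul_nonneg s2.le (Nat.cast_nonneg (α := ℝ) p2)]) ?_ k1.le
  · rw [Par.Q] at key
    generalize S.sc (c / cs) (cond B 1 (c / cs)) = Q at *
    have e : ((Nat.shiftLeft r 14 : ℕ) : ℝ) = r * 2 ^ 14 := by
      rw [show Nat.shiftLeft r 14 = r * 2 ^ 14 from Nat.shiftLeft_eq r 14]; push_cast; ring
    rw [e] at key
    simp only [Nat.mul_eq]
    push_cast
    have e1 : (sv sa * (sv sb * sv sc) * p1) ^ 2 = p1 * p1 := by
      linear_combination (p1 ^ 2 * (sv sb * sv sb) * (sv sc * sv sc)) * qa +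
        (p1 ^ 2 * (sv sc * sv sc)) * qb + p1 ^ 2 * qc
    have e2 : (sv sb * sv sc * p2) ^ 2 = p2 * p2 := by
      linear_combination (p2 ^ 2 * (sv sc * sv sc)) * qb + p2 ^ 2 * qc
    have e3 : sv sa * (sv sb * sv sc) * p1 * (sv sb * sv sc * p2) = sv sa * (p1 * p2) := by
      linear_combination (sv sa * p1 * p2 * (sv sc * sv sc)) * qb + sv sa * p1 * p2 * qc
    have e4 : (sv f * (0 + r * 2 ^ 14 / 2 ^ 28) - (sv sa * (sv sb * sv sc) * (p1 * Q.x1) +
        sv sb * sv sc * (p2 * Q.x2)) + (sv sa * (sv sb * sv sc) * p1 * Q.x1 +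
        sv sb * sv sc * p2 * Q.x2)) ^ 2 = r * r / 2 ^ 28 := by
      linear_combination (r ^ 2 / 2 ^ 28) * qf
    rw [e1, e2, e3, e4] at key
    linarith
  · have := mul_pos k2 hγ
    nlinarith

theorem ords_ok {f : Bool} {y : ℕ} {k : TM → TM → Bool} (h : ords f G y k = true) :
    ∃ y1 y2, k y1 y2 = true ∧ ∀ x (Q : Par) c v ob, GeoR x G Q c v ob → ∃ a b, R x y1 a ∧ R x y2 b ∧
      a * b = Q.Pi ∧ (f = true → 0 < b ∧ b ^ 2 = Q.Y2) ∧ (f = false → 0 < a ∧ a ^ 2 = Q.Y1) := by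
  rcases br_ok h with ⟨hB, g⟩ | ⟨hB, g⟩ <;> subst hB
  · obtain ⟨r, h, r0⟩ := rsq_ok g
    obtain ⟨y2, h, r1⟩ := mRR_ok h
    obtain ⟨y1, h, r2⟩ := mRR_ok h
    refine ⟨_, _, h, fun x Q c v ob hG => ?_⟩
    obtain ⟨h1, t, h2, h3, h4⟩ := r0 x _ hG.Y2
    exact ⟨_, _, r2 x _ _ hG.Pi h4, r1 x _ _ hG.Y2 h4, by linear_combination Q.Pi * h3,
      fun _ => ⟨mul_pos h1 h2, by linear_combination Q.Y2 * h3⟩, by simp⟩
  · obtain ⟨r, h, r0⟩ := rsq_ok g
    obtain ⟨y1, h, r1⟩ := mRR_ok h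
    obtain ⟨y2, h, r2⟩ := mRR_ok h
    refine ⟨_, _, h, fun x Q c v ob hG => ?_⟩
    obtain ⟨h1, t, h2, h3, h4⟩ := r0 x _ hG.Y1
    exact ⟨_, _, r1 x _ _ hG.Y1 h4, r2 x _ _ hG.Pi h4, by linear_combination Q.Pi * h3,
      by simp, fun _ => ⟨mul_pos h1 h2, by linear_combination Q.Y1 * h3⟩⟩

theorem pq_ok {y1 y2 : TM} {k : TM → TM → TM → TM → Bool} (h : pq B P G y1 y2 k = true) :
    ∃ u1 nn py qy, k u1 nn py qy = true ∧ ∀ x big sa sb sc al c (S : Sol) ob a b,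
      Ctx B sa sb sc al c S → PreR x P B big al S.γ S.ε → GeoR x G S.toPar c (sv sb * c) ob →
      R x y1 a → R x y2 b → ∃ p q n, R x u1 S.u1 ∧ R x nn n ∧ R x py (p * b) ∧ R x qy (q * a) ∧
        p * S.u1 = n * S.ε ^ 4 ∧ q * S.u2 = n * S.ε ^ 4 ∧ n ≠ 0 ∧ 0 < p ∧ 0 < sv sa * q := by
  rcases br_ok h with ⟨hB, g⟩ | ⟨hB, g⟩ <;> subst hB
  · obtain ⟨t, h, r0⟩ := mRR_ok g
    obtain ⟨nn, h, r1⟩ := mRR_ok h
    obtain ⟨py, h, r2⟩ := mRR_ok h
    obtain ⟨qy, h, r3⟩ := mRR_ok h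
    refine ⟨_, _, _, _, h, fun x big sa sb sc al c S ob a b C hP hG ha hb => ?_⟩
    have e1 : S.u1 = -c := congrArg Par.u1 C.par
    have e2 : S.u2 = al := congrArg Par.u2 C.par
    obtain ⟨rfl, rfl, h3⟩ := C.hB rfl
    have hε := S.hε.ne'
    have hu := (R_rn hG.c).cg e1.symm
    refine ⟨S.u2, S.u1, _, hu, r1 x _ _ (r0 x _ _ hu hG.u2) hP.k1, r2 x _ _ hG.u2 hb,
      r3 x _ _ hu ha, ?_, ?_, ?_, by rwa [e2], by simpa [sv, e1] using C.pos⟩
    · simp only [cond_true]; field_simp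
    · simp only [cond_true]; field_simp
    · simp only [cond_true]
      exact mul_ne_zero (mul_ne_zero S.hu1 S.hu2) (by positivity)
  · obtain ⟨u1, h, r0⟩ := mRR_ok g
    obtain ⟨nn, h, r1⟩ := mRR_ok h
    obtain ⟨qy, h, r3⟩ := mRR_ok h
    refine ⟨_, _, _, _, h, fun x big sa sb sc al c S ob a b C hP hG ha hb => ?_⟩
    have e1 : S.u1 = al * (sv sb * c * S.ε ^ 4) := congrArg Par.u1 C.par
    have e2 : S.u2 = sv sb * c * S.ε ^ 4 := congrArg Par.u2 C.par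
    refine ⟨1, al, _, (r0 x _ _ hP.al hG.u2).cg (by rw [e1, e2]), r1 x _ _ hP.al hG.v,
      hb.cg (one_mul b).symm, r3 x _ _ hP.al ha, by rw [e1]; ring, by rw [e2]; ring, fun h0 => ?_,
      one_pos, C.hA rfl⟩
    exact S.hu1 (by rw [e1, ← mul_assoc, h0, zero_mul])

theorem cr3_ok {M : Ms} {l : List TM} {st m : ℕ} (h : cr3 P G M l st m = true) {v ob : ℝ}
    (hP : PreR x P B big al S.γ S.ε) (hG : GeoR x G S.toPar c v ob) (hM : MsR x M S.toVal)
    (hl : ∀ a ∈ l, NP x a) : False := by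
  obtain ⟨f1, f2, f3, f4, f5, f6, f7⟩ := S.facts
  rcases br_ok h with ⟨-, g⟩ | ⟨-, g⟩
  · exact comb0 g hl
  obtain ⟨K, g, rK⟩ := kst_ok g
  have hK := rK x _ _ _ _ _ _ S.toVal hP hG hM
  have l3 := np_cons (R_rn hK.E2) (by linarith) (np_cons hK.NW (by linarith) hl)
  rcases br_ok g with ⟨-, g⟩ | ⟨-, g⟩
  · exact comb0 g l3
  obtain ⟨X, g, rX⟩ := xst_ok g
  have hX := rX x _ _ _ _ _ _ S.toVal hP hG hM hK
  have l4 := np_cons (R_rn hX.E3) (by linarith) l3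
  rcases br_ok g with ⟨-, g⟩ | ⟨-, g⟩
  · exact comb0 g l4
  rcases br_ok g with ⟨-, g⟩ | ⟨-, g⟩
  · obtain ⟨t, g, rt⟩ := mRR_ok g
    exact comb0 g (np_cons (R_rs (R_rk hX.E3 6) (rt x _ _ hM.E1 hK.E2)) (by push_cast; linarith) l4)
  · obtain ⟨t, g, rt⟩ := est_ok g
    exact comb0 g (np_cons (R_rn (rt x _ hM hK hX)) (by linarith) l4)

theorem crit_ok (h : crit B sa P G n = true) (C : Ctx B sa sb sc al c S)
    (hP : PreR x P B big al S.γ S.ε) (hG : GeoR x G S.toPar c (sv sb * c) (obv B S.ε c)) :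
    False := by
  have hPi : sv sa * S.Pi ≤ 0 := by
    by_contra hh
    have h1 := mul_pos (not_le.1 hh) C.u12
    have h2 := S.Pi_sign
    nlinarith [sv_sq sa]
  have hl := np_cons hG.g S.g_eq.le (np_cons (R_sg sa hG.Pi) hPi (np_cons hG.ob C.ob
    (np_cons (R_rn hG.g) (by rw [S.g_eq]; simp) (np_cons (R_rn hG.Y2) (by rw [← S.hY2]; simp [sq_nonneg])
    (np_cons (R_rn hG.Y1) (by rw [← S.hY1]; simp [sq_nonneg]) np_nil)))))
  rcases br_ok h with ⟨-, g⟩ | ⟨-, g⟩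
  · exact comb0 g hl
  obtain ⟨y1, y2, g1, r1⟩ := ords_ok g
  obtain ⟨u1, nn, py, qy, g2, r2⟩ := pq_ok g1
  obtain ⟨M, g3, r3⟩ := mass_ok g2
  obtain ⟨a, b, ha, hb, hab, k1, k2⟩ := r1 x _ _ _ _ hG
  obtain ⟨p, q, nv, h1, h2, h3, h4, e1, e2, e3, e4, e5⟩ := r2 x _ _ _ _ _ _ S _ a b C hP hG ha hb
  clear g g1 g2 r1 r2 h
  generalize bt n 443 = f at r3 k1 k2
  have hN : (0 : ℝ) < (Nat.succ (fl n 468 4095) : ℕ) := by exact_mod_cast Nat.succ_pos _
  generalize Nat.succ (fl n 468 4095) = N at r3 hN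
  obtain ⟨S', hS⟩ := S.norm (c := sv (br f false (br sa false true)) * N) e1 e2 e3 hab
    (by cases f; exacts [Or.inl (k2 rfl).2, Or.inr (k1 rfl).2]) (by
      cases f
      · right
        have := mul_pos (mul_pos hN e5) (k2 rfl).1
        cases sa <;> simp only [br, sv] at this ⊢ <;> linarith
      · left
        have := mul_pos hN (mul_pos e4 (k1 rfl).1)
        simpa [br, sv] using this)
  have hp : S'.toPar = S.toPar := by rw [hS]
  have hM : MsR x M S'.toVal := by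
    rw [hS]
    exact r3 x B big al c _ _ _ nv _ _ hP hG ha hb h1 h2 h3 h4 rfl rfl rfl rfl
  rw [← hp] at hP hG
  refine cr3_ok g3 hP hG hM (np_cons (R_rs (R_rk hM.m1 11) (R_rk hM.si 10)) ?_
    (np_cons (R_rn hM.E1) (by linarith [S'.facts.1]) (np_cons (R_rn hM.m2) (by linarith [S'.p2])
    (np_cons (R_rn hM.m1) (by linarith [S'.p1]) hl))))
  have := S'.dom 0
  simp only [Val.mass, Matrix.cons_val_zero] at this
  push_cast
  linarith

theorem chain_cons {ψ : TM} {l : List ℕ} {acc : ℕ} {fst : Bool} :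
    chain B big sa sb sc P ψ (n :: l) acc fst =
      geo B big sb P (ra ψ (rv 3 acc (Nat.add acc (fl n 0 34359738367)))) n fun G =>
      grd (br fst (ltest G n) true)
        (grd (br (Nat.beq (fl n 0 34359738367) 0) true (crit B sa P G n))
          (br (bt n 35) (grd (comb [G.c, xm, rn xm] (fl n 256 1152921504606846975) rz)
            (utest sa sb sc P G n))
            (chain B big sa sb sc P ψ l (Nat.add acc (fl n 0 34359738367)) false))) := by
  unfold chain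
  rfl

theorem chain_ok {ψ : TM} {f : ℝ} (hb : B = true → big = true) (C : Ctx B sa sb sc al cs S)
    (hP : ∀ y hy, PreR (x.set3 y hy) P B big al S.γ S.ε) (hψ : ∀ y hy, R (x.set3 y hy) ψ f) :
    ∀ (l : List ℕ) (acc : ℕ) (fst : Bool), chain B big sa sb sc P ψ l acc fst = true →
      (fst = false → f + acc / 2 ^ 27 ≤ cs) → False := by
  intro l
  induction l with
  | nil => intro _ _ h; exact absurd h (by simp [chain])
  | cons n l ih =>
    intro acc fst h h0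
    rw [chain_cons] at h
    generalize fl n 0 34359738367 = th at h
    obtain ⟨G, h1, rG⟩ := geo_ok hb h
    have hG := fun y hy => rG _ _ _ _ _ S.hε (hP y hy)
      (R_ra (hψ y hy) (R_rv 3 (Nat.le_add_right acc th)))
    obtain ⟨g1, h2⟩ := grd_ok h1
    obtain ⟨g2, g3⟩ := grd_ok h2
    have lb : f + acc / 2 ^ 27 ≤ cs := by
      rcases br_ok g1 with ⟨-, g⟩ | ⟨e, -⟩
      · refine le_of_eq_of_le ?_ (ltest_ok g C rfl (hG (-1) (by simp)))
        simp only [vv, Pt.get, Pt.set3]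
        ring
      · exact h0 e
    have ub : f + (Nat.add acc th : ℕ) / 2 ^ 27 ≤ cs := by
      rcases br_ok g2 with ⟨e, -⟩ | ⟨-, g⟩
      · rw [Nat.eq_of_beq_eq_true e]; exact lb
      · by_contra hh
        obtain ⟨y, hy, e⟩ := exists_vv (lo := acc) (hi := acc + th) (t := cs - f) (by linarith)
          (by rw [← Nat.add_eq]; linarith)
        have k := hG y hy
        have e' : f + vv acc (Nat.add acc th) ((x.set3 y hy).get 3) = cs := by
          show f + vv acc (acc + th) y = cs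
          rw [e]; ring
        rw [e', ← C.par] at k
        exact crit_ok g C (hP y hy) k
    rcases br_ok g3 with ⟨-, g⟩ | ⟨-, g⟩
    · obtain ⟨g4, g5⟩ := grd_ok g
      have k := hG 1 (by simp)
      have e : f + vv acc (Nat.add acc th) ((x.set3 1 (by simp)).get 3) =
          f + (Nat.add acc th : ℕ) / 2 ^ 27 := by
        simp only [vv, Pt.get, Pt.set3, Nat.add_eq]
        ring
      rw [e] at k
      refine utest_ok g5 C rfl (hP 1 _) k ?_ ub
      by_contra hh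
      exact comb0 g4 (np_cons k.c (not_le.1 hh).le (np_cons (R_xm _) (by simp [Pt.set3])
        (np_cons (R_rn (R_xm _)) (by simp [Pt.set3]) np_nil)))
    · exact ih _ _ g fun _ => ub

/-- no counterexample in the box -/
def Good (B sa sb sc : Bool) (l0 h0 l1 h1 l2 h2 : ℕ) : Prop :=
  ∀ (S : Sol) (a0 a1 c : ℝ), Ctx B sa sb sc (sv (br B false sa) * a0) c S → S.γ = sv sc * a1 →
    l0 / 2 ^ 27 ≤ a0 → a0 ≤ h0 / 2 ^ 27 → l1 / 2 ^ 27 ≤ a1 → a1 ≤ h1 / 2 ^ 27 →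
    l2 / 2 ^ 27 ≤ S.ε → S.ε ≤ h2 / 2 ^ 27 → False

variable {l0 h0 l1 h1 l2 h2 : ℕ}

theorem le_of_box {l h : ℕ} {a : ℝ} (h1 : l / 2 ^ 27 ≤ a) (h2 : a ≤ h / 2 ^ 27) : l ≤ h := by
  have := h1.trans h2
  rwa [div_le_div_iff_of_pos_right (by positivity), Nat.cast_le] at this

theorem leaf_ok {h : ℕ} {l : List ℕ} (g : leaf B sa sb sc l0 h0 l1 h1 l2 h2 h l = true) :
    Good B sa sb sc l0 h0 l1 h1 l2 h2 := by
  intro S a0 a1 c C hγ b0 c0 b1 c1 b2 c2
  have hb : B = true → br B true (bt h 0) = true := by rintro rfl; rfl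
  obtain ⟨P, g, rP⟩ := mkPre_ok hb g
  obtain ⟨y0, k0, e0⟩ := exists_vv b0 c0
  obtain ⟨y1, k1, e1⟩ := exists_vv b1 c1
  obtain ⟨y2, k2, e2⟩ := exists_vv b2 c2
  let x : Pt := ⟨y0, y1, y2, 0, k0, k1, k2, by simp⟩
  have hP : ∀ y hy, PreR (x.set3 y hy) P B (br B true (bt h 0)) (sv (br B false sa) * a0) S.γ S.ε :=
    fun y hy => rP _ _ _ _ (R_sg _ ((R_rv (x := x.set3 y hy) 0 (le_of_box b0 c0)).cg e0))
      ((R_sg _ ((R_rv (x := x.set3 y hy) 1 (le_of_box b1 c1)).cg e1)).cg hγ.symm)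
      ((R_rv (x := x.set3 y hy) 2 (le_of_box b2 c2)).cg e2)
  rcases br_ok g with ⟨-, g⟩ | ⟨-, g⟩
  · obtain ⟨G, g, rG⟩ := geo_ok hb g
    exact utest_ok g C rfl (hP 1 (by simp)) (rG _ _ _ _ _ S.hε (hP 1 (by simp)) R_rz) le_rfl C.pos.le
  · obtain ⟨ψ, g, rψ⟩ := bndR g
    obtain ⟨f, hf⟩ := R_rpoly (mkψ h)
    exact chain_ok hb C hP (f := f y0 y1 y2) (fun y hy => rψ _ _ (hf _)) l 0 true g (by simp)

theorem good_a (m : ℕ) (p : Good B sa sb sc l0 m l1 h1 l2 h2) (q : Good B sa sb sc m h0 l1 h1 l2 h2) :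
    Good B sa sb sc l0 h0 l1 h1 l2 h2 := fun S a0 a1 c C e b0 c0 b1 c1 b2 c2 =>
  (le_total a0 (m / 2 ^ 27)).elim (fun t => p S a0 a1 c C e b0 t b1 c1 b2 c2)
    fun t => q S a0 a1 c C e t c0 b1 c1 b2 c2

theorem good_b (m : ℕ) (p : Good B sa sb sc l0 h0 l1 m l2 h2) (q : Good B sa sb sc l0 h0 m h1 l2 h2) :
    Good B sa sb sc l0 h0 l1 h1 l2 h2 := fun S a0 a1 c C e b0 c0 b1 c1 b2 c2 =>
  (le_total a1 (m / 2 ^ 27)).elim (fun t => p S a0 a1 c C e b0 c0 b1 t b2 c2)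
    fun t => q S a0 a1 c C e b0 c0 t c1 b2 c2

theorem good_c (m : ℕ) (p : Good B sa sb sc l0 h0 l1 h1 l2 m) (q : Good B sa sb sc l0 h0 l1 h1 m h2) :
    Good B sa sb sc l0 h0 l1 h1 l2 h2 := fun S a0 a1 c C e b0 c0 b1 c1 b2 c2 =>
  (le_total S.ε (m / 2 ^ 27)).elim (fun t => p S a0 a1 c C e b0 c0 b1 c1 b2 t)
    fun t => q S a0 a1 c C e b0 c0 b1 c1 t c2

theorem chk_ok (t : Tr) : ∀ {l0 h0 l1 h1 l2 h2 : ℕ}, chk B sa sb sc t l0 h0 l1 h1 l2 h2 = true →
    Good B sa sb sc l0 h0 l1 h1 l2 h2 := by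
  induction t with
  | l h l => exact fun g => leaf_ok g
  | a s t p q => exact fun g => good_a _ (p (grd_ok g).1) (q (grd_ok g).2)
  | b s t p q => exact fun g => good_b _ (p (grd_ok g).1) (q (grd_ok g).2)
  | c s t p q => exact fun g => good_c _ (p (grd_ok g).1) (q (grd_ok g).2)

theorem sv_abs (a : ℝ) : sv (decide (a < 0)) * |a| = a := by
  by_cases h : a < 0
  · simp [h, sv, abs_of_neg h]
  · simp [h, sv, abs_of_nonneg (not_lt.1 h)]

theorem no_sol (g1 : ∀ sa sb, Good false sa sb true 0 134217728 0 134217728 0 134217728)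
    (g2 : Good false false true false 0 134217728 0 134217728 134217728 268435456)
    (g3 : Good true true false false 0 134217728 0 134217728 134217728 268435456)
    (S : Sol) (h : S.toPar.Ord) : False := by
  obtain ⟨o1, o2, o⟩ := h
  have hε := S.hε
  have h2 := abs_pos.2 S.hu2
  have A : ∀ sc : Bool, 0 < sv sc * S.γ → Ctx false (decide (S.u1 / S.u2 < 0)) (decide (S.u2 < 0)) sc
      (sv (br false false (decide (S.u1 / S.u2 < 0))) * |S.u1 / S.u2|) (|S.u2| / S.ε ^ 4) S := by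
    intro sc hc
    have e : sv (decide (S.u2 < 0)) * (|S.u2| / S.ε ^ 4) * S.ε ^ 4 = S.u2 := by
      rw [mul_assoc, div_mul_cancel₀ _ (by positivity), sv_abs]
    refine ⟨?_, by positivity, ?_, hc, by simp, fun _ => ?_⟩
    · show S.toPar = ⟨sv (decide (S.u1 / S.u2 < 0)) * |S.u1 / S.u2| * _, _, _, _⟩
      rw [e, sv_abs, div_mul_cancel₀ _ S.hu2]
    · show |S.u2| / S.ε ^ 4 * S.ε ^ 4 - 1 ≤ 0
      rw [div_mul_cancel₀ _ (by positivity)]; linarith
    · show 0 < _ * (sv (decide (S.u1 / S.u2 < 0)) * _)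
      rw [← mul_assoc, sv_sq, one_mul]
      exact abs_pos.2 (div_ne_zero S.hu1 S.hu2)
  have d : |S.u1| ≤ |S.u2| → |S.u1 / S.u2| ≤ 1 := fun t => by rwa [abs_div, div_le_one h2]
  rcases o with ⟨a, b, c⟩ | ⟨a, b, c, e, ⟨f, g⟩ | ⟨f, g⟩⟩
  · refine g1 _ _ S _ |S.γ| _ (A true (by simpa [sv] using a)) (by simp [sv, abs_of_neg a])
      (by simp) ?_ (by simp) ?_ (by simpa using hε.le) ?_ <;> norm_num
    exacts [by simpa using d c, o1, b]
  · have k := A false (by simpa [sv] using a)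
    rw [decide_eq_false (not_lt.2 (div_pos_of_neg_of_neg e f).le), decide_eq_true f] at k
    refine g2 S _ |S.γ| _ k (by simp [sv, abs_of_pos a]) (by simp) ?_ (by simp) ?_ ?_ ?_ <;> norm_num
    exacts [by simpa using d g, o1, b, c]
  · refine g3 S S.u2 S.γ (-S.u1) ⟨?_, by linarith, ?_, by simpa [sv] using a,
      fun _ => ⟨rfl, rfl, by simpa [sv, br] using f⟩, by simp⟩ (by simp [sv]) (by simpa using f.le) ?_
      (by simpa using a.le) ?_ ?_ ?_
    · simp [par, sv, br]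
    · simp only [obv, cond_true]; linarith
    all_goals norm_num
    exacts [(abs_le.1 o2).2, (abs_le.1 o1).2, b, c]

end Pool.Agent.MP_4948b4_mp.N4
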