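import Pool.Agent.MP_4948b4_mp.N4.Base

/-! Distances and directions in coordinates. -/

namespace Pool.Agent.MP_4948b4_mp.N4

open Complex Finset ComplexConjugate

theorem geo_norm {z : ℂ} {w : ℝ} (hw : 0 < w) (h : z.re ^ 2 + z.im ^ 2 = cr w ^ 2) : ‖z‖ = cr w := by
  refine (pow_left_inj₀ (norm_nonneg _) (cr_pos hw).le two_ne_zero).1 ?_
  rw [← h, Complex.sq_norm, normSq_apply]
  ring

theorem geo_w {p : Fin 4 → ℂ} {i j : Fin 4} {w : ℝ} (hw : 0 < w) (h : ‖p j - p i‖ = cr w) :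
    wc p i j = w := by
  rw [wc, h]
  exact (eq_inv_of_mul_eq_one_right (cr_cube hw)).symm

theorem geo_e {p : Fin 4 → ℂ} {i j : Fin 4} {w : ℝ} (hw : 0 < w) (h : ‖p j - p i‖ = cr w) :
    (wc p i j : ℂ) * ec p i j = (w * (w * cr w) : ℝ) * (p i - p j) ^ 2 := by
  rw [geo_w hw h, ec, h]
  have h1 : (cr w : ℂ) ^ 3 * w = 1 := by exact_mod_cast cr_cube hw
  have h2 : (cr w : ℂ) ≠ 0 := by exact_mod_cast (cr_pos hw).ne'
  push_cast
  field_simp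
  linear_combination (-(w : ℂ) * (p j - p i) ^ 2) * h1

namespace Sol

variable (S : Sol)

theorem geo_x1 : 2 * S.ε * S.x1 = S.ε ^ 2 - (S.r14 ^ 2 - S.r13 ^ 2) := by
  have := S.hε.ne'
  unfold Par.x1
  field_simp

theorem geo_x2 : 2 * S.ε * S.x2 = S.ε ^ 2 - (S.r24 ^ 2 - S.r23 ^ 2) := by
  have := S.hε.ne'
  unfold Par.x2
  field_simp

theorem geo_n01 : ‖S.pts 1 - S.pts 0‖ = cr (1 - S.S12) := geo_norm S.hW.1 (by
  have h1 := S.hY1
  have h2 := S.hY2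
  have h3 := S.hPi
  simp only [Par.Y1, Par.Y2, Par.Pi] at h1 h2 h3
  change _ = S.r12 ^ 2
  simp [Val.pts, Val.q1, Val.q2]
  linear_combination h1 + h2 - 2 * h3)

theorem geo_n02 : ‖S.pts 2 - S.pts 0‖ = cr (1 - S.S13) := geo_norm S.hW.2.1 (by
  have h1 := S.hY1
  simp only [Par.Y1] at h1
  change _ = S.r13 ^ 2
  simp [Val.pts, Val.q1]
  linear_combination h1)

theorem geo_n03 : ‖S.pts 3 - S.pts 0‖ = cr (1 - S.S14) := geo_norm S.hW.2.2.1 (by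
  have h1 := S.hY1
  simp only [Par.Y1] at h1
  change _ = S.r14 ^ 2
  simp [Val.pts, Val.q1]
  linear_combination h1 - S.geo_x1)

theorem geo_n12 : ‖S.pts 2 - S.pts 1‖ = cr (1 - S.S23) := geo_norm S.hW.2.2.2.1 (by
  have h1 := S.hY2
  simp only [Par.Y2] at h1
  change _ = S.r23 ^ 2
  simp [Val.pts, Val.q2]
  linear_combination h1)

theorem geo_n13 : ‖S.pts 3 - S.pts 1‖ = cr (1 - S.S24) := geo_norm S.hW.2.2.2.2 (by
  have h1 := S.hY2
  simp only [Par.Y2] at h1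
  change _ = S.r24 ^ 2
  simp [Val.pts, Val.q2]
  linear_combination h1 - S.geo_x2)

theorem geo_n23 : ‖S.pts 3 - S.pts 2‖ = S.ε := by
  simp [Val.pts, S.hε.le]

theorem geo_E : S.ε ^ 3 - 1 = S.ε ^ 3 * S.E := by
  have := S.hε.ne'
  unfold Par.E
  field_simp

theorem w01 : wc S.pts 0 1 = 1 - S.S12 := geo_w S.hW.1 S.geo_n01
theorem w02 : wc S.pts 0 2 = 1 - S.S13 := geo_w S.hW.2.1 S.geo_n02
theorem w03 : wc S.pts 0 3 = 1 - S.S14 := geo_w S.hW.2.2.1 S.geo_n03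
theorem w12 : wc S.pts 1 2 = 1 - S.S23 := geo_w S.hW.2.2.2.1 S.geo_n12
theorem w13 : wc S.pts 1 3 = 1 - S.S24 := geo_w S.hW.2.2.2.2 S.geo_n13
theorem w23 : wc S.pts 2 3 = 1 / S.ε ^ 3 := by rw [wc, S.geo_n23, one_div]
theorem e02 : (wc S.pts 0 2 : ℂ) * ec S.pts 0 2 = S.U13 := by
  rw [geo_e S.hW.2.1 S.geo_n02]
  exact congrArg (_ * · ^ 2) (sub_zero _)
theorem e03 : (wc S.pts 0 3 : ℂ) * ec S.pts 0 3 = S.U14 := geo_e S.hW.2.2.1 S.geo_n03
theorem e12 : (wc S.pts 1 2 : ℂ) * ec S.pts 1 2 = S.U23 := by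
  rw [geo_e S.hW.2.2.2.1 S.geo_n12]
  exact congrArg (_ * · ^ 2) (sub_zero _)
theorem e13 : (wc S.pts 1 3 : ℂ) * ec S.pts 1 3 = S.U24 := geo_e S.hW.2.2.2.2 S.geo_n13
theorem e23 : ec S.pts 2 3 = 1 := by
  have : (S.ε : ℂ) ≠ 0 := by exact_mod_cast S.hε.ne'
  rw [ec, S.geo_n23]
  simp [Val.pts, this]
theorem ze_mul : S.ze * (S.q2 - S.q1) = 1 := by
  have h : ‖S.q2 - S.q1‖ = S.r12 := S.geo_n01
  have h1 : (S.r12 : ℂ) ^ 3 * (1 - S.S12 : ℝ) = 1 := by exact_mod_cast cr_cube S.hW.1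
  rw [Val.ze, mul_assoc, conj_mul', h, ofReal_mul]
  linear_combination h1
theorem si_pos : 0 < S.si := by
  have := S.p1
  have := S.p2
  have := S.p3
  have := S.p4
  have := S.hε
  unfold Val.si Val.m3 Val.m4
  positivity
theorem sum_mass : ∑ j, S.mass j = S.si := by
  simp [Fin.sum_univ_four, Val.mass, Val.si]
theorem lq : (S.m1 * S.u1 : ℂ) * S.q1 + (S.m2 * S.u2 : ℂ) * S.q2 + S.ε ^ 4 * S.n4 = 0 := by
  have h1 : (S.m1 * S.u1 * S.x1 + S.m2 * S.u2 * S.x2 + S.ε ^ 4 * S.n4 : ℂ) = 0 := by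
    exact_mod_cast S.lx
  have h2 : (S.m1 * S.u1 * S.y1 + S.m2 * S.u2 * S.y2 : ℂ) = 0 := by exact_mod_cast S.ly
  unfold Val.q1 Val.q2
  linear_combination h1 + I * h2
theorem geo_l0 : (S.m1 * S.u1 + S.m2 * S.u2 + S.ε ^ 3 * S.n3 + S.ε ^ 3 * S.n4 : ℂ) = 0 := by
  exact_mod_cast S.l0
theorem ccn : CCn S.mass S.pts := by
  have h0 := S.geo_l0
  have h1 := S.lq
  have w23' : wc S.pts 2 3 = 1 - S.E := by rw [S.w23, Par.E, sub_sub_cancel]
  have key : ∀ i : Fin 4, i = 0 ∨ i = 1 ∨ i = 2 ∨ i = 3 := by decide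
  intro i
  rw [Fin.sum_univ_four]
  rcases key i with rfl | rfl | rfl | rfl
  · rw [sub_self, mul_zero, S.w01, S.w02, S.w03]
    simp only [Val.mass, Val.pts, Val.m3, Val.m4, Par.S12, Par.S13, Par.S14, Matrix.cons_val]
    push_cast
    linear_combination (S.γ * S.u1 * S.E : ℂ) * (h1 - S.q1 * h0)
  · rw [sub_self, mul_zero, wc_symm _ 0 1, S.w01, S.w12, S.w13]
    simp only [Val.mass, Val.pts, Val.m3, Val.m4, Par.S12, Par.S13, Par.S14, Par.S23, Par.S24,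
      Matrix.cons_val]
    push_cast
    linear_combination (S.γ * S.u2 * S.E : ℂ) * (h1 - S.q2 * h0)
  · rw [sub_self, mul_zero, wc_symm _ 0 2, wc_symm _ 1 2, S.w02, S.w12, w23']
    simp only [Val.mass, Val.pts, Val.m4, Par.S13, Par.S14, Par.S23, Par.S24, Matrix.cons_val]
    push_cast
    linear_combination (S.γ * S.E : ℂ) * h1
  · rw [sub_self, mul_zero, wc_symm _ 0 3, wc_symm _ 1 3, wc_symm _ 2 3, S.w03, S.w13, w23']
    simp only [Val.mass, Val.pts, Val.m3, Par.S14, Par.S24, Matrix.cons_val]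
    push_cast
    linear_combination (S.E : ℂ) * (h1 - S.ε * h0)
theorem tr : (S.n3 : ℂ) * S.c3 + S.n4 * S.c4 = S.T := by
  simp only [Val.c3, Val.c4, Val.T, Val.xi4, Val.xi3, S.geo_E, Par.S13, Par.S14, Par.S23, Par.S24]
  push_cast
  linear_combination (S.E * S.γ * (-S.u1 + (S.u2 - S.u1) * S.ze * S.q1) : ℂ) * S.geo_l0 -
    (S.E * S.γ * (S.u2 - S.u1) * S.ze : ℂ) * S.lq +
    (S.E * S.γ * (S.u2 - S.u1) * S.m2 * S.u2 : ℂ) * S.ze_mul
theorem T_nonneg : 0 ≤ S.T := by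
  have h1 := S.hE
  have h2 : 0 < S.E * S.n4 := by
    have := mul_pos h1 S.p4
    by_contra hc
    nlinarith [mul_self_nonneg S.γ, not_lt.1 hc]
  have e : S.T = S.ε ^ 3 * (S.E * S.n4) + S.ε ^ 3 * S.n3 * (S.γ * S.E) +
      S.m2 * S.u2 ^ 2 * (S.γ * S.E) + S.m1 * S.u1 ^ 2 * (S.γ * S.E) := by
    simp only [Val.T, S.geo_E, Par.S13, Par.S14, Par.S23, Par.S24]
    ring
  have := S.p1
  have := S.p2
  have := S.p3
  have := S.hε
  rw [e]
  positivity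

end Sol

end Pool.Agent.MP_4948b4_mp.N4
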