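import Pool.Agent.MP_4948b4_mp.N4.Base

/-! Symmetries of the normalised problem, and the reduction of the statement to it. -/

namespace Pool.Agent.MP_4948b4_mp.N4

open Complex Finset ComplexConjugate

variable {μ : Fin 4 → ℝ} {p : Fin 4 → ℂ} {σ : ℝ}

theorem sym_wc {u : ℂ} (hu : ‖u‖ = 1) (v : ℂ) (i j : Fin 4) :
    wc (fun i => u * p i + v) i j = wc p i j := by
  unfold wc
  rw [add_sub_add_right_eq_sub, ← mul_sub, norm_mul, hu, one_mul]

theorem sym_ec {u : ℂ} (hu : ‖u‖ = 1) (v : ℂ) (i j : Fin 4) :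
    ec (fun i => u * p i + v) i j = u ^ 2 * ec p i j := by
  unfold ec
  rw [add_sub_add_right_eq_sub, ← mul_sub, norm_mul, hu, one_mul, mul_div_assoc, mul_pow]

theorem sym_wc_conj (i j : Fin 4) : wc (fun i => conj (p i)) i j = wc p i j := by
  unfold wc
  rw [← map_sub, norm_conj]

theorem sym_ec_conj (i j : Fin 4) : ec (fun i => conj (p i)) i j = conj (ec p i j) := by
  unfold ec
  rw [← map_sub, norm_conj, map_pow, map_div₀, conj_ofReal]

theorem sym_wc_scale {t : ℝ} (ht : 0 < t) (i j : Fin 4) :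
    wc (fun i => (t : ℂ) * p i) i j = (t ^ 3)⁻¹ * wc p i j := by
  unfold wc
  rw [← mul_sub, norm_mul, norm_real, Real.norm_of_nonneg ht.le, mul_pow, mul_inv]

theorem sym_ec_scale {t : ℝ} (ht : 0 < t) (i j : Fin 4) :
    ec (fun i => (t : ℂ) * p i) i j = ec p i j := by
  have h0 : (t : ℂ) ≠ 0 := ofReal_ne_zero.2 ht.ne'
  unfold ec
  rw [← mul_sub, norm_mul, norm_real, Real.norm_of_nonneg ht.le, ofReal_mul, mul_div_mul_left _ _ h0]

theorem Stab.perm (h : Stab μ p σ) (e : Equiv.Perm (Fin 4)) : Stab (μ ∘ e) (p ∘ e) σ := by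
  intro s a b hab ⟨h1, h2⟩
  have hM : ∑ j, μ j = ∑ j, (μ ∘ e) j := (Equiv.sum_comp e μ).symm
  refine h s (a ∘ e.symm) (b ∘ e.symm) (fun h0 => hab ⟨?_, ?_⟩) ⟨fun i => ?_, fun i => ?_⟩
  · funext i
    simpa using congrFun h0.1 (e i)
  · funext i
    simpa using congrFun h0.2 (e i)
  · obtain ⟨i, rfl⟩ := e.surjective i
    rw [hM, ← Equiv.sum_comp e (fun j => ((μ j * wc p (e i) j : ℝ) : ℂ) * _)]
    simp only [Function.comp_apply, Equiv.symm_apply_apply]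
    exact h1 i
  · obtain ⟨i, rfl⟩ := e.surjective i
    rw [hM, ← Equiv.sum_comp e (fun j => ((μ j * wc p (e i) j : ℝ) : ℂ) * _)]
    simp only [Function.comp_apply, Equiv.symm_apply_apply]
    exact h2 i

theorem Stab.sim (h : Stab μ p σ) {u : ℂ} (hu : ‖u‖ = 1) (v : ℂ) :
    Stab μ (fun i => u * p i + v) σ := by
  intro s a b hab ⟨h1, h2⟩
  have hu0 : u ≠ 0 := norm_ne_zero_iff.1 (by rw [hu]; exact one_ne_zero)
  have hu1 : u * conj u = 1 := by rw [mul_conj', hu]; simp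
  refine h s a (fun i => u ^ 2 * b i) (fun h0 => hab ⟨h0.1, funext fun i => ?_⟩)
    ⟨fun i => ?_, fun i => ?_⟩
  · exact (mul_eq_zero.1 (congrFun h0.2 i)).resolve_left (pow_ne_zero 2 hu0)
  · rw [← h1 i]
    refine congrArg _ (sum_congr rfl fun j _ => ?_)
    rw [sym_wc hu, sym_ec hu]
    ring
  · have h3 := congrArg (u ^ 2 * ·) (h2 i)
    simp only [mul_zero, mul_add (u ^ 2), mul_sum] at h3
    rw [← h3]
    refine congrArg₂ _ (by ring) (sum_congr rfl fun j _ => ?_)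
    rw [sym_wc hu, sym_ec hu, map_mul, map_pow]
    linear_combination (-((μ j * wc p i j : ℝ) : ℂ) * (3 / 2 * conj (ec p i j) * (a i - a j)) *
      (u * conj u + 1)) * hu1

theorem Stab.refl (h : Stab μ p σ) : Stab μ (fun i => conj (p i)) (-σ) := by
  intro s a b hab ⟨h1, h2⟩
  have := h (-s) b a (fun h0 => hab ⟨h0.2, h0.1⟩) ⟨fun i => ?_, fun i => ?_⟩
  · rwa [neg_im, mul_neg, ← neg_mul] at this
  · rw [← h2 i]
    refine congrArg₂ _ (by ring) (sum_congr rfl fun j _ => ?_)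
    rw [sym_wc_conj, sym_ec_conj, conj_conj]
  · rw [← h1 i]
    refine congrArg₂ _ (by ring) (sum_congr rfl fun j _ => ?_)
    rw [sym_wc_conj, sym_ec_conj]

theorem Stab.scale (h : Stab μ p σ) {c : ℝ} (hc : 0 < c) : Stab (fun i => c * μ i) p σ := by
  intro s a b hab ⟨h1, h2⟩
  have h0 : (c : ℂ) ≠ 0 := ofReal_ne_zero.2 hc.ne'
  refine h s a b hab ⟨fun i => mul_left_cancel₀ h0 ?_, fun i => mul_left_cancel₀ h0 ?_⟩
  · rw [mul_zero, ← h1 i, ← mul_sum, mul_add (c : ℂ), mul_sum univ _ (c : ℂ)]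
    refine congrArg₂ _ (by push_cast; ring) (sum_congr rfl fun j _ => ?_)
    push_cast
    ring
  · rw [mul_zero, ← h2 i, ← mul_sum, mul_add (c : ℂ), mul_sum univ _ (c : ℂ)]
    refine congrArg₂ _ (by push_cast; ring) (sum_congr rfl fun j _ => ?_)
    push_cast
    ring

theorem Cfg.perm (C : Cfg) (e : Equiv.Perm (Fin 4)) :
    ∃ C' : Cfg, C'.μ = C.μ ∘ e ∧ C'.p = C.p ∘ e := by
  refine ⟨⟨C.μ ∘ e, C.p ∘ e, C.σ, fun i => C.pos (e i), C.inj.comp e.injective, fun i => ?_, C.hσ,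
    C.st.perm e, fun i => ?_⟩, rfl, rfl⟩
  · rw [← C.cc (e i), ← Equiv.sum_comp e (fun j => ((C.μ j * (1 - wc C.p (e i) j) : ℝ) : ℂ) * _)]
    rfl
  · have := C.dom (e i)
    rw [← Equiv.sum_comp e C.μ] at this
    exact this

theorem Cfg.sim (C : Cfg) {u : ℂ} (hu : ‖u‖ = 1) (v : ℂ) :
    ∃ C' : Cfg, C'.μ = C.μ ∧ C'.p = fun i => u * C.p i + v := by
  have hu0 : u ≠ 0 := norm_ne_zero_iff.1 (by rw [hu]; exact one_ne_zero)
  refine ⟨⟨C.μ, fun i => u * C.p i + v, C.σ, C.pos,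
    fun i j hij => C.inj (mul_left_cancel₀ hu0 (add_right_cancel hij)), fun i => ?_, C.hσ,
    C.st.sim hu v, C.dom⟩, rfl, rfl⟩
  rw [← mul_zero u, ← C.cc i, mul_sum]
  refine sum_congr rfl fun j _ => ?_
  rw [sym_wc hu]
  ring

/-- the third point at the origin, the fourth on the positive real axis -/
theorem exists_sim (hp : Function.Injective p) :
    ∃ (u v : ℂ) (ε : ℝ), ‖u‖ = 1 ∧ 0 < ε ∧ u * p 2 + v = 0 ∧ u * p 3 + v = ε := by
  have hd : p 3 - p 2 ≠ 0 := sub_ne_zero.2 (hp.ne (by decide))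
  have hn : 0 < ‖p 3 - p 2‖ := norm_pos_iff.2 hd
  refine ⟨(‖p 3 - p 2‖ : ℝ) / (p 3 - p 2), -((‖p 3 - p 2‖ : ℝ) / (p 3 - p 2) * p 2), ‖p 3 - p 2‖,
    ?_, hn, add_neg_cancel _, ?_⟩
  · rw [norm_div, norm_real, norm_norm, div_self hn.ne']
  · rw [← sub_eq_add_neg, ← mul_sub, div_mul_cancel₀ _ hd]

theorem wc_sim {u : ℂ} (hu : ‖u‖ = 1) (v : ℂ) (i j : Fin 4) :
    wc (fun i => u * p i + v) i j = wc p i j := sym_wc hu v i j

theorem sym_omega {m : Fin 4 → ℝ} (hm : ∀ i, 0 < m i) {ω : ℝ} {q : Fin 4 → ℂ}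
    (hq : Function.Injective q) (h : rotField m ω (q, 0) = 0) : ω ≠ 0 := by
  rintro rfl
  have h1 := virial (cc_of_zero h)
  have h2 : 0 < ∑ i, m i * ∑ j, m j * ‖q j - q i‖⁻¹ := by
    refine sum_pos' (fun i _ => mul_nonneg (hm i).le (sum_nonneg fun j _ =>
      mul_nonneg (hm j).le (inv_nonneg.2 (norm_nonneg _)))) ⟨0, mem_univ _, mul_pos (hm 0) ?_⟩
    refine sum_pos' (fun j _ => mul_nonneg (hm j).le (inv_nonneg.2 (norm_nonneg _)))
      ⟨1, mem_univ _, mul_pos (hm 1) (inv_pos.2 (norm_pos_iff.2 ?_))⟩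
    exact sub_ne_zero.2 (hq.ne (by decide))
  rw [← h1] at h2
  simp at h2

theorem sym_centre {m : Fin 4 → ℝ} {ω : ℝ} (hω : ω ≠ 0) {q : Fin 4 → ℂ}
    (h : rotField m ω (q, 0) = 0) : ∑ i, (m i : ℂ) * q i = 0 := by
  have h1 := sum_antisymm (fun i j => (m i : ℂ) * (((m j * wc q i j : ℝ) : ℂ) * (q j - q i)))
    fun i j => by
      rw [wc_symm q i j]
      push_cast
      ring
  have h2 : ∑ i, (m i : ℂ) * ((ω : ℂ) ^ 2 * q i +
      ∑ j, ((m j * wc q i j : ℝ) : ℂ) * (q j - q i)) = 0 :=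
    sum_eq_zero fun i _ => by rw [cc_of_zero h i, mul_zero]
  simp only [mul_add, sum_add_distrib, mul_sum] at h2
  rw [h1, add_zero] at h2
  refine mul_left_cancel₀ (pow_ne_zero 2 (ofReal_ne_zero.2 hω)) ?_
  rw [mul_zero, ← h2, mul_sum]
  exact sum_congr rfl fun i _ => by ring

theorem top (no : Cfg → False) (m : Fin 4 → ℝ) (hm : ∀ i, 0 < m i) (ω : ℝ) (q : Fin 4 → ℂ)
    (hq : Function.Injective q) (h : rotField m ω (q, 0) = 0)
    (hd : ∀ i, m i ≤ 10 * (∑ j, m j - m i)) :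
    ∃ (α β : ℝ) (u w : (Fin 4 → ℂ) × (Fin 4 → ℂ)), 0 < α ∧
      fderiv ℝ (rotField m ω) (q, 0) u = α • u - β • w ∧
      fderiv ℝ (rotField m ω) (q, 0) w = β • u + α • w ∧
      Tangent m ω q u ∧ Tangent m ω q w ∧
      ¬ (u ∈ Submodule.span ℝ {((fun i => Complex.I * q i), 0)} ∧
        w ∈ Submodule.span ℝ {((fun i => Complex.I * q i), 0)}) := by
  by_contra hcon
  have hω := sym_omega hm hq h
  have hc := sym_centre hω h
  have hM : 0 < ∑ j, m j := sum_pos (fun j _ => hm j) univ_nonempty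
  have hω2 : 0 < ω ^ 2 := by positivity
  obtain ⟨t, ht, ht3⟩ : ∃ t : ℝ, 0 < t ∧ (t ^ 3)⁻¹ * ω ^ 2 = ∑ j, m j := by
    refine ⟨cr ((∑ j, m j) / ω ^ 2), cr_pos (div_pos hM hω2), ?_⟩
    rw [inv_eq_of_mul_eq_one_right (cr_cube (div_pos hM hω2)), div_mul_cancel₀ _ hω2.ne']
  have ht0 : (t : ℂ) ≠ 0 := ofReal_ne_zero.2 ht.ne'
  obtain ⟨k, hk⟩ : ∃ k : ℝ, (t ^ 3)⁻¹ = k := ⟨_, rfl⟩
  have hk0 : (k : ℂ) ≠ 0 := ofReal_ne_zero.2 (by rw [← hk]; positivity)
  have hkM : ((∑ j, m j : ℝ) : ℂ) = k * (ω : ℂ) ^ 2 := by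
    rw [← ht3, hk]
    push_cast
    rfl
  refine no ⟨m, fun i => (t : ℂ) * q i, ω, hm, fun i j hij => hq (mul_left_cancel₀ ht0 hij),
    fun i => ?_, hω, fun s a b hab ⟨h1, h2⟩ => ?_, fun i => by linarith [hd i]⟩
  · have h1 := cc_of_zero h i
    have h2 : ∑ j, ((m j * (1 - wc (fun i => (t : ℂ) * q i) i j) : ℝ) : ℂ) * (t * q j - t * q i) =
        t * (∑ j, (m j : ℂ) * q j - ((∑ j, m j : ℝ) : ℂ) * q i -
          k * ∑ j, ((m j * wc q i j : ℝ) : ℂ) * (q j - q i)) := by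
      rw [ofReal_sum, sum_mul, mul_sum, ← sum_sub_distrib, ← sum_sub_distrib, mul_sum]
      refine sum_congr rfl fun j _ => ?_
      rw [sym_wc_scale ht, hk]
      push_cast
      ring
    rw [h2, hc, hkM]
    linear_combination (-(t : ℂ) * k) * h1
  · by_contra hs
    refine hcon (unstable_of_eigen hq h (l := I * ω * s) ?_ hab (fun i => ?_) (fun i => ?_))
    · simp only [mul_re, mul_im, I_re, I_im, ofReal_re, ofReal_im]
      linarith
    · have h3 : ∑ j, ((m j * wc (fun i => (t : ℂ) * q i) i j : ℝ) : ℂ) *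
          (1 / 2 * (a i - a j) + 3 / 2 * ec (fun i => (t : ℂ) * q i) i j * (b i - b j)) =
          k * ∑ j, ((m j * wc q i j : ℝ) : ℂ) *
            (1 / 2 * (a i - a j) + 3 / 2 * ec q i j * (b i - b j)) := by
        rw [mul_sum]
        refine sum_congr rfl fun j _ => ?_
        rw [sym_wc_scale ht, sym_ec_scale ht, hk]
        push_cast
        ring
      have h4 := h1 i
      rw [h3, hkM] at h4
      refine mul_left_cancel₀ hk0 ?_
      unfold opA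
      linear_combination h4 - k * (ω : ℂ) ^ 2 * (s ^ 2 + 2 * s) * a i * I_sq
    · have h3 : ∑ j, ((m j * wc (fun i => (t : ℂ) * q i) i j : ℝ) : ℂ) *
          (1 / 2 * (b i - b j) + 3 / 2 * conj (ec (fun i => (t : ℂ) * q i) i j) * (a i - a j)) =
          k * ∑ j, ((m j * wc q i j : ℝ) : ℂ) *
            (1 / 2 * (b i - b j) + 3 / 2 * conj (ec q i j) * (a i - a j)) := by
        rw [mul_sum]
        refine sum_congr rfl fun j _ => ?_
        rw [sym_wc_scale ht, sym_ec_scale ht, hk]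
        push_cast
        ring
      have h4 := h2 i
      rw [h3, hkM] at h4
      refine mul_left_cancel₀ hk0 ?_
      unfold opA
      linear_combination h4 - k * (ω : ℂ) ^ 2 * (s ^ 2 - 2 * s) * b i * I_sq

end Pool.Agent.MP_4948b4_mp.N4
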