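import Pool.Agent.MP_4948b4_mp.N4.Sym
import Pool.Agent.MP_4948b4_mp.N4.Col
import Pool.Agent.MP_4948b4_mp.N4.Dz

/-! From a counterexample to coordinates with ordered Dziobek numbers. -/

namespace Pool.Agent.MP_4948b4_mp.N4

open Complex Finset ComplexConjugate

theorem Dz.perm (D : Dz) (e : Equiv.Perm (Fin 4)) : ∃ D' : Dz, D'.t = D.t ∘ e := by
  obtain ⟨C, h1, h2⟩ := D.toCfg.perm e
  refine ⟨⟨C, D.t ∘ e, fun i j hij => ?_, ?_, ?_, fun i => D.ht _⟩, rfl⟩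
  · rw [h2]
    exact D.hS (e i) (e j) (e.injective.ne hij)
  · rw [h1]
    exact (Equiv.sum_comp e fun i => D.μ i * D.t i).trans D.h0
  · rw [h1, h2]
    exact (Equiv.sum_comp e fun i => ((D.μ i * D.t i : ℝ) : ℂ) * D.p i).trans D.h1

theorem Dz.std (D : Dz) :
    ∃ (D' : Dz) (ε : ℝ), D'.t = D.t ∧ 0 < ε ∧ D'.p 2 = 0 ∧ D'.p 3 = ε := by
  obtain ⟨u, v, ε, hu, hε, a2, a3⟩ := exists_sim D.inj
  obtain ⟨C, h1, h2⟩ := D.toCfg.sim hu v
  refine ⟨⟨C, D.t, fun i j hij => ?_, ?_, ?_, D.ht⟩, ε, rfl, hε, ?_, ?_⟩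
  · rw [h2, wc_sim hu]
    exact D.hS i j hij
  · rw [h1]
    exact D.h0
  · rw [h1, h2]
    have b0 : ∑ i, ((D.μ i * D.t i : ℝ) : ℂ) = 0 := by
      rw [← ofReal_sum, D.h0, ofReal_zero]
    have b1 := D.h1
    simp only [Fin.sum_univ_four] at b0 b1 ⊢
    linear_combination u * b1 + v * b0
  · exact (congrFun h2 2).trans a2
  · exact (congrFun h2 3).trans a3

theorem wlog_cr (D : Dz) {i j : Fin 4} (h : i ≠ j) {s : ℝ} (hs : s = D.t i * D.t j) :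
    0 < 1 - s ∧ cr (1 - s) ^ 2 =
      ((D.p j).re - (D.p i).re) ^ 2 + ((D.p j).im - (D.p i).im) ^ 2 := by
  have h0 : 0 < ‖D.p j - D.p i‖ := norm_pos_iff.2 (sub_ne_zero.2 (D.inj.ne h.symm))
  have h1 : 1 - s = (‖D.p j - D.p i‖ ^ 3)⁻¹ := by
    rw [hs, ← D.hS i j h, sub_sub_cancel, wc]
  rw [h1, cr_eq h0 (mul_inv_cancel₀ (pow_pos h0 3).ne'), Complex.sq_norm, normSq_apply, sub_re,
    sub_im]
  exact ⟨by positivity, by ring⟩

theorem Dz.sol (D : Dz) {ε : ℝ} (hε : 0 < ε) (h2 : D.p 2 = 0) (h3 : D.p 3 = ε) :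
    ∃ S : Sol, S.u1 = D.t 0 / D.t 2 ∧ S.u2 = D.t 1 / D.t 2 ∧ S.γ = D.t 2 / D.t 3 ∧ S.ε = ε := by
  have t0 := D.ht 0
  have t1 := D.ht 1
  have t2 := D.ht 2
  have t3 := D.ht 3
  have m0 := D.pos 0
  have m1 := D.pos 1
  have m2 := D.pos 2
  have m3 := D.pos 3
  have hε' := hε.ne'
  obtain ⟨P, hP⟩ : ∃ P : Par, P = ⟨D.t 0 / D.t 2, D.t 1 / D.t 2, D.t 2 / D.t 3, ε⟩ := ⟨_, rfl⟩
  have pu1 : P.u1 = D.t 0 / D.t 2 := by rw [hP]
  have pu2 : P.u2 = D.t 1 / D.t 2 := by rw [hP]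
  have pγ : P.γ = D.t 2 / D.t 3 := by rw [hP]
  have pε : P.ε = ε := by rw [hP]
  have hE : P.E = D.t 2 * D.t 3 := by
    rw [← D.hS 2 3 (by decide), Par.E, pε, wc, h2, h3, sub_zero, norm_real, Real.norm_eq_abs,
      abs_of_pos hε, one_div]
  have s24 : P.S24 = D.t 1 * D.t 3 := by rw [Par.S24, hE, pu2]; field_simp
  have s14 : P.S14 = D.t 0 * D.t 3 := by rw [Par.S14, hE, pu1]; field_simp
  have s23 : P.S23 = D.t 1 * D.t 2 := by rw [Par.S23, s24, pγ]; field_simp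
  have s13 : P.S13 = D.t 0 * D.t 2 := by rw [Par.S13, s14, pγ]; field_simp
  have s12 : P.S12 = D.t 0 * D.t 1 := by rw [Par.S12, s13, pu2]; field_simp
  obtain ⟨w12, r12⟩ := wlog_cr D (i := 0) (j := 1) (by decide) s12
  obtain ⟨w13, r13⟩ := wlog_cr D (i := 0) (j := 2) (by decide) s13
  obtain ⟨w14, r14⟩ := wlog_cr D (i := 0) (j := 3) (by decide) s14
  obtain ⟨w23, r23⟩ := wlog_cr D (i := 1) (j := 2) (by decide) s23
  obtain ⟨w24, r24⟩ := wlog_cr D (i := 1) (j := 3) (by decide) s24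
  simp only [h2, h3, zero_re, zero_im, ofReal_re, ofReal_im] at r13 r14 r23 r24
  have x1 : P.x1 = (D.p 0).re := by
    rw [Par.x1, Par.r14, Par.r13, r14, r13, pε]
    field_simp
    ring
  have x2 : P.x2 = (D.p 1).re := by
    rw [Par.x2, Par.r24, Par.r23, r24, r23, pε]
    field_simp
    ring
  have b0 := D.h0
  have bx := congrArg re D.h1
  have by' := congrArg im D.h1
  simp only [Fin.sum_univ_four, add_re, add_im, re_ofReal_mul, im_ofReal_mul, h2, h3, zero_re,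
    zero_im, ofReal_re, ofReal_im, mul_zero, add_zero] at b0 bx by'
  have hc : ¬ ((D.p 0).im = 0 ∧ (D.p 1).im = 0) := fun h => D.toCfg.col fun i => by
    fin_cases i
    · exact h.1
    · exact h.2
    · exact (congrArg im h2).trans zero_im
    · exact (congrArg im h3).trans (ofReal_im ε)
  obtain ⟨V, hV⟩ : ∃ V : Val, V = ⟨P, (D.p 0).im, (D.p 1).im, D.μ 0, D.μ 1, D.μ 2 / ε ^ 3,
    D.μ 3 / (ε ^ 3 * P.γ)⟩ := ⟨_, rfl⟩
  have vP : V.toPar = P := by rw [hV]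
  have vy1 : V.y1 = (D.p 0).im := by rw [hV]
  have vy2 : V.y2 = (D.p 1).im := by rw [hV]
  have vm1 : V.m1 = D.μ 0 := by rw [hV]
  have vm2 : V.m2 = D.μ 1 := by rw [hV]
  have vn3 : V.n3 = D.μ 2 / ε ^ 3 := by rw [hV]
  have vn4 : V.n4 = D.μ 3 / (ε ^ 3 * (D.t 2 / D.t 3)) := by rw [hV, ← pγ]
  have vm3 : V.m3 = D.μ 2 := by
    rw [Val.m3, vP, pε, vn3]
    field_simp
  have vm4 : V.m4 = D.μ 3 := by
    rw [Val.m4, vP, pε, pγ, vn4]
    field_simp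
  have vmass : V.mass = D.μ := by
    funext i
    fin_cases i
    · exact vm1
    · exact vm2
    · exact vm3
    · exact vm4
  have vsi : V.si = ∑ j, D.μ j := by rw [Val.si, vm1, vm2, vm3, vm4, Fin.sum_univ_four]
  have vpts : V.pts = D.p := by
    funext i
    fin_cases i
    · change V.q1 = D.p 0
      rw [Val.q1, vP, x1, vy1, re_add_im]
    · change V.q2 = D.p 1
      rw [Val.q2, vP, x2, vy2, re_add_im]
    · exact h2.symm
    · change ((V.ε : ℝ) : ℂ) = D.p 3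
      rw [vP, pε, h3]
  refine ⟨⟨V, D.σ, ?_, ?_, ?_, ?_, ?_, ?_, ?_, ?_, ?_, ?_, ?_, ?_, ?_, ?_, ?_, ?_, ?_, ?_, D.hσ,
    ?_⟩, ?_, ?_, ?_, ?_⟩
  · rw [vP, pε]
    exact hε
  · rw [vP, pγ, hE]
    have : D.t 2 / D.t 3 * (D.t 2 * D.t 3) = D.t 2 ^ 2 := by field_simp
    rw [this]
    positivity
  · rw [vP]
    exact ⟨w12, w13, w14, w23, w24⟩
  · rw [vP, vy1, Par.Y1, Par.r13, r13, x1]
    ring
  · rw [vP, vy2, Par.Y2, Par.r23, r23, x2]
    ring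
  · rw [vP, vy1, vy2, Par.Pi, Par.r13, Par.r23, Par.r12, r13, r23, r12, x1, x2]
    ring
  · rw [vy1]
    intro h
    rw [h, mul_zero, zero_add] at by'
    exact hc ⟨h, (mul_eq_zero.1 by').resolve_left (mul_ne_zero m1.ne' t1)⟩
  · rw [vy2]
    intro h
    rw [h, mul_zero, add_zero] at by'
    exact hc ⟨(mul_eq_zero.1 by').resolve_left (mul_ne_zero m0.ne' t0), h⟩
  · rw [vP, pu1]
    exact div_ne_zero t0 t2
  · rw [vP, pu2]
    exact div_ne_zero t1 t2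
  · rw [vm1]
    exact m0
  · rw [vm2]
    exact m1
  · rw [vn3]
    positivity
  · rw [vP, pγ, vn4]
    have : D.t 2 / D.t 3 * (D.μ 3 / (ε ^ 3 * (D.t 2 / D.t 3))) = D.μ 3 / ε ^ 3 := by field_simp
    rw [this]
    positivity
  · rw [vP, vm1, vm2, vn3, vn4, pu1, pu2, pε]
    field_simp
    linear_combination b0
  · rw [vP, vm1, vm2, vn4, pu1, pu2, pε, x1, x2]
    field_simp
    linear_combination bx
  · rw [vP, vm1, vm2, vy1, vy2, pu1, pu2]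
    field_simp
    linear_combination by'
  · rw [vmass, vsi]
    exact D.dom
  · rw [vmass, vpts]
    exact D.st
  · exact (congrArg Par.u1 vP).trans pu1
  · exact (congrArg Par.u2 vP).trans pu2
  · exact (congrArg Par.γ vP).trans pγ
  · exact (congrArg Par.ε vP).trans pε

theorem wlog_cr_le {s : ℝ} (h : s ≤ 0) : cr (1 - s) ^ 2 ≤ 1 :=
  pow_le_one₀ (cr_pos (by linarith)).le
    (Real.rpow_le_one_of_one_le_of_nonpos (by linarith) (by norm_num))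

/-- two bodies at distance `ε` and a third one at distance less than one from both -/
theorem Sol.eps_le (S : Sol) (hγ : 0 < S.γ) (h : S.u1 < 0) : 1 ≤ S.ε ∧ S.ε ≤ 2 := by
  have hE : 0 < S.toPar.E := (mul_pos_iff_of_pos_left hγ).1 S.hE
  have hε := S.hε
  have h14 : S.toPar.S14 ≤ 0 := (mul_neg_of_neg_of_pos h hE).le
  have h13 : S.toPar.S13 ≤ 0 := mul_nonpos_of_nonneg_of_nonpos hγ.le h14
  have r14 : S.toPar.r14 ^ 2 ≤ 1 := wlog_cr_le h14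
  have r13 : S.toPar.r13 ^ 2 ≤ 1 := wlog_cr_le h13
  have hy := S.hY1
  have hx : S.toPar.r14 ^ 2 - S.toPar.r13 ^ 2 = S.ε * (S.ε - 2 * S.toPar.x1) := by
    rw [Par.x1]
    field_simp
    ring
  rw [Par.Y1] at hy
  have y0 := sq_nonneg S.y1
  constructor
  · by_contra hc
    have h1 : S.ε ^ 3 ≤ 1 := pow_le_one₀ hε.le (not_le.1 hc).le
    have h2 : 1 ≤ 1 / S.ε ^ 3 := (one_le_div (pow_pos hε 3)).2 h1
    rw [Par.E] at hE
    linarith
  · have a1 : S.toPar.x1 ≤ 1 := (abs_le.1 ((sq_le_one_iff_abs_le_one _).1 (by linarith))).2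
    have a2 : S.ε - S.toPar.x1 ≤ 1 :=
      (abs_le.1 ((sq_le_one_iff_abs_le_one _).1 (by linarith))).2
    linarith

theorem wlog_sol (D : Dz) :
    ∃ S : Sol, S.u1 = D.t 0 / D.t 2 ∧ S.u2 = D.t 1 / D.t 2 ∧ S.γ = D.t 2 / D.t 3 := by
  obtain ⟨D', ε, h, hε, h2, h3⟩ := D.std
  obtain ⟨S, a1, a2, a3, -⟩ := D'.sol hε h2 h3
  rw [h] at a1 a2 a3
  exact ⟨S, a1, a2, a3⟩

theorem wlog_dz (C : Cfg) : Nonempty Dz := by
  obtain ⟨u, v, ε, hu, -, a2, a3⟩ := exists_sim C.inj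
  obtain ⟨C', -, h2⟩ := C.sim hu v
  have b2 : C'.p 2 = 0 := (congrFun h2 2).trans a2
  have b3 : (C'.p 3).im = 0 := (congrArg im ((congrFun h2 3).trans a3)).trans (ofReal_im ε)
  obtain ⟨D, -⟩ := C'.dz b2 b3 fun h => C'.col fun i => by
    fin_cases i
    · exact h.1
    · exact h.2
    · exact (congrArg im b2).trans zero_im
    · exact b3
  exact ⟨D⟩

theorem wlog_neg (S : Sol) (hγ : S.γ < 0) : S.ε ≤ 1 := by
  have hE : S.toPar.E < 0 := by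
    by_contra h
    exact absurd S.hE (not_lt.2 (mul_nonpos_of_nonpos_of_nonneg hγ.le (not_lt.1 h)))
  by_contra hc
  have h1 : 1 ≤ S.ε ^ 3 := one_le_pow₀ (not_le.1 hc).le
  have h2 : 1 / S.ε ^ 3 ≤ 1 := (div_le_one (pow_pos S.hε 3)).2 h1
  rw [Par.E] at hE
  linarith

theorem wlog_sign (S : Sol) (hγ : 0 < S.γ) (h : 0 < S.u1) : S.u2 < 0 := by
  by_contra hc
  have h4 : 0 < S.n4 := (mul_pos_iff_of_pos_left hγ).1 S.p4
  have a1 := mul_pos S.p1 h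
  have a2 := mul_nonneg S.p2.le (not_lt.1 hc)
  have a3 := mul_pos (pow_pos S.hε 3) S.p3
  have a4 := mul_pos (pow_pos S.hε 3) h4
  linarith [S.l0]

theorem Cfg.sol (C : Cfg) : ∃ S : Sol, S.toPar.Ord := by
  obtain ⟨D0⟩ := wlog_dz C
  obtain ⟨D, hD⟩ := D0.perm (Tuple.sort fun i => |D0.t i|)
  have hm : Monotone fun i => |D.t i| := by
    rw [hD]
    exact Tuple.monotone_sort fun i => |D0.t i|
  have o01 : |D.t 0| ≤ |D.t 1| := hm (by decide)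
  have o12 : |D.t 1| ≤ |D.t 2| := hm (by decide)
  have o23 : |D.t 2| ≤ |D.t 3| := hm (by decide)
  obtain ⟨S, a1, a2, a3⟩ := wlog_sol D
  have c1 : |S.γ| ≤ 1 := by
    rw [a3, abs_div]
    exact div_le_one_of_le₀ o23 (abs_nonneg _)
  have c2 : |S.u2| ≤ 1 := by
    rw [a2, abs_div]
    exact div_le_one_of_le₀ o12 (abs_nonneg _)
  have c3 : |S.u1| ≤ |S.u2| := by
    rw [a1, a2, abs_div, abs_div]
    exact div_le_div_of_nonneg_right o01 (abs_nonneg _)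
  have c4 : S.γ ≠ 0 := by
    rw [a3]
    exact div_ne_zero (D.ht 2) (D.ht 3)
  rcases lt_or_gt_of_ne c4 with hγ | hγ
  · exact ⟨S, c1, c2, Or.inl ⟨hγ, wlog_neg S hγ, c3⟩⟩
  rcases lt_or_gt_of_ne S.hu1 with h1 | h1
  · refine ⟨S, c1, c2, Or.inr ⟨hγ, (S.eps_le hγ h1).1, (S.eps_le hγ h1).2, h1, ?_⟩⟩
    rcases lt_or_gt_of_ne S.hu2 with h2 | h2
    · exact Or.inl ⟨h2, c3⟩
    · exact Or.inr ⟨h2, (abs_le.1 (c3.trans c2)).1⟩
  · obtain ⟨D', hD'⟩ := D.perm (Equiv.swap 0 1)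
    obtain ⟨S', b1, b2, b3⟩ := wlog_sol D'
    have e0 : D'.t 0 = D.t 1 := by rw [hD']; rfl
    have e1 : D'.t 1 = D.t 0 := by rw [hD']; rfl
    have e2 : D'.t 2 = D.t 2 := by rw [hD']; rfl
    have e3 : D'.t 3 = D.t 3 := by rw [hD']; rfl
    rw [e0, e2, ← a2] at b1
    rw [e1, e2, ← a1] at b2
    rw [e2, e3, ← a3] at b3
    have g1 : 0 < S'.γ := b3 ▸ hγ
    have g2 : S'.u1 < 0 := b1 ▸ wlog_sign S hγ h1
    exact ⟨S', b3 ▸ c1, b2 ▸ c3.trans c2, Or.inr ⟨g1, (S'.eps_le g1 g2).1, (S'.eps_le g1 g2).2,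
      g2, Or.inr ⟨b2 ▸ h1, b1 ▸ (abs_le.1 c2).1⟩⟩⟩

end Pool.Agent.MP_4948b4_mp.N4
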