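import Pool.Agent.MP_4948b4_mp.N4.Fin
import Pool.Agent.MP_4948b4_mp.N4.Sym
import Pool.Agent.MP_4948b4_mp.N4.Wlog
import Pool.Agent.MP_4948b4_mp.N4.CA
import Pool.Agent.MP_4948b4_mp.N4.CB
import Pool.Agent.MP_4948b4_mp.N4.CC

/-! Assembly: the certificates exclude every normalised counterexample. -/

namespace Pool.Agent.MP_4948b4_mp.N4

theorem good1 : Good false true true true 0 134217728 0 134217728 0 134217728 :=
  good_c 67108864 (good_a 67108864 (good_b 67108864 (good_c 33554432 (chk_ok _ c1.1.1.1.1)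
      (chk_ok _ c1.1.1.1.2))
     (chk_ok _ c1.1.1.2))
    (good_b 67108864 (chk_ok _ c1.1.2.1)
     (chk_ok _ c1.1.2.2)))
   (good_a 67108864 (good_b 67108864 (good_c 100663296 (chk_ok _ c1.2.1.1.1)
      (chk_ok _ c1.2.1.1.2))
     (good_c 100663296 (chk_ok _ c1.2.1.2.1)
      (chk_ok _ c1.2.1.2.2)))
    (good_b 67108864 (good_c 100663296 (chk_ok _ c1.2.2.1.1)
      (chk_ok _ c1.2.2.1.2))
     (good_c 100663296 (chk_ok _ c1.2.2.2.1)
      (chk_ok _ c1.2.2.2.2))))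

theorem good2 : Good false false true true 0 134217728 0 134217728 0 134217728 :=
  good_c 67108864 (good_a 67108864 (good_b 67108864 (good_c 33554432 (chk_ok _ c2.1.1.1.1)
      (chk_ok _ c2.1.1.1.2))
     (chk_ok _ c2.1.1.2))
    (good_b 67108864 (good_c 33554432 (good_a 100663296 (chk_ok _ c2.1.2.1.1.1)
       (good_b 33554432 (chk_ok _ c2.1.2.1.1.2.1)
        (chk_ok _ c2.1.2.1.1.2.2)))
      (good_a 100663296 (chk_ok _ c2.1.2.1.2.1)
       (good_b 33554432 (good_c 50331648 (chk_ok _ c2.1.2.1.2.2.1.1)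
         (chk_ok _ c2.1.2.1.2.2.1.2))
        (chk_ok _ c2.1.2.1.2.2.2))))
     (good_c 33554432 (chk_ok _ c2.1.2.2.1)
      (good_a 100663296 (chk_ok _ c2.1.2.2.2.1)
       (good_b 100663296 (chk_ok _ c2.1.2.2.2.2.1)
        (chk_ok _ c2.1.2.2.2.2.2))))))
   (good_a 67108864 (chk_ok _ c2.2.1)
    (good_b 67108864 (good_c 100663296 (good_a 100663296 (chk_ok _ c2.2.2.1.1.1)
       (good_b 33554432 (good_c 83886080 (chk_ok _ c2.2.2.1.1.2.1.1)
         (good_a 117440512 (chk_ok _ c2.2.2.1.1.2.1.2.1)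
          (good_b 16777216 (good_c 92274688 (chk_ok _ c2.2.2.1.1.2.1.2.2.1.1)
            (chk_ok _ c2.2.2.1.1.2.1.2.2.1.2))
           (good_c 92274688 (chk_ok _ c2.2.2.1.1.2.1.2.2.2.1)
            (chk_ok _ c2.2.2.1.1.2.1.2.2.2.2)))))
        (good_c 83886080 (chk_ok _ c2.2.2.1.1.2.2.1)
         (good_a 117440512 (chk_ok _ c2.2.2.1.1.2.2.2.1)
          (good_b 50331648 (chk_ok _ c2.2.2.1.1.2.2.2.2.1)
           (chk_ok _ c2.2.2.1.1.2.2.2.2.2))))))
      (good_a 100663296 (chk_ok _ c2.2.2.1.2.1)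
       (good_c 117440512 (good_b 33554432 (good_a 117440512 (chk_ok _ c2.2.2.1.2.2.1.1.1)
          (good_b 16777216 (good_c 109051904 (good_a 125829120 (chk_ok _ c2.2.2.1.2.2.1.1.2.1.1.1)
             (good_b 8388608 (chk_ok _ c2.2.2.1.2.2.1.1.2.1.1.2.1)
              (chk_ok _ c2.2.2.1.2.2.1.1.2.1.1.2.2)))
            (chk_ok _ c2.2.2.1.2.2.1.1.2.1.2))
           (good_c 109051904 (good_a 125829120 (chk_ok _ c2.2.2.1.2.2.1.1.2.2.1.1)
             (good_b 25165824 (chk_ok _ c2.2.2.1.2.2.1.1.2.2.1.2.1)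
              (chk_ok _ c2.2.2.1.2.2.1.1.2.2.1.2.2)))
            (chk_ok _ c2.2.2.1.2.2.1.1.2.2.2))))
         (good_a 117440512 (chk_ok _ c2.2.2.1.2.2.1.2.1)
          (good_b 50331648 (good_c 109051904 (good_a 125829120 (chk_ok _ c2.2.2.1.2.2.1.2.2.1.1.1)
             (chk_ok _ c2.2.2.1.2.2.1.2.2.1.1.2))
            (chk_ok _ c2.2.2.1.2.2.1.2.2.1.2))
           (good_c 109051904 (chk_ok _ c2.2.2.1.2.2.1.2.2.2.1)
            (chk_ok _ c2.2.2.1.2.2.1.2.2.2.2)))))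
        (chk_ok _ c2.2.2.1.2.2.2))))
     (good_c 100663296 (good_a 100663296 (chk_ok _ c2.2.2.2.1.1)
       (good_b 100663296 (good_c 83886080 (chk_ok _ c2.2.2.2.1.2.1.1)
         (good_a 117440512 (chk_ok _ c2.2.2.2.1.2.1.2.1)
          (good_b 83886080 (chk_ok _ c2.2.2.2.1.2.1.2.2.1)
           (chk_ok _ c2.2.2.2.1.2.1.2.2.2))))
        (good_c 83886080 (chk_ok _ c2.2.2.2.1.2.2.1)
         (good_a 117440512 (chk_ok _ c2.2.2.2.1.2.2.2.1)
          (chk_ok _ c2.2.2.2.1.2.2.2.2)))))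
      (good_a 100663296 (good_c 117440512 (good_b 100663296 (chk_ok _ c2.2.2.2.2.1.1.1)
         (chk_ok _ c2.2.2.2.2.1.1.2))
        (chk_ok _ c2.2.2.2.2.1.2))
       (good_c 117440512 (good_b 100663296 (good_a 117440512 (chk_ok _ c2.2.2.2.2.2.1.1.1)
          (good_b 83886080 (good_c 109051904 (chk_ok _ c2.2.2.2.2.2.1.1.2.1.1)
            (chk_ok _ c2.2.2.2.2.2.1.1.2.1.2))
           (good_c 109051904 (chk_ok _ c2.2.2.2.2.2.1.1.2.2.1)
            (chk_ok _ c2.2.2.2.2.2.1.1.2.2.2))))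
         (good_a 117440512 (good_b 117440512 (chk_ok _ c2.2.2.2.2.2.1.2.1.1)
           (chk_ok _ c2.2.2.2.2.2.1.2.1.2))
          (good_b 117440512 (good_c 109051904 (chk_ok _ c2.2.2.2.2.2.1.2.2.1.1)
            (chk_ok _ c2.2.2.2.2.2.1.2.2.1.2))
           (good_c 109051904 (chk_ok _ c2.2.2.2.2.2.1.2.2.2.1)
            (chk_ok _ c2.2.2.2.2.2.1.2.2.2.2)))))
        (chk_ok _ c2.2.2.2.2.2.2))))))

theorem good6 : Good false false true false 0 134217728 0 134217728 134217728 268435456 :=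
  good_c 201326592 (good_a 67108864 (good_b 67108864 (chk_ok _ c6.1.1.1)
     (chk_ok _ c6.1.1.2))
    (good_b 67108864 (chk_ok _ c6.1.2.1)
     (good_c 167772160 (chk_ok _ c6.1.2.2.1)
      (chk_ok _ c6.1.2.2.2))))
   (good_a 67108864 (good_b 67108864 (good_c 234881024 (good_a 33554432 (good_b 33554432 (good_c 218103808 (chk_ok _ c6.2.1.1.1.1.1.1)
         (chk_ok _ c6.2.1.1.1.1.1.2))
        (good_c 218103808 (chk_ok _ c6.2.1.1.1.1.2.1)
         (chk_ok _ c6.2.1.1.1.1.2.2)))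
       (good_b 33554432 (chk_ok _ c6.2.1.1.1.2.1)
        (chk_ok _ c6.2.1.1.1.2.2)))
      (chk_ok _ c6.2.1.1.2))
     (good_c 234881024 (good_a 33554432 (good_b 100663296 (chk_ok _ c6.2.1.2.1.1.1)
        (chk_ok _ c6.2.1.2.1.1.2))
       (chk_ok _ c6.2.1.2.1.2))
      (chk_ok _ c6.2.1.2.2)))
    (good_b 67108864 (good_c 234881024 (good_a 100663296 (chk_ok _ c6.2.2.1.1.1)
       (chk_ok _ c6.2.2.1.1.2))
      (chk_ok _ c6.2.2.1.2))
     (chk_ok _ c6.2.2.2)))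

theorem good3 : Good false true false true 0 134217728 0 134217728 0 134217728 :=
  good_c 67108864 (good_a 67108864 (good_b 67108864 (good_c 33554432 (good_a 33554432 (good_b 33554432 (chk_ok _ c3.1.1.1.1.1.1)
        (chk_ok _ c3.1.1.1.1.1.2))
       (chk_ok _ c3.1.1.1.1.2))
      (good_a 33554432 (good_b 33554432 (good_c 50331648 (chk_ok _ c3.1.1.1.2.1.1.1)
         (good_a 16777216 (good_b 16777216 (good_c 58720256 (chk_ok _ c3.1.1.1.2.1.1.2.1.1.1)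
            (chk_ok _ c3.1.1.1.2.1.1.2.1.1.2))
           (chk_ok _ c3.1.1.1.2.1.1.2.1.2))
          (chk_ok _ c3.1.1.1.2.1.1.2.2)))
        (chk_ok _ c3.1.1.1.2.1.2))
       (chk_ok _ c3.1.1.1.2.2)))
     (good_c 33554432 (chk_ok _ c3.1.1.2.1)
      (chk_ok _ c3.1.1.2.2)))
    (good_b 67108864 (good_c 33554432 (chk_ok _ c3.1.2.1.1)
      (chk_ok _ c3.1.2.1.2))
     (chk_ok _ c3.1.2.2)))
   (good_a 67108864 (good_b 67108864 (good_c 100663296 (good_a 33554432 (good_b 33554432 (good_c 83886080 (good_a 16777216 (good_b 16777216 (good_c 75497472 (good_a 8388608 (chk_ok _ c3.2.1.1.1.1.1.1.1.1.1.1)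
             (chk_ok _ c3.2.1.1.1.1.1.1.1.1.1.2))
            (good_a 8388608 (chk_ok _ c3.2.1.1.1.1.1.1.1.1.2.1)
             (chk_ok _ c3.2.1.1.1.1.1.1.1.1.2.2)))
           (chk_ok _ c3.2.1.1.1.1.1.1.1.2))
          (chk_ok _ c3.2.1.1.1.1.1.1.2))
         (good_a 16777216 (chk_ok _ c3.2.1.1.1.1.1.2.1)
          (chk_ok _ c3.2.1.1.1.1.1.2.2)))
        (good_c 83886080 (chk_ok _ c3.2.1.1.1.1.2.1)
         (good_a 16777216 (chk_ok _ c3.2.1.1.1.1.2.2.1)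
          (chk_ok _ c3.2.1.1.1.1.2.2.2))))
       (good_b 33554432 (good_c 83886080 (chk_ok _ c3.2.1.1.1.2.1.1)
         (chk_ok _ c3.2.1.1.1.2.1.2))
        (chk_ok _ c3.2.1.1.1.2.2)))
      (chk_ok _ c3.2.1.1.2))
     (good_c 100663296 (good_a 33554432 (good_b 100663296 (chk_ok _ c3.2.1.2.1.1.1)
        (chk_ok _ c3.2.1.2.1.1.2))
       (chk_ok _ c3.2.1.2.1.2))
      (good_a 33554432 (good_c 117440512 (good_b 100663296 (chk_ok _ c3.2.1.2.2.1.1.1)
         (chk_ok _ c3.2.1.2.2.1.1.2))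
        (chk_ok _ c3.2.1.2.2.1.2))
       (chk_ok _ c3.2.1.2.2.2))))
    (good_b 67108864 (good_c 100663296 (good_a 100663296 (chk_ok _ c3.2.2.1.1.1)
       (chk_ok _ c3.2.2.1.1.2))
      (good_a 100663296 (chk_ok _ c3.2.2.1.2.1)
       (chk_ok _ c3.2.2.1.2.2)))
     (good_c 100663296 (chk_ok _ c3.2.2.2.1)
      (good_a 100663296 (chk_ok _ c3.2.2.2.2.1)
       (chk_ok _ c3.2.2.2.2.2)))))

theorem good4 : Good false false false true 0 134217728 0 134217728 0 134217728 :=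
  good_c 67108864 (good_a 67108864 (good_b 67108864 (good_c 33554432 (good_a 33554432 (chk_ok _ c4.1.1.1.1.1)
       (chk_ok _ c4.1.1.1.1.2))
      (good_a 33554432 (good_b 33554432 (good_c 50331648 (chk_ok _ c4.1.1.1.2.1.1.1)
         (good_a 16777216 (chk_ok _ c4.1.1.1.2.1.1.2.1)
          (chk_ok _ c4.1.1.1.2.1.1.2.2)))
        (chk_ok _ c4.1.1.1.2.1.2))
       (good_b 33554432 (good_c 50331648 (chk_ok _ c4.1.1.1.2.2.1.1)
         (chk_ok _ c4.1.1.1.2.2.1.2))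
        (chk_ok _ c4.1.1.1.2.2.2))))
     (good_c 33554432 (chk_ok _ c4.1.1.2.1)
      (chk_ok _ c4.1.1.2.2)))
    (good_b 67108864 (good_c 33554432 (good_a 100663296 (good_b 33554432 (chk_ok _ c4.1.2.1.1.1.1)
        (chk_ok _ c4.1.2.1.1.1.2))
       (good_b 33554432 (chk_ok _ c4.1.2.1.1.2.1)
        (chk_ok _ c4.1.2.1.1.2.2)))
      (good_a 100663296 (good_b 33554432 (good_c 50331648 (chk_ok _ c4.1.2.1.2.1.1.1)
         (chk_ok _ c4.1.2.1.2.1.1.2))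
        (chk_ok _ c4.1.2.1.2.1.2))
       (good_b 33554432 (chk_ok _ c4.1.2.1.2.2.1)
        (chk_ok _ c4.1.2.1.2.2.2))))
     (good_c 33554432 (chk_ok _ c4.1.2.2.1)
      (good_a 100663296 (chk_ok _ c4.1.2.2.2.1)
       (good_b 100663296 (chk_ok _ c4.1.2.2.2.2.1)
        (chk_ok _ c4.1.2.2.2.2.2))))))
   (good_a 67108864 (good_b 67108864 (good_c 100663296 (good_a 33554432 (good_b 33554432 (good_c 83886080 (good_a 16777216 (good_b 16777216 (good_c 75497472 (chk_ok _ c4.2.1.1.1.1.1.1.1.1.1)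
            (chk_ok _ c4.2.1.1.1.1.1.1.1.1.2))
           (chk_ok _ c4.2.1.1.1.1.1.1.1.2))
          (chk_ok _ c4.2.1.1.1.1.1.1.2))
         (chk_ok _ c4.2.1.1.1.1.1.2))
        (chk_ok _ c4.2.1.1.1.1.2))
       (good_b 33554432 (good_c 83886080 (good_a 50331648 (chk_ok _ c4.2.1.1.1.2.1.1.1)
          (chk_ok _ c4.2.1.1.1.2.1.1.2))
         (chk_ok _ c4.2.1.1.1.2.1.2))
        (good_c 83886080 (chk_ok _ c4.2.1.1.1.2.2.1)
         (good_a 50331648 (chk_ok _ c4.2.1.1.1.2.2.2.1)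
          (chk_ok _ c4.2.1.1.1.2.2.2.2)))))
      (chk_ok _ c4.2.1.1.2))
     (good_c 100663296 (good_a 33554432 (chk_ok _ c4.2.1.2.1.1)
       (chk_ok _ c4.2.1.2.1.2))
      (good_a 33554432 (chk_ok _ c4.2.1.2.2.1)
       (chk_ok _ c4.2.1.2.2.2))))
    (good_b 67108864 (good_c 100663296 (good_a 100663296 (good_b 33554432 (good_c 83886080 (good_a 83886080 (chk_ok _ c4.2.2.1.1.1.1.1.1)
          (chk_ok _ c4.2.2.1.1.1.1.1.2))
         (chk_ok _ c4.2.2.1.1.1.1.2))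
        (good_c 83886080 (chk_ok _ c4.2.2.1.1.1.2.1)
         (good_a 83886080 (good_b 50331648 (chk_ok _ c4.2.2.1.1.1.2.2.1.1)
           (chk_ok _ c4.2.2.1.1.1.2.2.1.2))
          (good_b 50331648 (chk_ok _ c4.2.2.1.1.1.2.2.2.1)
           (chk_ok _ c4.2.2.1.1.1.2.2.2.2)))))
       (good_b 33554432 (good_c 83886080 (chk_ok _ c4.2.2.1.1.2.1.1)
         (good_a 117440512 (chk_ok _ c4.2.2.1.1.2.1.2.1)
          (chk_ok _ c4.2.2.1.1.2.1.2.2)))
        (good_c 83886080 (good_a 117440512 (chk_ok _ c4.2.2.1.1.2.2.1.1)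
          (chk_ok _ c4.2.2.1.1.2.2.1.2))
         (good_a 117440512 (good_b 50331648 (good_c 92274688 (chk_ok _ c4.2.2.1.1.2.2.2.1.1.1)
            (chk_ok _ c4.2.2.1.1.2.2.2.1.1.2))
           (chk_ok _ c4.2.2.1.1.2.2.2.1.2))
          (good_b 50331648 (good_c 92274688 (chk_ok _ c4.2.2.1.1.2.2.2.2.1.1)
            (chk_ok _ c4.2.2.1.1.2.2.2.2.1.2))
           (chk_ok _ c4.2.2.1.1.2.2.2.2.2))))))
      (chk_ok _ c4.2.2.1.2))
     (good_c 100663296 (good_a 100663296 (good_b 100663296 (good_c 83886080 (chk_ok _ c4.2.2.2.1.1.1.1)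
         (good_a 83886080 (chk_ok _ c4.2.2.2.1.1.1.2.1)
          (chk_ok _ c4.2.2.2.1.1.1.2.2)))
        (good_c 83886080 (chk_ok _ c4.2.2.2.1.1.2.1)
         (chk_ok _ c4.2.2.2.1.1.2.2)))
       (good_b 100663296 (good_c 83886080 (good_a 117440512 (chk_ok _ c4.2.2.2.1.2.1.1.1)
          (chk_ok _ c4.2.2.2.1.2.1.1.2))
         (good_a 117440512 (good_b 83886080 (chk_ok _ c4.2.2.2.1.2.1.2.1.1)
           (chk_ok _ c4.2.2.2.1.2.1.2.1.2))
          (good_b 83886080 (chk_ok _ c4.2.2.2.1.2.1.2.2.1)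
           (chk_ok _ c4.2.2.2.1.2.1.2.2.2))))
        (good_c 83886080 (chk_ok _ c4.2.2.2.1.2.2.1)
         (good_a 117440512 (chk_ok _ c4.2.2.2.1.2.2.2.1)
          (good_b 117440512 (chk_ok _ c4.2.2.2.1.2.2.2.2.1)
           (chk_ok _ c4.2.2.2.1.2.2.2.2.2))))))
      (good_a 100663296 (good_c 117440512 (good_b 100663296 (good_c 109051904 (good_a 83886080 (chk_ok _ c4.2.2.2.2.1.1.1.1.1)
           (chk_ok _ c4.2.2.2.2.1.1.1.1.2))
          (chk_ok _ c4.2.2.2.2.1.1.1.2))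
         (good_a 83886080 (chk_ok _ c4.2.2.2.2.1.1.2.1)
          (good_b 117440512 (chk_ok _ c4.2.2.2.2.1.1.2.2.1)
           (chk_ok _ c4.2.2.2.2.1.1.2.2.2))))
        (chk_ok _ c4.2.2.2.2.1.2))
       (good_b 100663296 (good_c 117440512 (good_a 117440512 (good_b 83886080 (chk_ok _ c4.2.2.2.2.2.1.1.1.1)
           (chk_ok _ c4.2.2.2.2.2.1.1.1.2))
          (good_b 83886080 (chk_ok _ c4.2.2.2.2.2.1.1.2.1)
           (chk_ok _ c4.2.2.2.2.2.1.1.2.2)))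
         (chk_ok _ c4.2.2.2.2.2.1.2))
        (good_c 117440512 (good_a 117440512 (good_b 117440512 (chk_ok _ c4.2.2.2.2.2.2.1.1.1)
           (chk_ok _ c4.2.2.2.2.2.2.1.1.2))
          (good_b 117440512 (good_c 109051904 (chk_ok _ c4.2.2.2.2.2.2.1.2.1.1)
            (chk_ok _ c4.2.2.2.2.2.2.1.2.1.2))
           (good_c 109051904 (chk_ok _ c4.2.2.2.2.2.2.1.2.2.1)
            (chk_ok _ c4.2.2.2.2.2.2.1.2.2.2))))
         (chk_ok _ c4.2.2.2.2.2.2.2)))))))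

theorem good7 : Good true true false false 0 134217728 0 134217728 134217728 268435456 :=
  good_c 201326592 (chk_ok _ c7.1)
   (good_a 67108864 (good_b 67108864 (chk_ok _ c7.2.1.1)
     (chk_ok _ c7.2.1.2))
    (good_b 67108864 (good_c 234881024 (good_a 100663296 (chk_ok _ c7.2.2.1.1.1)
       (good_b 33554432 (good_c 218103808 (chk_ok _ c7.2.2.1.1.2.1.1)
         (good_a 117440512 (chk_ok _ c7.2.2.1.1.2.1.2.1)
          (good_b 16777216 (chk_ok _ c7.2.2.1.1.2.1.2.2.1)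
           (chk_ok _ c7.2.2.1.1.2.1.2.2.2))))
        (good_c 218103808 (chk_ok _ c7.2.2.1.1.2.2.1)
         (good_a 117440512 (chk_ok _ c7.2.2.1.1.2.2.2.1)
          (good_b 50331648 (chk_ok _ c7.2.2.1.1.2.2.2.2.1)
           (good_c 226492416 (chk_ok _ c7.2.2.1.1.2.2.2.2.2.1)
            (chk_ok _ c7.2.2.1.1.2.2.2.2.2.2)))))))
      (good_a 100663296 (chk_ok _ c7.2.2.1.2.1)
       (good_b 33554432 (good_c 251658240 (good_a 117440512 (chk_ok _ c7.2.2.1.2.2.1.1.1)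
          (good_b 16777216 (good_c 243269632 (good_a 125829120 (chk_ok _ c7.2.2.1.2.2.1.1.2.1.1.1)
             (chk_ok _ c7.2.2.1.2.2.1.1.2.1.1.2))
            (good_a 125829120 (chk_ok _ c7.2.2.1.2.2.1.1.2.1.2.1)
             (good_b 8388608 (chk_ok _ c7.2.2.1.2.2.1.1.2.1.2.2.1)
              (chk_ok _ c7.2.2.1.2.2.1.1.2.1.2.2.2))))
           (good_c 243269632 (good_a 125829120 (chk_ok _ c7.2.2.1.2.2.1.1.2.2.1.1)
             (chk_ok _ c7.2.2.1.2.2.1.1.2.2.1.2))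
            (good_a 125829120 (chk_ok _ c7.2.2.1.2.2.1.1.2.2.2.1)
             (good_b 25165824 (chk_ok _ c7.2.2.1.2.2.1.1.2.2.2.2.1)
              (chk_ok _ c7.2.2.1.2.2.1.1.2.2.2.2.2))))))
         (good_a 117440512 (chk_ok _ c7.2.2.1.2.2.1.2.1)
          (good_b 16777216 (good_c 260046848 (good_a 125829120 (chk_ok _ c7.2.2.1.2.2.1.2.2.1.1.1)
             (good_b 8388608 (good_c 255852544 (chk_ok _ c7.2.2.1.2.2.1.2.2.1.1.2.1.1)
              (chk_ok _ c7.2.2.1.2.2.1.2.2.1.1.2.1.2))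
              (chk_ok _ c7.2.2.1.2.2.1.2.2.1.1.2.2)))
            (chk_ok _ c7.2.2.1.2.2.1.2.2.1.2))
           (good_c 260046848 (good_a 125829120 (chk_ok _ c7.2.2.1.2.2.1.2.2.2.1.1)
             (good_b 25165824 (chk_ok _ c7.2.2.1.2.2.1.2.2.2.1.2.1)
              (chk_ok _ c7.2.2.1.2.2.1.2.2.2.1.2.2)))
            (chk_ok _ c7.2.2.1.2.2.1.2.2.2.2)))))
        (good_c 251658240 (good_a 117440512 (good_b 50331648 (chk_ok _ c7.2.2.1.2.2.2.1.1.1)
           (chk_ok _ c7.2.2.1.2.2.2.1.1.2))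
          (good_b 50331648 (good_c 243269632 (good_a 125829120 (chk_ok _ c7.2.2.1.2.2.2.1.2.1.1.1)
             (chk_ok _ c7.2.2.1.2.2.2.1.2.1.1.2))
            (good_a 125829120 (chk_ok _ c7.2.2.1.2.2.2.1.2.1.2.1)
             (good_b 41943040 (chk_ok _ c7.2.2.1.2.2.2.1.2.1.2.2.1)
              (chk_ok _ c7.2.2.1.2.2.2.1.2.1.2.2.2))))
           (good_c 243269632 (good_a 125829120 (chk_ok _ c7.2.2.1.2.2.2.1.2.2.1.1)
             (chk_ok _ c7.2.2.1.2.2.2.1.2.2.1.2))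
            (good_a 125829120 (chk_ok _ c7.2.2.1.2.2.2.1.2.2.2.1)
             (good_b 58720256 (chk_ok _ c7.2.2.1.2.2.2.1.2.2.2.2.1)
              (chk_ok _ c7.2.2.1.2.2.2.1.2.2.2.2.2))))))
         (good_a 117440512 (good_a 109051904 (chk_ok _ c7.2.2.1.2.2.2.2.1.1)
           (good_b 50331648 (chk_ok _ c7.2.2.1.2.2.2.2.1.2.1)
            (chk_ok _ c7.2.2.1.2.2.2.2.1.2.2)))
          (good_b 50331648 (good_c 260046848 (good_a 125829120 (chk_ok _ c7.2.2.1.2.2.2.2.2.1.1.1)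
             (good_b 41943040 (chk_ok _ c7.2.2.1.2.2.2.2.2.1.1.2.1)
              (chk_ok _ c7.2.2.1.2.2.2.2.2.1.1.2.2)))
            (chk_ok _ c7.2.2.1.2.2.2.2.2.1.2))
           (good_c 260046848 (good_a 125829120 (good_b 58720256 (chk_ok _ c7.2.2.1.2.2.2.2.2.2.1.1.1)
              (chk_ok _ c7.2.2.1.2.2.2.2.2.2.1.1.2))
             (good_b 58720256 (chk_ok _ c7.2.2.1.2.2.2.2.2.2.1.2.1)
              (chk_ok _ c7.2.2.1.2.2.2.2.2.2.1.2.2)))
            (chk_ok _ c7.2.2.1.2.2.2.2.2.2.2))))))))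
     (good_c 234881024 (good_a 100663296 (good_b 100663296 (chk_ok _ c7.2.2.2.1.1.1)
        (good_c 218103808 (chk_ok _ c7.2.2.2.1.1.2.1)
         (good_a 83886080 (chk_ok _ c7.2.2.2.1.1.2.2.1)
          (chk_ok _ c7.2.2.2.1.1.2.2.2))))
       (good_b 100663296 (good_c 218103808 (chk_ok _ c7.2.2.2.1.2.1.1)
         (good_a 117440512 (chk_ok _ c7.2.2.2.1.2.1.2.1)
          (good_b 83886080 (good_c 226492416 (chk_ok _ c7.2.2.2.1.2.1.2.2.1.1)
            (chk_ok _ c7.2.2.2.1.2.1.2.2.1.2))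
           (good_c 226492416 (chk_ok _ c7.2.2.2.1.2.1.2.2.2.1)
            (chk_ok _ c7.2.2.2.1.2.1.2.2.2.2)))))
        (good_c 218103808 (good_a 117440512 (chk_ok _ c7.2.2.2.1.2.2.1.1)
          (good_b 117440512 (chk_ok _ c7.2.2.2.1.2.2.1.2.1)
           (good_c 209715200 (chk_ok _ c7.2.2.2.1.2.2.1.2.2.1)
            (good_a 125829120 (chk_ok _ c7.2.2.2.1.2.2.1.2.2.2.1)
             (chk_ok _ c7.2.2.2.1.2.2.1.2.2.2.2)))))
         (good_a 117440512 (good_b 117440512 (chk_ok _ c7.2.2.2.1.2.2.2.1.1)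
           (good_c 226492416 (chk_ok _ c7.2.2.2.1.2.2.2.1.2.1)
            (chk_ok _ c7.2.2.2.1.2.2.2.1.2.2)))
          (good_b 117440512 (good_c 226492416 (chk_ok _ c7.2.2.2.1.2.2.2.2.1.1)
            (chk_ok _ c7.2.2.2.1.2.2.2.2.1.2))
           (good_c 226492416 (good_a 125829120 (chk_ok _ c7.2.2.2.1.2.2.2.2.2.1.1)
             (chk_ok _ c7.2.2.2.1.2.2.2.2.2.1.2))
            (good_a 125829120 (chk_ok _ c7.2.2.2.1.2.2.2.2.2.2.1)
             (chk_ok _ c7.2.2.2.1.2.2.2.2.2.2.2))))))))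
      (good_a 100663296 (good_b 100663296 (chk_ok _ c7.2.2.2.2.1.1)
        (good_c 251658240 (good_a 83886080 (chk_ok _ c7.2.2.2.2.1.2.1.1)
          (good_b 117440512 (chk_ok _ c7.2.2.2.2.1.2.1.2.1)
           (chk_ok _ c7.2.2.2.2.1.2.1.2.2)))
         (chk_ok _ c7.2.2.2.2.1.2.2)))
       (good_b 100663296 (good_c 251658240 (good_a 117440512 (good_b 83886080 (chk_ok _ c7.2.2.2.2.2.1.1.1.1)
           (chk_ok _ c7.2.2.2.2.2.1.1.1.2))
          (good_b 83886080 (good_c 243269632 (chk_ok _ c7.2.2.2.2.2.1.1.2.1.1)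
            (good_a 125829120 (chk_ok _ c7.2.2.2.2.2.1.1.2.1.2.1)
             (good_b 75497472 (chk_ok _ c7.2.2.2.2.2.1.1.2.1.2.2.1)
              (chk_ok _ c7.2.2.2.2.2.1.1.2.1.2.2.2))))
           (good_c 243269632 (chk_ok _ c7.2.2.2.2.2.1.1.2.2.1)
            (good_a 125829120 (chk_ok _ c7.2.2.2.2.2.1.1.2.2.2.1)
             (chk_ok _ c7.2.2.2.2.2.1.1.2.2.2.2)))))
         (good_a 117440512 (good_b 83886080 (chk_ok _ c7.2.2.2.2.2.1.2.1.1)
           (good_c 260046848 (chk_ok _ c7.2.2.2.2.2.1.2.1.2.1)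
            (chk_ok _ c7.2.2.2.2.2.1.2.1.2.2)))
          (good_b 83886080 (good_c 260046848 (good_a 125829120 (chk_ok _ c7.2.2.2.2.2.1.2.2.1.1.1)
             (chk_ok _ c7.2.2.2.2.2.1.2.2.1.1.2))
            (chk_ok _ c7.2.2.2.2.2.1.2.2.1.2))
           (good_c 260046848 (chk_ok _ c7.2.2.2.2.2.1.2.2.2.1)
            (chk_ok _ c7.2.2.2.2.2.1.2.2.2.2)))))
        (good_c 251658240 (good_a 117440512 (good_b 117440512 (chk_ok _ c7.2.2.2.2.2.2.1.1.1)
           (good_c 243269632 (chk_ok _ c7.2.2.2.2.2.2.1.1.2.1)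
            (chk_ok _ c7.2.2.2.2.2.2.1.1.2.2)))
          (good_b 117440512 (good_c 243269632 (chk_ok _ c7.2.2.2.2.2.2.1.2.1.1)
            (good_a 125829120 (chk_ok _ c7.2.2.2.2.2.2.1.2.1.2.1)
             (chk_ok _ c7.2.2.2.2.2.2.1.2.1.2.2)))
           (good_c 243269632 (good_a 125829120 (chk_ok _ c7.2.2.2.2.2.2.1.2.2.1.1)
             (good_b 125829120 (chk_ok _ c7.2.2.2.2.2.2.1.2.2.1.2.1)
              (chk_ok _ c7.2.2.2.2.2.2.1.2.2.1.2.2)))
            (good_a 125829120 (chk_ok _ c7.2.2.2.2.2.2.1.2.2.2.1)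
             (chk_ok _ c7.2.2.2.2.2.2.1.2.2.2.2)))))
         (good_a 117440512 (good_b 117440512 (good_c 260046848 (chk_ok _ c7.2.2.2.2.2.2.2.1.1.1)
            (chk_ok _ c7.2.2.2.2.2.2.2.1.1.2))
           (good_c 260046848 (good_a 109051904 (chk_ok _ c7.2.2.2.2.2.2.2.1.2.1.1)
             (chk_ok _ c7.2.2.2.2.2.2.2.1.2.1.2))
            (chk_ok _ c7.2.2.2.2.2.2.2.1.2.2)))
          (good_b 117440512 (good_c 260046848 (chk_ok _ c7.2.2.2.2.2.2.2.2.1.1)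
            (chk_ok _ c7.2.2.2.2.2.2.2.2.1.2))
           (good_c 260046848 (chk_ok _ c7.2.2.2.2.2.2.2.2.2.1)
            (chk_ok _ c7.2.2.2.2.2.2.2.2.2.2))))))))))

theorem no_cfg (C : Cfg) : False := by
  obtain ⟨S, h⟩ := C.sol
  refine no_sol (fun sa sb => ?_) good6 good7 S h
  cases sa <;> cases sb
  exacts [good4, good2, good3, good1]

end Pool.Agent.MP_4948b4_mp.N4
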