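import Mathlib

/-! A polynomial of degree eight without roots in a half plane; determinants of blocks. -/

namespace Pool.Agent.MP_4948b4_mp.N4

open Complex

open Polynomial in
theorem quart_real {σ A B D K E : ℝ} (hσ : σ ≠ 0)
    (h : ∀ s : ℂ, s ^ 8 - A * s ^ 6 + B * s ^ 4 - D * s ^ 2 + K * I * s + E = 0 → 0 ≤ σ * s.im) :
    K = 0 ∧ ∀ s : ℂ, s ^ 8 - A * s ^ 6 + B * s ^ 4 - D * s ^ 2 + K * I * s + E = 0 → s.im = 0 := by
  obtain ⟨P, hP⟩ : ∃ P : ℂ[X], P = X ^ 8 - C (A : ℂ) * X ^ 6 + C (B : ℂ) * X ^ 4 -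
    C (D : ℂ) * X ^ 2 + C (K * I) * X + C (E : ℂ) := ⟨_, rfl⟩
  have ev : ∀ s, P.eval s = s ^ 8 - A * s ^ 6 + B * s ^ 4 - D * s ^ 2 + K * I * s + E := fun s => by
    simp only [hP, eval_add, eval_sub, eval_mul, eval_pow, eval_X, eval_C]
  have hm : P.Monic := by
    rw [hP]
    monicity!
  have hd : P.natDegree = 8 := by
    rw [hP]
    compute_degree!
  have hs : P.Splits := IsAlgClosed.splits P
  have h7 : P.nextCoeff = 0 := by
    rw [nextCoeff_of_natDegree_pos (by omega), hd, hP]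
    simp only [coeff_add, coeff_sub, coeff_C_mul, coeff_X_pow, coeff_X, coeff_C]
    norm_num
  have h0 : P.roots.sum = 0 := neg_eq_zero.1 ((hs.nextCoeff_eq_neg_sum_roots_of_monic hm).symm.trans h7)
  have hr : ∀ s, s ∈ P.roots ↔ P.eval s = 0 := fun s => mem_roots hm.ne_zero
  have h1 : ∀ s ∈ P.roots, s.im = 0 := fun s hs' => by
    have a1 : (P.roots.map fun z => σ * z.im).sum = 0 := by
      rw [Multiset.sum_map_mul_left]
      have := map_multiset_sum imAddGroupHom P.roots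
      rw [h0, map_zero] at this
      exact mul_eq_zero_of_right _ this.symm
    have a2 := Multiset.single_le_sum (s := P.roots.map fun z => σ * z.im) (fun x hx => by
      obtain ⟨z, hz, rfl⟩ := Multiset.mem_map.1 hx
      exact h z (ev z ▸ (hr z).1 hz)) _ (Multiset.mem_map_of_mem _ hs')
    exact (mul_eq_zero.1 (le_antisymm (a1 ▸ a2) (h s (ev s ▸ (hr s).1 hs')))).resolve_left hσ
  refine ⟨?_, fun s hs' => h1 s ((hr s).2 (ev s ▸ hs'))⟩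
  have h2 : (P.eval 1).im = 0 := by
    rw [hs.eq_prod_roots_of_monic hm, eval_multiset_prod, Multiset.map_map]
    refine Multiset.prod_induction (fun z : ℂ => z.im = 0) _ (fun x y hx hy => ?_) rfl
      fun x hx => ?_
    · rw [mul_im, hx, hy, mul_zero, zero_mul, add_zero]
    · obtain ⟨z, hz, rfl⟩ := Multiset.mem_map.1 hx
      simp [h1 z hz]
  rw [ev] at h2
  simpa using h2

open Polynomial in
theorem quart_vieta {A B D E : ℝ}
    (h : ∀ s : ℂ, s ^ 8 - A * s ^ 6 + B * s ^ 4 - D * s ^ 2 + E = 0 → s.im = 0) :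
    ∃ x y z w : ℝ, 0 ≤ x ∧ 0 ≤ y ∧ 0 ≤ z ∧ 0 ≤ w ∧ A = x + y + z + w ∧
      B = x * y + x * z + x * w + y * z + y * w + z * w ∧
      D = x * y * z + x * y * w + x * z * w + y * z * w ∧ E = x * y * z * w := by
  obtain ⟨P, hP⟩ : ∃ P : ℂ[X], P = X ^ 4 - C (A : ℂ) * X ^ 3 + C (B : ℂ) * X ^ 2 -
    C (D : ℂ) * X + C (E : ℂ) := ⟨_, rfl⟩
  have ev : ∀ s, P.eval s = s ^ 4 - A * s ^ 3 + B * s ^ 2 - D * s + E := fun s => by
    simp only [hP, eval_add, eval_sub, eval_mul, eval_pow, eval_X, eval_C]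
  have hm : P.Monic := by
    rw [hP]
    monicity!
  have hd : P.natDegree = 4 := by
    rw [hP]
    compute_degree!
  have hs : P.Splits := IsAlgClosed.splits P
  have h1 : ∀ r ∈ P.roots, ∃ x : ℝ, 0 ≤ x ∧ r = x := fun r hr => by
    obtain ⟨s, rfl⟩ := IsAlgClosed.exists_pow_nat_eq r two_pos
    have a1 : P.eval (s ^ 2) = 0 := (mem_roots hm.ne_zero).1 hr
    have a2 := h s (by rw [← a1, ev]; ring)
    refine ⟨s.re ^ 2, sq_nonneg _, ?_⟩
    conv_lhs => rw [← re_add_im s, a2]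
    simp
  have hc : P.roots.card = 3 + 1 := hs.natDegree_eq_card_roots ▸ hd
  obtain ⟨r, t, e1, h3⟩ : ∃ r t, P.roots = r ::ₘ t ∧ t.card = 3 := by
    obtain ⟨r, hr⟩ := Multiset.card_pos_iff_exists_mem.1 (show 0 < P.roots.card by omega)
    obtain ⟨t, e⟩ := Multiset.exists_cons_of_mem hr
    refine ⟨r, t, e, ?_⟩
    rw [e, Multiset.card_cons] at hc
    omega
  obtain ⟨r1, r2, r3, rfl⟩ := Multiset.card_eq_three.1 h3
  obtain ⟨x, hx, rfl⟩ := h1 r (by simp [e1])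
  obtain ⟨y, hy, rfl⟩ := h1 r1 (by simp [e1])
  obtain ⟨z, hz, rfl⟩ := h1 r2 (by simp [e1])
  obtain ⟨w, hw, rfl⟩ := h1 r3 (by simp [e1])
  have f : ∀ u : ℝ, u ^ 4 - A * u ^ 3 + B * u ^ 2 - D * u + E =
      (u - x) * ((u - y) * ((u - z) * (u - w))) := fun u => by
    have a := congrArg (eval (u : ℂ)) (hs.eq_prod_roots_of_monic hm)
    rw [ev, e1] at a
    simp only [Multiset.insert_eq_cons, Multiset.map_cons, Multiset.prod_cons,
      Multiset.map_singleton, Multiset.prod_singleton, eval_mul, eval_sub, eval_X, eval_C] at a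
    exact_mod_cast a
  have f0 := f 0
  have f1 := f 1
  have f2 := f (-1)
  have f3 := f 2
  refine ⟨x, y, z, w, hx, hy, hz, hw, ?_, ?_, ?_, ?_⟩
  · linear_combination (-1 / 2) * f0 + (1 / 2) * f1 + (1 / 6) * f2 - (1 / 6) * f3
  · linear_combination -f0 + (1 / 2) * f1 + (1 / 2) * f2
  · linear_combination (1 / 2) * f0 - f1 + (1 / 3) * f2 + (1 / 6) * f3
  · linear_combination f0

theorem quartic {σ a e1 e2 e3 e4 κ : ℝ} (hσ : σ ≠ 0) (ha : 0 < a)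
    (h : ∀ s : ℂ, a ^ 4 * s ^ 8 - a ^ 3 * e1 * s ^ 6 + a ^ 2 * e2 / 4 * s ^ 4 - a * e3 / 4 * s ^ 2 +
      κ * I * s + 9 * e4 / 16 = 0 → 0 ≤ σ * s.im) :
    0 ≤ e1 ∧ 0 ≤ e2 ∧ 2 * e2 ≤ 3 * e1 ^ 2 ∧ 0 ≤ e3 ∧ 6 * e3 ≤ e1 * e2 ∧ 9 * (e1 * e3) ≤ e2 ^ 2 ∧
      0 ≤ e4 := by
  have a0 : (a : ℂ) ≠ 0 := ofReal_ne_zero.2 ha.ne'
  obtain ⟨h1, h2⟩ := quart_real (A := e1 / a) (B := e2 / (4 * a ^ 2)) (D := e3 / (4 * a ^ 3))
    (K := κ / a ^ 4) (E := 9 * e4 / (16 * a ^ 4)) hσ fun s hs => h s (by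
      rw [← mul_zero ((a : ℂ) ^ 4), ← hs]
      push_cast
      field_simp)
  obtain ⟨x, y, z, w, hx, hy, hz, hw, b1, b2, b3, b4⟩ := quart_vieta (A := e1 / a)
    (B := e2 / (4 * a ^ 2)) (D := e3 / (4 * a ^ 3)) (E := 9 * e4 / (16 * a ^ 4))
    fun s hs => h2 s (by rw [h1, ← hs]; simp)
  rw [div_eq_iff (by positivity)] at b1 b2 b3 b4
  have c4 : e4 = x * y * z * w * (16 * a ^ 4) / 9 := by linarith
  subst b1 b2 b3 c4
  refine ⟨by positivity, by positivity, sub_nonneg.1 ?_, by positivity, sub_nonneg.1 ?_,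
    sub_nonneg.1 ?_, by positivity⟩
  · refine le_of_le_of_eq (b := a ^ 2 * ((x - y) ^ 2 + (x - z) ^ 2 + (x - w) ^ 2 + (y - z) ^ 2 +
      (y - w) ^ 2 + (z - w) ^ 2)) (by positivity) (by ring)
  · refine le_of_le_of_eq (b := 2 * a ^ 3 * (x * ((y - z) ^ 2 + (y - w) ^ 2 + (z - w) ^ 2) +
      y * ((x - z) ^ 2 + (x - w) ^ 2 + (z - w) ^ 2) +
      z * ((x - y) ^ 2 + (x - w) ^ 2 + (y - w) ^ 2) +
      w * ((x - y) ^ 2 + (x - z) ^ 2 + (y - z) ^ 2))) (by positivity) (by ring)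
  · refine le_of_le_of_eq (b := 2 * a ^ 4 * (x ^ 2 * ((y - z) ^ 2 + (y - w) ^ 2 + (z - w) ^ 2) +
      y ^ 2 * ((x - z) ^ 2 + (x - w) ^ 2 + (z - w) ^ 2) +
      z ^ 2 * ((x - y) ^ 2 + (x - w) ^ 2 + (y - w) ^ 2) +
      w ^ 2 * ((x - y) ^ 2 + (x - z) ^ 2 + (y - z) ^ 2) +
      4 * ((x * y - z * w) ^ 2 + (x * z - y * w) ^ 2 + (x * w - y * z) ^ 2))) (by positivity)
      (by ring)

/-- the reduced pencil: `A = a + c ρᵀ / 2`, `D = b + c' ρᵀ / 2`, `B = 3 K / 2`, `C = 3 K' / 2` -/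
theorem det_red (a b t r3 r4 c3 c4 d3 d4 k33 k34 k43 k44 l33 l34 l43 l44 : ℂ)
    (hc : r3 * c3 + r4 * c4 = t) (hd : r3 * d3 + r4 * d4 = t) :
    Matrix.det !![a + c3 * r3 / 2, c3 * r4 / 2, 3 / 2 * k33, 3 / 2 * k34;
      c4 * r3 / 2, a + c4 * r4 / 2, 3 / 2 * k43, 3 / 2 * k44;
      3 / 2 * l33, 3 / 2 * l34, b + d3 * r3 / 2, d3 * r4 / 2;
      3 / 2 * l43, 3 / 2 * l44, d4 * r3 / 2, b + d4 * r4 / 2] =
    (a + t / 2) * (b + t / 2) * (a * b - 9 / 4 * (k33 * l33 + k44 * l44 + k34 * l43 + k43 * l34)) +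
      9 / 8 * ((b + t / 2) * ((r3 * k33 + r4 * k43) * (l33 * c3 + l34 * c4) +
          (r3 * k34 + r4 * k44) * (l43 * c3 + l44 * c4)) +
        (a + t / 2) * ((r3 * l33 + r4 * l43) * (k33 * d3 + k34 * d4) +
          (r3 * l34 + r4 * l44) * (k43 * d3 + k44 * d4))) -
      9 / 16 * (((r3 * k33 + r4 * k43) * d3 + (r3 * k34 + r4 * k44) * d4) *
        ((r3 * l33 + r4 * l43) * c3 + (r3 * l34 + r4 * l44) * c4)) +
      81 / 16 * ((k33 * k44 - k34 * k43) * (l33 * l44 - l34 * l43)) := by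
  rw [show a + t / 2 = a + (r3 * c3 + r4 * c4) / 2 by rw [hc],
    show b + t / 2 = b + (r3 * d3 + r4 * d4) / 2 by rw [hd], Matrix.det_succ_row_zero]
  simp [Fin.sum_univ_succ, Matrix.det_fin_three, Fin.succAbove]
  ring

end Pool.Agent.MP_4948b4_mp.N4
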