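import Pool.Agent.MP_4948b4_mp.N4.Geo
import Pool.Agent.MP_4948b4_mp.N4.Quart

/-! The pencil on the quotient by the symmetries. -/

namespace Pool.Agent.MP_4948b4_mp.N4

open Complex Finset ComplexConjugate

/-- the reduced matrix -/
noncomputable def Val.red (V : Val) (s : ℂ) : Matrix (Fin 4) (Fin 4) ℂ :=
  !![V.si * ((s + 1) ^ 2 + 1 / 2) + V.c3 * V.n3 / 2, V.c3 * V.n4 / 2, 3 / 2 * V.K33, 3 / 2 * V.K34;
    V.c4 * V.n3 / 2, V.si * ((s + 1) ^ 2 + 1 / 2) + V.c4 * V.n4 / 2, 3 / 2 * V.K43, 3 / 2 * V.K44;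
    3 / 2 * conj V.K33, 3 / 2 * conj V.K34,
      V.si * ((s - 1) ^ 2 + 1 / 2) + conj V.c3 * V.n3 / 2, conj V.c3 * V.n4 / 2;
    3 / 2 * conj V.K43, 3 / 2 * conj V.K44,
      conj V.c4 * V.n3 / 2, V.si * ((s - 1) ^ 2 + 1 / 2) + conj V.c4 * V.n4 / 2]

/-- the weighted Laplacian -/
noncomputable def penaL (μ : Fin 4 → ℝ) (p a : Fin 4 → ℂ) (i : Fin 4) : ℂ :=
  ∑ j, ((μ j * wc p i j : ℝ) : ℂ) * (a i - a j)

/-- the twisted Laplacian -/
noncomputable def penaN (μ : Fin 4 → ℝ) (p b : Fin 4 → ℂ) (i : Fin 4) : ℂ :=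
  ∑ j, (μ j : ℂ) * ((wc p i j : ℂ) * ec p i j) * (b i - b j)

/-- the left sides of the pencil -/
noncomputable def penaP (μ : Fin 4 → ℝ) (p : Fin 4 → ℂ) (s : ℂ) :
    (Fin 4 → ℂ) × (Fin 4 → ℂ) →ₗ[ℂ] (Fin 4 → ℂ) × (Fin 4 → ℂ) where
  toFun v := (fun i => ((∑ j, μ j : ℝ) : ℂ) * (s + 1) ^ 2 * v.1 i +
      ∑ j, ((μ j * wc p i j : ℝ) : ℂ) *
        (1 / 2 * (v.1 i - v.1 j) + 3 / 2 * ec p i j * (v.2 i - v.2 j)),
    fun i => ((∑ j, μ j : ℝ) : ℂ) * (s - 1) ^ 2 * v.2 i + ∑ j, ((μ j * wc p i j : ℝ) : ℂ) *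
      (1 / 2 * (v.2 i - v.2 j) + 3 / 2 * conj (ec p i j) * (v.1 i - v.1 j)))
  map_add' v w := by
    refine Prod.ext (funext fun i => ?_) (funext fun i => ?_) <;>
      simp only [Fin.sum_univ_four, Prod.fst_add, Prod.snd_add, Pi.add_apply] <;> ring
  map_smul' c v := by
    refine Prod.ext (funext fun i => ?_) (funext fun i => ?_) <;>
      simp only [Fin.sum_univ_four, Prod.smul_fst, Prod.smul_snd, Pi.smul_apply, smul_eq_mul,
        RingHom.id_apply] <;> ring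

theorem pena_fst (μ : Fin 4 → ℝ) (p : Fin 4 → ℂ) (s : ℂ) (v) (i : Fin 4) :
    (penaP μ p s v).1 i = ((∑ j, μ j : ℝ) : ℂ) * (s + 1) ^ 2 * v.1 i +
      1 / 2 * penaL μ p v.1 i + 3 / 2 * penaN μ p v.2 i := by
  simp only [penaP, penaL, penaN, LinearMap.coe_mk, AddHom.coe_mk, Fin.sum_univ_four]
  push_cast
  ring

theorem pena_snd (μ : Fin 4 → ℝ) (p : Fin 4 → ℂ) (s : ℂ) (v) (i : Fin 4) :
    (penaP μ p s v).2 i = ((∑ j, μ j : ℝ) : ℂ) * (s - 1) ^ 2 * v.2 i +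
      1 / 2 * conj (penaL μ p (fun j => conj (v.2 j)) i) +
        3 / 2 * conj (penaN μ p (fun j => conj (v.1 j)) i) := by
  simp only [penaP, penaL, penaN, LinearMap.coe_mk, AddHom.coe_mk, Fin.sum_univ_four, map_add,
    map_mul, map_sub, conj_ofReal, conj_conj]
  push_cast
  ring

theorem pena_conj {μ : Fin 4 → ℝ} {p : Fin 4 → ℂ} (h : CCn μ p) (z c : ℂ) (i : Fin 4) :
    penaN μ p (fun j => conj ((p j - c) * z)) i = conj z * ∑ j, (μ j : ℂ) * (p i - p j) := by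
  have h1 := h i
  have h2 : ∀ j, (μ j : ℂ) * ((wc p i j : ℂ) * ec p i j) *
      (conj ((p i - c) * z) - conj ((p j - c) * z)) =
      -conj z * ((μ j : ℂ) * wc p i j * (p j - p i)) := fun j => by
    have h3 := ec_mul p i j
    simp only [map_mul, map_sub] at h3 ⊢
    linear_combination (-conj z * (μ j : ℂ) * wc p i j) * h3
  simp only [penaN, h2]
  simp only [Fin.sum_univ_four] at h1 ⊢
  push_cast at h1
  linear_combination conj z * h1

namespace Sol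

variable (S : Sol)

theorem pena_E : (S.E : ℂ) * S.ε ^ 3 = S.ε ^ 3 - 1 := by
  have h : (S.ε : ℂ) ≠ 0 := ofReal_ne_zero.2 S.hε.ne'
  rw [Par.E]
  push_cast
  field_simp

theorem pena_l0 : (S.m1 * S.u1 : ℂ) + S.m2 * S.u2 + S.ε ^ 3 * S.n3 + S.ε ^ 3 * S.n4 = 0 := by
  exact_mod_cast S.l0

theorem pena_lxi : (S.m2 * S.u2 : ℂ) + S.ε ^ 3 * S.n3 * S.xi3 + S.ε ^ 3 * S.n4 * S.xi4 = 0 := by
  rw [Val.xi4, Val.xi3]
  linear_combination S.ze * S.lq - S.q1 * S.ze * S.pena_l0 - S.m2 * S.u2 * S.ze_mul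

theorem pena_L (a : Fin 4 → ℂ) :
    penaL S.mass S.pts a 2 - penaL S.mass S.pts a 0 -
        S.xi3 * (penaL S.mass S.pts a 1 - penaL S.mass S.pts a 0) =
      (S.si + S.c3 * S.n3) * (a 2 - a 0 - S.xi3 * (a 1 - a 0)) +
        S.c3 * S.n4 * (a 3 - a 0 - S.xi4 * (a 1 - a 0)) ∧
    penaL S.mass S.pts a 3 - penaL S.mass S.pts a 0 -
        S.xi4 * (penaL S.mass S.pts a 1 - penaL S.mass S.pts a 0) =
      S.c4 * S.n3 * (a 2 - a 0 - S.xi3 * (a 1 - a 0)) +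
        (S.si + S.c4 * S.n4) * (a 3 - a 0 - S.xi4 * (a 1 - a 0)) := by
  have h23 : wc S.pts 2 3 = 1 - S.E := by rw [S.w23, Par.E]; ring
  simp only [penaL, Fin.sum_univ_four, sub_self, mul_zero, wc_symm _ 0 1, wc_symm _ 0 2,
    wc_symm _ 0 3, wc_symm _ 1 2, wc_symm _ 1 3, wc_symm _ 2 3, S.w01, S.w02, S.w03, S.w12, S.w13,
    h23]
  simp only [Val.mass, Matrix.cons_val, Par.S12, Par.S13, Par.S14, Par.S23, Par.S24, Val.si,
    Val.m3, Val.m4, Val.c3, Val.c4]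
  push_cast
  constructor
  · linear_combination (-S.E * (S.γ * a 2 - S.γ * S.u1 * a 0 -
        S.xi3 * (S.γ * S.u2 * a 1 - S.γ * S.u1 * a 0)) +
        S.E * (S.γ * (1 - S.u1 - (S.u2 - S.u1) * S.xi3)) * a 0) * S.pena_l0 +
      S.E * (S.γ * (1 - S.u1 - (S.u2 - S.u1) * S.xi3)) * (a 1 - a 0) * S.pena_lxi +
      S.γ * (1 - S.u1 - (S.u2 - S.u1) * S.xi3) * (S.n3 * (a 2 - a 0 - S.xi3 * (a 1 - a 0)) +
        S.n4 * (a 3 - a 0 - S.xi4 * (a 1 - a 0))) * S.pena_E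
  · linear_combination (-S.E * (a 3 - S.γ * S.u1 * a 0 -
        S.xi4 * (S.γ * S.u2 * a 1 - S.γ * S.u1 * a 0)) +
        S.E * (1 - S.γ * ((S.u2 - S.u1) * S.xi4 + S.u1)) * a 0) * S.pena_l0 +
      S.E * (1 - S.γ * ((S.u2 - S.u1) * S.xi4 + S.u1)) * (a 1 - a 0) * S.pena_lxi +
      (1 - S.γ * ((S.u2 - S.u1) * S.xi4 + S.u1)) * (S.n3 * (a 2 - a 0 - S.xi3 * (a 1 - a 0)) +
        S.n4 * (a 3 - a 0 - S.xi4 * (a 1 - a 0))) * S.pena_E

theorem pena_N (b : Fin 4 → ℂ) :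
    penaN S.mass S.pts b 2 - penaN S.mass S.pts b 0 -
        S.xi3 * (penaN S.mass S.pts b 1 - penaN S.mass S.pts b 0) =
      S.K33 * (b 2 - b 0 - conj S.xi3 * (b 1 - b 0)) +
        S.K34 * (b 3 - b 0 - conj S.xi4 * (b 1 - b 0)) ∧
    penaN S.mass S.pts b 3 - penaN S.mass S.pts b 0 -
        S.xi4 * (penaN S.mass S.pts b 1 - penaN S.mass S.pts b 0) =
      S.K43 * (b 2 - b 0 - conj S.xi3 * (b 1 - b 0)) +
        S.K44 * (b 3 - b 0 - conj S.xi4 * (b 1 - b 0)) := by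
  have hx : (fun j => conj ((S.pts j - S.q1) * S.ze)) = ![0, 1, conj S.xi3, conj S.xi4] := by
    funext j
    fin_cases j
    · simp [Val.pts]
    · simp [Val.pts, -map_mul, mul_comm _ S.ze, S.ze_mul]
    · simp [Val.pts, Val.xi3]
    · simp only [Val.pts, Val.xi4, Val.xi3, Fin.reduceFinMk, Matrix.cons_val]
      congr 1
      ring
  have h := fun i => pena_conj S.ccn S.ze S.q1 i
  rw [hx] at h
  have hz := S.ze_mul
  have k2 : penaN S.mass S.pts ![0, 1, conj S.xi3, conj S.xi4] 2 -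
      penaN S.mass S.pts ![0, 1, conj S.xi3, conj S.xi4] 0 -
      S.xi3 * (penaN S.mass S.pts ![0, 1, conj S.xi3, conj S.xi4] 1 -
        penaN S.mass S.pts ![0, 1, conj S.xi3, conj S.xi4] 0) = 0 := by
    rw [h 2, h 0, h 1]
    simp only [Fin.sum_univ_four, Val.pts, Matrix.cons_val, Val.xi3]
    linear_combination conj S.ze * S.q1 * (S.mass 0 + S.mass 1 + S.mass 2 + S.mass 3) * hz
  have k3 : penaN S.mass S.pts ![0, 1, conj S.xi3, conj S.xi4] 3 -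
      penaN S.mass S.pts ![0, 1, conj S.xi3, conj S.xi4] 0 -
      S.xi4 * (penaN S.mass S.pts ![0, 1, conj S.xi3, conj S.xi4] 1 -
        penaN S.mass S.pts ![0, 1, conj S.xi3, conj S.xi4] 0) = 0 := by
    rw [h 3, h 0, h 1]
    simp only [Fin.sum_univ_four, Val.pts, Matrix.cons_val, Val.xi4, Val.xi3]
    linear_combination conj S.ze * (S.q1 - S.ε) *
      (S.mass 0 + S.mass 1 + S.mass 2 + S.mass 3) * hz
  have h23 : (S.ε : ℂ) ^ 3 * wc S.pts 2 3 = 1 := by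
    have h : (S.ε : ℂ) ≠ 0 := ofReal_ne_zero.2 S.hε.ne'
    rw [S.w23]
    push_cast
    field_simp
  simp only [penaN, Fin.sum_univ_four, sub_self, mul_zero, wc_symm _ 0 1, wc_symm _ 0 2,
    wc_symm _ 0 3, wc_symm _ 1 2, wc_symm _ 1 3, wc_symm _ 2 3, ec_symm _ 0 1, ec_symm _ 0 2,
    ec_symm _ 0 3, ec_symm _ 1 2, ec_symm _ 1 3, ec_symm _ 2 3, S.e02, S.e03, S.e12, S.e13,
    S.e23] at k2 k3 ⊢
  simp only [Val.mass, Matrix.cons_val, Val.K33, Val.K34, Val.K43, Val.K44, Val.m3, Val.m4]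
    at k2 k3 ⊢
  push_cast at k2 k3 ⊢
  constructor
  · linear_combination (b 1 - b 0) * k2 + S.γ * S.n4 * (b 2 - b 3 -
      (conj S.xi3 - conj S.xi4) * (b 1 - b 0)) * h23
  · linear_combination (b 1 - b 0) * k3 + S.n3 * (b 3 - b 2 -
      (conj S.xi4 - conj S.xi3) * (b 1 - b 0)) * h23

/-- the projection to the quotient -/
noncomputable def penaQ (v : (Fin 4 → ℂ) × (Fin 4 → ℂ)) : Fin 4 → ℂ :=
  ![v.1 2 - v.1 0 - S.xi3 * (v.1 1 - v.1 0), v.1 3 - v.1 0 - S.xi4 * (v.1 1 - v.1 0),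
    v.2 2 - v.2 0 - conj S.xi3 * (v.2 1 - v.2 0), v.2 3 - v.2 0 - conj S.xi4 * (v.2 1 - v.2 0)]

theorem pena_comm (s : ℂ) (v) :
    S.penaQ (penaP S.mass S.pts s v) = (S.red s).mulVec (S.penaQ v) := by
  obtain ⟨a1, a2⟩ := S.pena_L v.1
  obtain ⟨a3, a4⟩ := S.pena_N v.2
  obtain ⟨b1, b2⟩ := S.pena_L fun j => conj (v.2 j)
  obtain ⟨b3, b4⟩ := S.pena_N fun j => conj (v.1 j)
  replace b1 := congrArg conj b1
  replace b2 := congrArg conj b2
  replace b3 := congrArg conj b3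
  replace b4 := congrArg conj b4
  simp only [map_add, map_sub, map_mul, conj_conj, conj_ofReal] at b1 b2 b3 b4
  funext i
  fin_cases i <;>
    simp only [penaQ, pena_fst, pena_snd, S.sum_mass, Val.red, Matrix.mulVec, dotProduct,
      Fin.sum_univ_four, Fin.reduceFinMk, Matrix.cons_val, Matrix.of_apply, Fin.zero_eta,
      Fin.mk_one, Fin.isValue]
  · linear_combination 1 / 2 * a1 + 3 / 2 * a3
  · linear_combination 1 / 2 * a2 + 3 / 2 * a4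
  · linear_combination 1 / 2 * b1 + 3 / 2 * b3
  · linear_combination 1 / 2 * b2 + 3 / 2 * b4

end Sol

theorem Sol.lift (S : Sol) {s : ℂ} (h : (S.red s).det = 0) :
    ∃ a b, ¬ (a = 0 ∧ b = 0) ∧ Pen S.mass S.pts s a b := by
  by_contra hc
  have h1 : Function.Injective (penaP S.mass S.pts s) :=
    (injective_iff_map_eq_zero _).2 fun v hv => by
      by_contra h0
      exact hc ⟨v.1, v.2, fun h2 => h0 (Prod.ext h2.1 h2.2),
        congrFun (congrArg Prod.fst hv), congrFun (congrArg Prod.snd hv)⟩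
  have h2 : Function.Surjective (S.red s).mulVec := fun y => by
    obtain ⟨v, hv⟩ := LinearMap.injective_iff_surjective.1 h1
      (![0, 0, y 0, y 1], ![0, 0, y 2, y 3])
    refine ⟨S.penaQ v, ?_⟩
    rw [← S.pena_comm, hv]
    funext i
    fin_cases i <;> simp [Sol.penaQ]
  exact ((Matrix.isUnit_iff_isUnit_det _).1
    (Matrix.mulVec_surjective_iff_isUnit.1 h2)).ne_zero h

theorem Sol.det_eq (S : Sol) (s : ℂ) : (S.red s).det =
    (S.si : ℂ) ^ 4 * s ^ 8 - S.si ^ 3 * S.E1 * s ^ 6 + S.si ^ 2 * S.E2 / 4 * s ^ 4 -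
      S.si * S.E3 / 4 * s ^ 2 + (-(9 / 2) * S.si * S.Xc.im : ℝ) * I * s + 9 * S.E4 / 16 := by
  have re2 : ∀ z : ℂ, (z.re : ℂ) = (z + conj z) / 2 := re_eq_add_conj
  have tr' : (S.n3 : ℂ) * conj S.c3 + S.n4 * conj S.c4 = S.T := by
    have := congrArg conj S.tr
    simpa only [map_add, map_mul, conj_ofReal] using this
  have hF : S.K33 * conj S.K33 + S.K44 * conj S.K44 + S.K34 * conj S.K43 + S.K43 * conj S.K34 =
      S.F := by
    simp only [Val.F, ofReal_add, ofReal_mul, ofReal_ofNat, re2, map_mul, conj_conj]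
    ring
  have hX : (S.n3 * S.K33 + S.n4 * S.K43) * (conj S.K33 * S.c3 + conj S.K34 * S.c4) +
      (S.n3 * S.K34 + S.n4 * S.K44) * (conj S.K43 * S.c3 + conj S.K44 * S.c4) =
      S.Xc.re + S.Xc.im * I := (re_add_im S.Xc).symm
  have hX' : (S.n3 * conj S.K33 + S.n4 * conj S.K43) * (S.K33 * conj S.c3 + S.K34 * conj S.c4) +
      (S.n3 * conj S.K34 + S.n4 * conj S.K44) * (S.K43 * conj S.c3 + S.K44 * conj S.c4) =
      S.Xc.re - S.Xc.im * I := by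
    have := congrArg conj hX
    simpa only [map_add, map_mul, conj_ofReal, conj_conj, conj_I, mul_neg, ← sub_eq_add_neg]
      using this
  have hy : ((S.n3 * S.K33 + S.n4 * S.K43) * conj S.c3 + (S.n3 * S.K34 + S.n4 * S.K44) * conj S.c4) *
      ((S.n3 * conj S.K33 + S.n4 * conj S.K43) * S.c3 +
        (S.n3 * conj S.K34 + S.n4 * conj S.K44) * S.c4) = (S.yy * conj S.yy).re := by
    simp only [re2, Val.yy, Val.ρ3, Val.ρ4, map_add, map_mul, conj_ofReal, conj_conj]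
    ring
  have hd : (S.K33 * S.K44 - S.K34 * S.K43) * (conj S.K33 * conj S.K44 - conj S.K34 * conj S.K43) =
      (S.dt * conj S.dt).re := by
    simp only [re2, Val.dt, map_sub, map_mul, conj_conj]
    ring
  rw [Val.red, det_red _ _ _ _ _ _ _ _ _ _ _ _ _ _ _ _ _ S.tr tr', hF, hX, hX', hy, hd, Val.E1, Val.E2,
    Val.E3, Val.E4, Val.B0]
  generalize (S.yy * conj S.yy).re = y
  generalize (S.dt * conj S.dt).re = d
  push_cast
  ring

theorem Sol.facts (S : Sol) : 0 ≤ S.E1 ∧ 0 ≤ S.E2 ∧ 2 * S.E2 ≤ 3 * S.E1 ^ 2 ∧ 0 ≤ S.E3 ∧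
    6 * S.E3 ≤ S.E1 * S.E2 ∧ 9 * (S.E1 * S.E3) ≤ S.E2 ^ 2 ∧ 0 ≤ S.E4 :=
  quartic S.hσ S.si_pos fun s hs => by
    obtain ⟨a, b, h1, h2⟩ := S.lift (s := s) (by rw [S.det_eq]; exact hs)
    exact S.st s a b h1 h2

end Pool.Agent.MP_4948b4_mp.N4
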