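import Pool.Agent.MP_4948b4_mp.N4.RT
import Pool.Agent.MP_4948b4_mp.N4.Base

/-! Soundness of the real Taylor model operations. -/

namespace Pool.Agent.MP_4948b4_mp.N4

open Pool.Agent.Sok Pool.Agent.Sok.TMI ComplexConjugate

variable {x : Pt} {a b : TM} {z w : ℝ} {u v : ℂ} {k : TM → Bool}

theorem R.cg (h : R x a z) (e : z = w) : R x a w := e ▸ h
theorem Rep.cg' (h : Rep x a u) (e : u = v) : Rep x a v := e ▸ h
theorem sv_sq (b : Bool) : sv b * sv b = 1 := by cases b <;> simp [sv]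
theorem grd_ok {b r : Bool} (h : grd b r = true) : b = true ∧ r = true := by
  cases b <;> simp_all [grd]
theorem bnd_ok (h : bnd a k = true) : ∃ c, k c = true ∧ c = a := ⟨a, h, rfl⟩

theorem rs_cps {P : TM → Prop} {F : (TM → Bool) → Bool} (t : TM) (hF : ∀ k, F k = k t)
    (h : ∀ k, F k = true → ∃ c, k c = true ∧ P c) : P t := by
  classical
  obtain ⟨c, h1, h2⟩ := h (fun c => decide (c = t)) (by rw [hF]; exact decide_eq_true rfl)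
  exact of_decide_eq_true h1 ▸ h2
theorem rs_of {Z W e s : ℕ}
    (h : s < 2 ^ 51 → ∃ c, Pk Z c ∧ l1 c ≤ s ∧ |2 ^ 28 * z - ev x c| ≤ (e : ℝ)) :
    R x ⟨Z, W, e, s⟩ z := tml_rep fun hl => by
  obtain ⟨c, k1, k2, k3⟩ := h hl
  refine ⟨c, _, k1, tml_zero, by rwa [l1_zero, add_zero], ?_⟩
  rw [evC_real, show 2 ^ 28 * (z : ℂ) - (ev x c : ℝ) = ((2 ^ 28 * z - ev x c : ℝ) : ℂ) by
    push_cast; rfl, Complex.norm_real]
  exact k3
theorem rs_re (h : Rep x a u) (hl : a.4 < 2 ^ 51) :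
    ∃ c, Pk a.1 c ∧ l1 c ≤ a.4 ∧ |2 ^ 28 * u.re - ev x c| ≤ (a.3 : ℝ) := by
  obtain ⟨c, d, k1, -, k3, k4⟩ := h hl
  exact ⟨c, k1, by linarith [l1_nonneg d], tmn_re k4⟩
theorem rs_to (h : R x a z) (hl : a.4 < 2 ^ 51) :
    ∃ c, Pk a.1 c ∧ l1 c ≤ a.4 ∧ |2 ^ 28 * z - ev x c| ≤ (a.3 : ℝ) := rs_re (a := nz a) h hl
theorem rs_ca (ha : Rep x a u) (hb : Rep x b v) : Rep x (ca a b) (u + v) :=
  rs_cps (F := TM.add a b) (ca a b) (fun _ => rfl) (fun _ h => TM.add_ok h) x u v ha hb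
theorem rs_cs (ha : Rep x a u) (hb : Rep x b v) : Rep x (cs a b) (u - v) :=
  rs_cps (F := TM.sub a b) (cs a b) (fun _ => rfl) (fun _ h => TM.sub_ok h) x u v ha hb
theorem rs_cg (ha : Rep x a u) : Rep x (cg a) (-u) :=
  rs_cps (F := TM.neg a) (cg a) (fun _ => rfl) (fun _ h => TM.neg_ok h) x u ha
theorem R_re (h : Rep x a u) : R x a u.re := rs_of (W := cH) (rs_re h)
theorem R_nz (h : Rep x a u) : R x (nz a) u.re := rs_of (W := cH) (rs_re h)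
theorem R_ra (ha : R x a z) (hb : R x b w) : R x (ra a b) (z + w) :=
  R.cg (rs_of (rs_re (rs_ca ha hb))) (by simp)
theorem R_rs (ha : R x a z) (hb : R x b w) : R x (rs a b) (z - w) :=
  R.cg (rs_of (rs_re (rs_cs ha hb))) (by simp)
theorem R_rn (ha : R x a z) : R x (rn a) (-z) :=
  R.cg (rs_of (rs_re (rs_cg ha))) (by simp)
theorem R_rk (ha : R x a z) (m : ℕ) : R x (rk a m) (m * z) := by
  have h := rs_cps (F := TM.nmul (nz a) (Int.ofNat m)) ⟨_, _, _, _⟩ (fun _ => rfl)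
    (fun _ h => TM.nmul_ok h) x z ha
  exact R.cg (rs_of (rs_re h)) (by simp [mul_comm])
theorem R_ru (ha : R x a z) (n : ℕ) : R x (ru a n) (z + n / 2 ^ 28) := by
  have h := rs_cps (F := addN (nz a) n) ⟨_, _, _, _⟩ (fun _ => rfl) (fun _ h => addN_ok h) x z ha
  exact Rep.cg' h (by push_cast; rfl)
theorem R_rd (ha : R x a z) (n : ℕ) : R x (rd a n) (z - n / 2 ^ 28) := by
  have h := rs_cps (F := subN (nz a) n) ⟨_, _, _, _⟩ (fun _ => rfl) (fun _ h => subN_ok h) x z ha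
  exact Rep.cg' h (by push_cast; rfl)
theorem R_ro (ha : R x a z) (n : ℕ) : R x (ro a n) (z + (n - 2 ^ 32) / 2 ^ 28) := by
  have e : ro a n = rd (ru a n) 4294967296 :=
    congrArg (TM.mk _ _ _) (Nat.add_assoc a.4 n 4294967296).symm
  rw [e]
  exact (R_rd (R_ru ha n) _).cg (by push_cast; ring)
theorem R_om (ha : R x a z) : R x (om a) (1 - z) := rs_of fun hl => by
  have hl' : a.4 + 268435456 < 2 ^ 51 := hl
  obtain ⟨c, k1, k2, k3⟩ := rs_to ha (by omega)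
  have h1 := l1_sub (sgl 0 268435456) c
  rw [l1_sgl tml_gd0, abs_of_nonneg (by norm_num)] at h1
  have h2 : l1 (fun n => sgl 0 268435456 n - c n) ≤ (Nat.add a.4 268435456 : ℕ) := by
    rw [Nat.add_eq, Nat.cast_add, Nat.cast_ofNat]
    linarith
  refine ⟨_, Pk.of_sub (fun n hn => ?_) (tml_lt h2 hl) ?_, h2, ?_⟩
  · rw [sp_sgl tml_gd0 _ n hn, k1.1 n hn, sub_zero]
  · rw [pv_sub, pv_sgl tml_gd0, k1.2, Nat.add_eq, Nat.cast_add cH2, cH2_eq, Nat.cast_mul 2,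
      Nat.cast_ofNat, Nat.cast_ofNat]
    generalize (cH : ℤ) = H
    ring
  · rw [ev_sub, ev_sgl x tml_gd0, mon_zero, abs_sub_comm]
    refine le_trans (le_of_eq (congrArg abs ?_)) k3
    push_cast
    ring
theorem R_rz : R x rz 0 :=
  rs_of fun _ => ⟨_, tml_zero, by simp [l1_zero], by simp [ev_zero]⟩
theorem R_sg (f : Bool) (ha : R x a z) : R x (sg f a) (sv f * z) := by
  cases f
  · exact R.cg ha (one_mul z).symm
  · exact R.cg (R_rn ha) (neg_one_mul z).symm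
theorem R_s3 (n : ℕ) (ha : R x a z) : ∃ w, R x (s3 n a) w := by
  unfold s3
  cases Nat.beq n 0
  · exact ⟨_, R_sg _ ha⟩
  · exact ⟨_, R_rz⟩
theorem R_rv (i : ℕ) {lo hi : ℕ} (h : lo ≤ hi) : R x (rv i lo hi) (vv lo hi (x.get i)) := by
  refine rs_of fun hl => ?_
  obtain ⟨j, j1, j2, -, j4⟩ := mon_var x i
  obtain ⟨q, rfl⟩ := Nat.exists_eq_add_of_le h
  have e1 : Nat.sub (lo + q) lo = q := Nat.add_sub_cancel_left ..
  rw [e1] at hl ⊢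
  obtain ⟨p, hp⟩ : ∃ p, p = Nat.add lo (lo + q) := ⟨_, rfl⟩
  have hp' : (p : ℝ) = lo + (lo + q) := by rw [hp, Nat.add_eq]; push_cast; rfl
  rw [← hp] at hl ⊢
  have hs : |(p : ℤ)| + |Int.ofNat q| ≤ (Nat.add p q : ℕ) := by simp
  have b1 := tml_l1 (fun _ => 0) tml_gd0 p
  rw [l1_zero, zero_add] at b1
  have k1 := tml_shA cH p _ tml_zero
    (tml_lt (by rw [l1_zero]; linarith [abs_nonneg (Int.ofNat q)]) hl)
  rw [j1]
  refine ⟨_, tml_addAt k1 j2 (Int.ofNat q) (tml_lt (by linarith) hl),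
    by linarith [tml_l1 (fun n => 0 + sgl 0 p n) j2 (Int.ofNat q)], le_of_eq ?_⟩
  have e2 := ev_add x (fun n => 0 + sgl 0 p n) (sgl j (Int.ofNat q))
  have e3 := ev_add x (fun _ => 0) (sgl 0 p)
  rw [e2, e3, ev_zero, ev_sgl x tml_gd0, ev_sgl x j2, mon_zero, j4, vv, Nat.cast_zero, abs_eq_zero,
    Int.ofNat_eq_natCast, Int.cast_natCast, Int.cast_natCast, hp', Nat.cast_add]
  ring
theorem R_rpoly (Z : ℕ) : ∃ f : ℝ → ℝ → ℝ → ℝ, ∀ x : Pt, R x (rpoly Z) (f x.x0 x.x1 x.x2) := by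
  obtain ⟨c, hc, hb⟩ := sel0_any Z
  obtain ⟨f, hf⟩ := ev_s0_fun c
  refine ⟨fun s t u => f s t u / 2 ^ 28, fun x => rs_of fun _ =>
    ⟨_, hc, (tmn_r0 (a := ⟨sel0 Z, 0, 0, 0⟩) hc hb).1, ?_⟩⟩
  rw [hf, mul_div_cancel₀ _ (by norm_num), sub_self, abs_zero]
  exact Nat.cast_nonneg _
theorem exists_vv {lo hi : ℕ} {t : ℝ} (h1 : lo / 2 ^ 27 ≤ t) (h2 : t ≤ hi / 2 ^ 27) :
    ∃ y, |y| ≤ 1 ∧ vv lo hi y = t := by
  rcases (h1.trans h2).eq_or_lt with e | e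
  · refine ⟨0, by simp, ?_⟩
    unfold vv
    linarith
  · have hd : (0 : ℝ) < hi - lo := by linarith
    refine ⟨(2 ^ 28 * t - lo - hi) / (hi - lo), ?_, ?_⟩
    · rw [abs_le, le_div_iff₀ hd, div_le_iff₀ hd]
      constructor <;> linarith
    · unfold vv
      field_simp
      ring
theorem C_mkc (ha : R x a z) (hb : R x b w) : Rep x (mkc a b) (z + w * Complex.I) := tml_rep fun hl => by
  have hl' : a.4 + b.4 < 2 ^ 51 := hl
  obtain ⟨c, k1, k2, k3⟩ := rs_to ha (by omega)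
  obtain ⟨d, m1, m2, m3⟩ := rs_to hb (by omega)
  refine ⟨c, d, k1, m1, by rw [Nat.add_eq, Nat.cast_add]; exact add_le_add k2 m2, ?_⟩
  have e : 2 ^ 28 * (z + w * Complex.I) - evC x c d =
      ((2 ^ 28 * z - ev x c : ℝ) : ℂ) + ((2 ^ 28 * w - ev x d : ℝ) : ℂ) * Complex.I := by
    rw [evC]
    push_cast
    ring
  rw [e, Nat.add_eq, Nat.cast_add]
  refine (norm_add_le _ _).trans (add_le_add ?_ ?_)
  · rwa [Complex.norm_real]
  · rwa [norm_mul, Complex.norm_I, mul_one, Complex.norm_real]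
theorem C_ca (ha : Rep x a u) (hb : Rep x b v) : Rep x (ca a b) (u + v) := rs_ca ha hb
theorem C_cs (ha : Rep x a u) (hb : Rep x b v) : Rep x (cs a b) (u - v) := rs_cs ha hb
theorem C_cj (ha : Rep x a u) : Rep x (cj a) (conj u) :=
  rs_cps (F := TM.conj a) (cj a) (fun _ => rfl) (fun _ h => TM.conj_ok h) x u ha
theorem C_cg (ha : Rep x a u) : Rep x (cg a) (-u) := rs_cg ha
theorem C_car (ha : Rep x a u) (hb : R x b w) : Rep x (car a b) (u + w) := by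
  have h := rs_ca ha hb
  have e : Nat.sub (Nat.add a.2 cH) cH = a.2 := Nat.add_sub_cancel ..
  change Rep x ⟨_, Nat.sub (Nat.add a.2 cH) cH, _, _⟩ _ at h
  rw [e] at h
  exact h
theorem C_csr (ha : Rep x a u) (hb : R x b w) : Rep x (csr a b) (u - w) := by
  have h := rs_cs ha hb
  have e : Nat.sub (Nat.add a.2 cH) cH = a.2 := Nat.add_sub_cancel ..
  change Rep x ⟨_, Nat.sub (Nat.add a.2 cH) cH, _, _⟩ _ at h
  rw [e] at h
  exact h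
theorem mRR_ok (h : mulRR a b k = true) :
    ∃ c, k c = true ∧ ∀ x z w, R x a z → R x b w → R x c (z * w) := by
  obtain ⟨c, h1, h2⟩ := mulRR_ok (a := nz a) (b := nz b) (k := k) rfl rfl h
  exact ⟨c, h1, fun x z w hz hw => (R_re (h2 x _ _ hz hw)).cg (by simp)⟩
theorem mRC_ok (h : mulRC a b k = true) :
    ∃ c, k c = true ∧ ∀ x (z : ℝ) u, R x a z → Rep x b u → Rep x c (z * u) := by
  obtain ⟨c, h1, h2⟩ := mulRC_ok (a := nz a) (b := b) (k := k) rfl h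
  exact ⟨c, h1, fun x z w hz hw => h2 x _ _ hz hw⟩
theorem smp_ok {p : ℕ} (h : smp a p k = true) :
    ∃ c, k c = true ∧ ∀ x z, R x a z → R x c (z * (p / 2 ^ 28)) := by
  obtain ⟨c, h1, h2⟩ := smP_ok (a := nz a) h
  refine ⟨c, h1, fun x z hz => (R_re (h2 x _ ((z * (p / 2 ^ 28) : ℝ) : ℂ) hz fun _ => ?_)).cg
    (Complex.ofReal_re _)⟩
  rw [show 2 ^ 28 * ((z * (p / 2 ^ 28) : ℝ) : ℂ) - z * p = 0 by push_cast; ring, norm_zero,
    mul_zero, Nat.cast_zero]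
theorem rinv_ok (h : rinv a k = true) :
    ∃ c, k c = true ∧ ∀ x z, R x a z → z ≠ 0 ∧ R x c z⁻¹ := by
  obtain ⟨c, h1, h2⟩ := TM.inv_ok (a := nz a) h
  refine ⟨c, h1, fun x z hz => ⟨fun e => (h2 x _ hz).1 (by rw [e]; rfl), ?_⟩⟩
  exact (R_re (h2 x _ hz).2).cg (by rw [← Complex.ofReal_inv, Complex.ofReal_re])
theorem pos_ok (h : pos a = true) (ha : R x a z) : 0 < z := by
  have e (k : ℤ → Bool) : TM.lo a k = TM.lo (nz a) k := by cases a; rfl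
  rw [pos, e] at h
  obtain ⟨r, h1, h2⟩ := TM.lo_ok h
  refine lt_of_lt_of_le ?_ (h2 x _ ha)
  clear h h2 e
  rcases r with n | n
  · have : 1 ≤ n := Nat.le_of_ble_eq_true h1
    unfold toR
    simp only [Int.ofNat_eq_natCast, Int.cast_natCast]
    exact div_pos (Nat.cast_pos.2 this) (by norm_num)
  · exact absurd h1 Bool.false_ne_true
theorem comb_ok {l : List TM} {n : ℕ} (h : comb l n a = true) (hl : ∀ c ∈ l, NP x c)
    (ha : NP x a) : False := by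
  have hp : ∀ a, NP x a → pos a = true → False := fun a ⟨z, h1, h2⟩ h =>
    absurd (pos_ok h h1) (not_lt.2 h2)
  induction l generalizing n a with
  | nil => exact hp a ha h
  | cons c l ih =>
    have e : comb (c :: l) n a = Bool.rec (motive := fun _ => Bool)
        (comb l (Nat.shiftRight n 20) (Bool.rec (motive := fun _ => TM)
          (ra a (rk c (Nat.land n 1048575))) a (Nat.beq (Nat.land n 1048575) 0)))
        (pos a) (Nat.beq n 0) := rfl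
    rw [e] at h
    revert h
    cases Nat.beq n 0
    · intro h
      refine ih h (fun d hd => hl d (List.mem_cons_of_mem _ hd)) ?_
      cases Nat.beq (Nat.land n 1048575) 0
      · obtain ⟨z, h1, h2⟩ := ha
        obtain ⟨w, h3, h4⟩ := hl c List.mem_cons_self
        exact ⟨_, R_ra h1 (R_rk h3 _),
          add_nonpos h2 (mul_nonpos_of_nonneg_of_nonpos (Nat.cast_nonneg _) h4)⟩
      · exact ha
    · exact hp a ha

theorem rs2_pw {z : ℝ} (h : |z| ≤ 1 / 2) (n : ℕ) : -(1 / 2) ^ n ≤ z ^ n ∧ z ^ n ≤ (1 / 2) ^ n :=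
  abs_le.1 (by rw [abs_pow]; exact pow_le_pow_left₀ (abs_nonneg _) h n)

theorem rs2_cube {z r : ℝ} (h : |z| ≤ 1 / 2) (e : r ^ 3 * (1 + z) = 1) :
    |r - (1 - z / 3 + 2 / 9 * z ^ 2 - 14 / 81 * z ^ 3)| ≤ 9 * z ^ 4 / 32 := by
  obtain ⟨a1, b1⟩ := abs_le.1 h
  obtain ⟨a2, b2⟩ := rs2_pw h 2
  obtain ⟨a3, b3⟩ := rs2_pw h 3
  obtain ⟨a4, b4⟩ := rs2_pw h 4
  obtain ⟨a5, b5⟩ := rs2_pw h 5
  obtain ⟨a6, b6⟩ := rs2_pw h 6
  obtain ⟨a7, b7⟩ := rs2_pw h 7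
  obtain ⟨a8, b8⟩ := rs2_pw h 8
  obtain ⟨a9, b9⟩ := rs2_pw h 9
  have h4 : 0 ≤ z ^ 4 := by positivity
  have hz : 0 < 1 + z := by linarith
  have o : Odd 3 := by decide
  have l1 : (1 - z / 3 + 2 / 9 * z ^ 2 - 14 / 81 * z ^ 3) ^ 3 ≤ r ^ 3 := by
    refine le_of_mul_le_mul_right ?_ hz
    have q : 0 ≤ 35 / 81 - 56 / 243 * z + 350 / 2187 * z ^ 2 - 800 / 6561 * z ^ 3 +
        700 / 19683 * z ^ 4 - 7840 / 531441 * z ^ 5 + 2744 / 531441 * z ^ 6 := by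
      norm_num at *
      linarith
    have := mul_nonneg h4 q
    rw [e]
    linarith
  have l2 : r ^ 3 ≤ (1 - z / 3 + 2 / 9 * z ^ 2 - 14 / 81 * z ^ 3 + 9 * z ^ 4 / 32) ^ 3 := by
    refine le_of_mul_le_mul_right ?_ hz
    have q : 0 ≤ 1067 / 2592 + 3979 / 7776 * z - 17761 / 69984 * z ^ 2 + 36535 / 209952 * z ^ 3 -
        1532551 / 20155392 * z ^ 4 + 67216193 / 272097792 * z ^ 5 - 38713835 / 544195584 * z ^ 6 +
        2297 / 62208 * z ^ 7 - 615 / 32768 * z ^ 8 + 729 / 32768 * z ^ 9 := by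
      norm_num at *
      linarith
    have := mul_nonneg h4 q
    rw [e]
    linarith
  rw [o.pow_le_pow] at l1 l2
  exact abs_le.2 ⟨by linarith, by linarith⟩

theorem rs2_sq {z r : ℝ} (h : |z| ≤ 1 / 2) (hr : 0 < r) (e : r ^ 2 * (1 + z) = 1) :
    |r - (1 - z / 2 + 3 / 8 * z ^ 2 - 5 / 16 * z ^ 3)| ≤ 17 * z ^ 4 / 32 := by
  obtain ⟨a1, b1⟩ := abs_le.1 h
  obtain ⟨a2, b2⟩ := rs2_pw h 2
  obtain ⟨a3, b3⟩ := rs2_pw h 3
  obtain ⟨a4, b4⟩ := rs2_pw h 4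
  obtain ⟨a5, b5⟩ := rs2_pw h 5
  have h2 : 0 ≤ z ^ 2 := by positivity
  have h4 : 0 ≤ z ^ 4 := by positivity
  have hz : 0 < 1 + z := by linarith
  have l1 : (1 - z / 2 + 3 / 8 * z ^ 2 - 5 / 16 * z ^ 3) ^ 2 ≤ r ^ 2 := by
    refine le_of_mul_le_mul_right ?_ hz
    have q : 0 ≤ 35 / 64 - 7 / 32 * z + 35 / 256 * z ^ 2 - 25 / 256 * z ^ 3 := by
      norm_num at *
      linarith
    have := mul_nonneg h4 q
    rw [e]
    linarith
  have l2 : r ^ 2 ≤ (1 - z / 2 + 3 / 8 * z ^ 2 - 5 / 16 * z ^ 3 + 17 * z ^ 4 / 32) ^ 2 := by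
    refine le_of_mul_le_mul_right ?_ hz
    have q : 0 ≤ 33 / 64 + 3 / 4 * z - 69 / 256 * z ^ 2 + 21 / 128 * z ^ 3 - 51 / 1024 * z ^ 4 +
        289 / 1024 * z ^ 5 := by
      norm_num at *
      linarith
    have := mul_nonneg h4 q
    rw [e]
    linarith
  have p : 0 ≤ 1 - z / 2 + 3 / 8 * z ^ 2 - 5 / 16 * z ^ 3 + 17 * z ^ 4 / 32 := by
    norm_num at *
    linarith
  have m1 := le_of_pow_le_pow_left₀ two_ne_zero hr.le l1
  have m2 := le_of_pow_le_pow_left₀ two_ne_zero p l2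
  exact abs_le.2 ⟨by linarith, by linarith⟩

theorem rs2_dv (hs : a.4 < 2 ^ 51) (h : R x a z) : 2 ^ 28 * |z| ≤ (Nat.add (r0 a) a.3 : ℕ) := by
  have h1 := dv_ok (a := nz a) hs h
  have e : dv (nz a) = Nat.add (r0 a) a.3 := by
    have e1 : Nat.beq (nz a).2 cH = true := Nat.beq_refl cH
    unfold dv
    rw [e1]
    rfl
  rwa [e, Complex.norm_real, Real.norm_eq_abs] at h1

theorem rs2_wid (h : R x a z) {n : ℕ} (hw : 2 ^ 28 * |w - z| ≤ n) :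
    R x ⟨a.1, cH, Nat.add a.3 n, a.4⟩ w := fun hl => by
  obtain ⟨c, d, k1, k2, k3, k4⟩ := h hl
  refine ⟨c, d, k1, k2, k3, ?_⟩
  have e : 2 ^ 28 * (w : ℂ) - evC x c d = (2 ^ 28 * (z : ℂ) - evC x c d) + ((2 ^ 28 * (w - z) : ℝ) : ℂ) := by
    push_cast
    ring
  have k5 : ‖2 ^ 28 * (z : ℂ) - evC x c d‖ ≤ (a.3 : ℝ) := k4
  have k6 : ‖((2 ^ 28 * (w - z) : ℝ) : ℂ)‖ ≤ n := by
    rwa [Complex.norm_real, Real.norm_eq_abs, abs_mul, abs_of_pos (by positivity : (0 : ℝ) < 2 ^ 28)]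
  show _ ≤ ((a.3 + n : ℕ) : ℝ)
  rw [e, Nat.cast_add]
  exact (norm_add_le _ _).trans (add_le_add k5 k6)

theorem rs2_err {kk D : ℕ} {t : ℝ} (hD : 2 ^ 28 * |z| ≤ D) (ht : |t| ≤ kk * z ^ 4 / 32 + 3 / 2 ^ 28) :
    2 ^ 28 * |t| ≤ (Nat.add 4 (Nat.shiftRight (Nat.mul kk (Nat.pow D 4)) 89) : ℕ) := by
  have h1 : (2 ^ 28 * |z|) ^ 4 ≤ (D : ℝ) ^ 4 := pow_le_pow_left₀ (by positivity) hD 4
  rw [mul_pow, ← abs_pow, abs_of_nonneg (by positivity : 0 ≤ z ^ 4)] at h1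
  have h2 : kk * D ^ 4 < 2 ^ 89 * (kk * D ^ 4 / 2 ^ 89 + 1) := Nat.lt_mul_div_succ _ (by positivity)
  have h3 : ((kk * D ^ 4 : ℕ) : ℝ) < (2 ^ 89 * (kk * D ^ 4 / 2 ^ 89 + 1) : ℕ) := Nat.cast_lt.2 h2
  have e : Nat.add 4 (Nat.shiftRight (Nat.mul kk (Nat.pow D 4)) 89) = 4 + kk * D ^ 4 / 2 ^ 89 :=
    congrArg (4 + ·) (Nat.shiftRight_eq_div_pow _ 89)
  rw [e]
  generalize kk * D ^ 4 / 2 ^ 89 = q at h3
  push_cast at h3 ⊢
  have h4 := mul_le_mul_of_nonneg_left h1 (Nat.cast_nonneg kk : (0 : ℝ) ≤ kk)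
  nlinarith only [h3, h4, ht]

theorem rs2_rnd {z : ℝ} (h : |z| ≤ 1 / 2) {r p1 p2 p3 c1 c2 c3 K : ℝ} (h1 : |p1 - c1| ≤ 1 / 2 ^ 28)
    (h2 : |p2 - c2| ≤ 1 / 2 ^ 28) (h3 : |p3 - c3| ≤ 1 / 2 ^ 28)
    (hr : |r - (1 - p1 * z + p2 * z ^ 2 - p3 * z ^ 3)| ≤ K) :
    |r - (1 + z * (-c1 + z * (c2 - c3 * z)))| ≤ K + 3 / 2 ^ 28 := by
  have b (n : ℕ) {t : ℝ} (ht : |t| ≤ 1 / 2 ^ 28) : |t * z ^ n| ≤ 1 / 2 ^ 28 := by
    rw [abs_mul, abs_pow]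
    exact (mul_le_of_le_one_right (abs_nonneg _)
      (pow_le_one₀ (abs_nonneg _) (h.trans (by norm_num)))).trans ht
  obtain ⟨a1, b1⟩ := abs_le.1 (b 1 h1)
  obtain ⟨a2, b2⟩ := abs_le.1 (b 2 h2)
  obtain ⟨a3, b3⟩ := abs_le.1 (b 3 h3)
  obtain ⟨a4, b4⟩ := abs_le.1 hr
  exact abs_le.2 ⟨by linarith, by linarith⟩

theorem ser_ok {c1 c2 c3 kk y : ℕ} (h : ser a c1 c2 c3 kk y k = true) :
    ∃ c, k c = true ∧ ∀ x z, R x a z → |z| ≤ 1 / 2 ∧ ∀ w, |w - (1 + z * (-(c1 / 2 ^ 28) +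
      z * (c2 / 2 ^ 28 - c3 / 2 ^ 28 * z)))| ≤ kk * z ^ 4 / 32 + 3 / 2 ^ 28 →
      R x c (w * (y / 2 ^ 28)) := by
  obtain ⟨s1, h, r1⟩ := smp_ok h
  have hs := (tmm_guard h).2.1
  obtain ⟨s2, h, r2⟩ := mRR_ok h
  obtain ⟨s3, h, r3⟩ := mRR_ok h
  obtain ⟨g, h⟩ := grd_ok h
  obtain ⟨c, h, r4⟩ := smp_ok h
  refine ⟨c, h, fun x z hz => ?_⟩
  have d := rs2_dv hs hz
  have g1 : ((Nat.add (r0 a) a.3 : ℕ) : ℝ) ≤ (134217728 : ℕ) :=
    Nat.cast_le.2 (Nat.le_of_ble_eq_true g)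
  refine ⟨by push_cast at g1; linarith [d.trans g1], fun w hw => r4 x w ?_⟩
  have q := R_ru (r3 x _ _ (R_rd (r2 x _ _ (R_ru (R_rn (r1 x z hz)) c2) hz) c1) hz) 268435456
  refine rs2_wid q (rs2_err d (le_of_eq_of_le (congrArg _ ?_) hw))
  push_cast
  ring

theorem cbi_ok {y : ℕ} (h : cbi a y k = true) :
    ∃ c, k c = true ∧ ∀ x z, R x a z → 0 < z ∧ R x c (cr z) := by
  obtain ⟨s, h, r1⟩ := smp_ok h
  obtain ⟨c, h, r2⟩ := ser_ok h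
  refine ⟨c, h, fun x z hz => ?_⟩
  obtain ⟨h1, h2⟩ := r2 x _ (R_rd (r1 x z hz) 268435456)
  have e1 : ((Nat.mul 2 (Nat.pow y 3) : ℕ) : ℝ) = 2 * (y : ℝ) ^ 3 := by
    show ((2 * y ^ 3 : ℕ) : ℝ) = _
    push_cast
    rfl
  have e2 : ((Nat.shiftLeft y 19 : ℕ) : ℝ) = y * 2 ^ 19 := by
    show ((y <<< 19 : ℕ) : ℝ) = _
    rw [Nat.shiftLeft_eq]
    push_cast
    norm_num
  rw [e1] at h1 h2
  rw [e2] at h2
  generalize ht : z * (2 * (y : ℝ) ^ 3 / 2 ^ 28) - ((268435456 : ℕ) : ℝ) / 2 ^ 28 = t at h1 h2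
  have e3 : 1 + t = z * ((y : ℝ) / 2 ^ 9) ^ 3 := by
    rw [← ht]
    push_cast
    ring
  have p1 : 0 < 1 + t := by linarith [(abs_le.1 h1).1]
  have y0 : (0 : ℝ) < y / 2 ^ 9 := by
    refine lt_of_le_of_ne (by positivity) fun h0 => ?_
    rw [e3, ← h0] at p1
    norm_num at p1
  have z0 : 0 < z := by
    rw [e3] at p1
    exact (mul_pos_iff_of_pos_right (pow_pos y0 3)).1 p1
  refine ⟨z0, (h2 (cr (1 + t)) ?_).cg ?_⟩
  · have := rs2_cube h1 (cr_cube p1)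
    refine rs2_rnd h1 (p1 := 1 / 3) (p2 := 2 / 9) (p3 := 14 / 81) ?_ ?_ ?_
      (le_of_eq_of_le (congrArg _ (by ring)) (this.trans (le_of_eq (by push_cast; ring))))
    all_goals
      rw [abs_le]
      norm_num
  · refine (cr_eq (mul_pos (cr_pos p1) (by linarith)) ?_).symm
    have := cr_cube p1
    rw [e3] at this ⊢
    linear_combination this

theorem rsq_ok {y : ℕ} (h : rsq a y k = true) :
    ∃ c, k c = true ∧ ∀ x z, R x a z → 0 < z ∧ ∃ r, 0 < r ∧ r ^ 2 * z = 1 ∧ R x c r := by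
  obtain ⟨s, h, r1⟩ := smp_ok h
  obtain ⟨c, h, r2⟩ := ser_ok h
  refine ⟨c, h, fun x z hz => ?_⟩
  obtain ⟨h1, h2⟩ := r2 x _ (R_rd (r1 x z hz) 268435456)
  have e1 : ((Nat.mul y y : ℕ) : ℝ) = (y : ℝ) * y := Nat.cast_mul y y
  have e2 : ((Nat.shiftLeft y 14 : ℕ) : ℝ) = y * 2 ^ 14 := by
    show ((y <<< 14 : ℕ) : ℝ) = _
    rw [Nat.shiftLeft_eq]
    push_cast
    norm_num
  rw [e1] at h1 h2
  rw [e2] at h2
  generalize ht : z * ((y : ℝ) * y / 2 ^ 28) - ((268435456 : ℕ) : ℝ) / 2 ^ 28 = t at h1 h2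
  have e3 : 1 + t = z * ((y : ℝ) / 2 ^ 14) ^ 2 := by
    rw [← ht]
    push_cast
    ring
  have p1 : 0 < 1 + t := by linarith [(abs_le.1 h1).1]
  have y0 : (0 : ℝ) < y / 2 ^ 14 := by
    refine lt_of_le_of_ne (by positivity) fun h0 => ?_
    rw [e3, ← h0] at p1
    norm_num at p1
  have z0 : 0 < z := by
    rw [e3] at p1
    exact (mul_pos_iff_of_pos_right (pow_pos y0 2)).1 p1
  have r0 : 0 < (√(1 + t))⁻¹ := inv_pos.2 (Real.sqrt_pos.2 p1)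
  have r1 : (√(1 + t))⁻¹ ^ 2 * (1 + t) = 1 := by
    rw [inv_pow, Real.sq_sqrt p1.le, inv_mul_cancel₀ p1.ne']
  generalize (√(1 + t))⁻¹ = r at r0 r1
  refine ⟨z0, _, mul_pos r0 (by linarith), ?_, h2 r ?_⟩
  · rw [e3] at r1
    linear_combination r1
  · have := rs2_sq h1 r0 r1
    refine rs2_rnd h1 (p1 := 1 / 2) (p2 := 3 / 8) (p3 := 5 / 16) ?_ ?_ ?_
      (le_of_eq_of_le (congrArg _ (by ring)) (this.trans (le_of_eq (by push_cast; ring))))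
    all_goals
      rw [abs_le]
      norm_num

end Pool.Agent.MP_4948b4_mp.N4
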