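import Pool.Agent.Sok.TM

/-! Real Taylor models on top of the packed complex ones; pure (unguarded) linear operations,
roots, and nonnegative combinations. -/

namespace Pool.Agent.MP_4948b4_mp.N4

open Pool.Agent.Sok Pool.Agent.Sok.TMI

/-- forgets the imaginary part -/
def nz (a : TM) : TM := ⟨a.1, cH, a.3, a.4⟩
def ra (a b : TM) : TM := ⟨Nat.sub (Nat.add a.1 b.1) cH, cH, Nat.add a.3 b.3, Nat.add a.4 b.4⟩
def rs (a b : TM) : TM := ⟨Nat.sub (Nat.add a.1 cH) b.1, cH, Nat.add a.3 b.3, Nat.add a.4 b.4⟩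
def rn (a : TM) : TM := ⟨Nat.sub cH2 a.1, cH, a.3, a.4⟩
/-- product by the natural number `m` -/
def rk (a : TM) (m : ℕ) : TM :=
  ⟨Nat.sub (Nat.add (Nat.mul a.1 m) cH) (Nat.mul cH m), cH, Nat.mul a.3 m, Nat.mul a.4 m⟩
/-- adds `n / 2 ^ 28` -/
def ru (a : TM) (n : ℕ) : TM := ⟨Nat.add a.1 n, cH, a.3, Nat.add a.4 n⟩
/-- subtracts `n / 2 ^ 28` -/
def rd (a : TM) (n : ℕ) : TM := ⟨Nat.sub a.1 n, cH, a.3, Nat.add a.4 n⟩
/-- adds `(n - 2 ^ 32) / 2 ^ 28` -/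
def ro (a : TM) (n : ℕ) : TM :=
  ⟨Nat.sub (Nat.add a.1 n) 4294967296, cH, a.3, Nat.add a.4 (Nat.add n 4294967296)⟩
/-- `1 - a` -/
def om (a : TM) : TM := ⟨Nat.sub (Nat.add cH2 268435456) a.1, cH, a.3, Nat.add a.4 268435456⟩
def rz : TM := ⟨cH, cH, 0, 0⟩
/-- negation if the flag is set -/
def sg (b : Bool) (a : TM) : TM := Bool.rec (motive := fun _ => TM) a (rn a) b
/-- `0`, `a` or `-a` for `n = 0, 1, 2` -/
def s3 (n : ℕ) (a : TM) : TM :=
  Bool.rec (motive := fun _ => TM) (sg (Nat.beq n 2) a) rz (Nat.beq n 0)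
/-- the coordinate `i` mapped onto `[lo / 2 ^ 27, hi / 2 ^ 27]` -/
def rv (i lo hi : ℕ) : TM :=
  ⟨Nat.add (Nat.add cH (Nat.add lo hi)) (Nat.shiftLeft (Nat.sub hi lo) (wt i)), cH, 0,
    Nat.add (Nat.add lo hi) (Nat.sub hi lo)⟩
/-- a polynomial in the first three coordinates read off an arbitrary number -/
def rpoly (Z : ℕ) : TM := ⟨sel0 Z, cH, 0, r0 ⟨sel0 Z, 0, 0, 0⟩⟩
def mkc (a b : TM) : TM := ⟨a.1, b.1, Nat.add a.3 b.3, Nat.add a.4 b.4⟩
def ca (a b : TM) : TM :=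
  ⟨Nat.sub (Nat.add a.1 b.1) cH, Nat.sub (Nat.add a.2 b.2) cH, Nat.add a.3 b.3, Nat.add a.4 b.4⟩
def cs (a b : TM) : TM :=
  ⟨Nat.sub (Nat.add a.1 cH) b.1, Nat.sub (Nat.add a.2 cH) b.2, Nat.add a.3 b.3, Nat.add a.4 b.4⟩
def cj (a : TM) : TM := ⟨a.1, Nat.sub cH2 a.2, a.3, a.4⟩
def cg (a : TM) : TM := ⟨Nat.sub cH2 a.1, Nat.sub cH2 a.2, a.3, a.4⟩
/-- complex plus real -/
def car (a b : TM) : TM :=
  ⟨Nat.sub (Nat.add a.1 b.1) cH, a.2, Nat.add a.3 b.3, Nat.add a.4 b.4⟩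
/-- complex minus real -/
def csr (a b : TM) : TM :=
  ⟨Nat.sub (Nat.add a.1 cH) b.1, a.2, Nat.add a.3 b.3, Nat.add a.4 b.4⟩

def bnd (a : TM) (k : TM → Bool) : Bool := k a
def grd (b r : Bool) : Bool := Bool.rec (motive := fun _ => Bool) false r b
/-- product by `p / 2 ^ 28` -/
def smp (a : TM) (p : ℕ) (k : TM → Bool) : Bool := smP (nz a) p 0 k
def rinv (a : TM) (k : TM → Bool) : Bool := TM.inv (nz a) k
/-- the lower bound is positive -/
def pos (a : TM) : Bool :=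
  TM.lo a fun r => Int.rec (motive := fun _ => Bool) (fun n => Nat.ble 1 n) (fun _ => false) r
/-- cubic polynomial `1 + u (-(c1) + u (c2 - c3 u))`, `c` in the scale `2 ^ 28`, widened by
`kk |u| ^ 4 / 32 + 3 / 2 ^ 28` and multiplied by `y / 2 ^ 28`; needs `|u| ≤ 1 / 2` -/
def ser (u : TM) (c1 c2 c3 kk y : ℕ) (k : TM → Bool) : Bool :=
  smp u c3 fun s => mulRR (ru (rn s) c2) u fun s => mulRR (rd s c1) u fun s =>
  grd (Nat.ble (Nat.add (r0 u) u.3) 134217728)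
    (smp ⟨Nat.add s.1 268435456, cH, Nat.add s.3 (Nat.add 4
      (Nat.shiftRight (Nat.mul kk (Nat.pow (Nat.add (r0 u) u.3) 4)) 89)),
      Nat.add s.4 268435456⟩ y k)
/-- `w ^ (-1/3)`; `y / 2 ^ 9` is a guess -/
def cbi (w : TM) (y : ℕ) (k : TM → Bool) : Bool :=
  smp w (Nat.mul 2 (Nat.pow y 3)) fun u =>
  ser (rd u 268435456) 89478485 59652324 46396252 9 (Nat.shiftLeft y 19) k
/-- `w ^ (-1/2)`; `y / 2 ^ 14` is a guess -/
def rsq (w : TM) (y : ℕ) (k : TM → Bool) : Bool :=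
  smp w (Nat.mul y y) fun u =>
  ser (rd u 268435456) 134217728 100663296 83886080 17 (Nat.shiftLeft y 14) k
/-- a combination with the base `2 ^ 20` digits of `n` as coefficients is positive -/
def comb (l : List TM) : ℕ → TM → Bool :=
  List.rec (motive := fun _ => ℕ → TM → Bool) (fun _ acc => pos acc)
    (fun a _ ih n acc => Bool.rec (motive := fun _ => Bool)
      (ih (Nat.shiftRight n 20) (Bool.rec (motive := fun _ => TM)
        (ra acc (rk a (Nat.land n 1048575))) acc (Nat.beq (Nat.land n 1048575) 0)))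
      (pos acc) (Nat.beq n 0)) l

/-- `a` encloses the real number `z` at the point `x` -/
def R (x : Pt) (a : TM) (z : ℝ) : Prop := Rep x (nz a) (z : ℂ)
/-- `a` encloses a number that is not positive -/
def NP (x : Pt) (a : TM) : Prop := ∃ z, R x a z ∧ z ≤ 0
/-- the sign attached to a flag -/
def sv (b : Bool) : ℝ := Bool.rec (motive := fun _ => ℝ) 1 (-1) b
noncomputable def vv (lo hi : ℕ) (y : ℝ) : ℝ := ((lo + hi) + (hi - lo) * y) / 2 ^ 28

end Pool.Agent.MP_4948b4_mp.N4
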