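import Pool.Agent.MP_4948b4_mp.N4.Chk
import Pool.Agent.MP_4948b4_mp.N4.RS
import Pool.Agent.MP_4948b4_mp.N4.Pen
import Pool.Agent.MP_4948b4_mp.N4.Br

/-! Soundness of the box checker: enclosures. -/

set_option linter.unusedVariables false
set_option maxHeartbeats 400000

namespace Pool.Agent.MP_4948b4_mp.N4

open Pool.Agent.Sok Pool.Agent.Sok.TMI ComplexConjugate

theorem br_ok {b x y : Bool} (h : br b x y = true) : (b = true ∧ x = true) ∨ (b = false ∧ y = true) := by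
  cases b
  · exact Or.inr ⟨rfl, h⟩
  · exact Or.inl ⟨rfl, h⟩

theorem bndR {a : TM} {k : TM → Bool} (h : bnd a k = true) :
    ∃ c, k c = true ∧ ∀ x z, R x a z → R x c z := ⟨a, h, fun _ _ h => h⟩

theorem bndC {a : TM} {k : TM → Bool} (h : bnd a k = true) :
    ∃ c, k c = true ∧ ∀ x z, Rep x a z → Rep x c z := ⟨a, h, fun _ _ h => h⟩

theorem half_ok {a : TM} {k : TM → Bool} (h : smp a 134217728 k = true) :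
    ∃ c, k c = true ∧ ∀ x z, R x a z → R x c (z / 2) := by
  obtain ⟨c, h, r⟩ := smp_ok h
  exact ⟨c, h, fun x z hz => (r x z hz).cg (by norm_num; ring)⟩

structure PreR (x : Pt) (P : Pre) (B big : Bool) (al γ ε : ℝ) : Prop where
  al : R x P.al al
  ga : R x P.ga γ
  ep : R x P.ep ε
  e3 : R x P.e3 (ε ^ 3)
  em : R x P.em (ε ^ 3 - 1)
  k1 : R x P.k1 (cond B (1 / ε ^ 4) (ε ^ 4))
  k2 : R x P.k2 (cond B (1 - 1 / ε ^ 3) (ε * (ε ^ 3 - 1)))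
  ie : R x P.ie (cond big (1 / ε) ((ε ^ 3 - 1) * (1 - γ)))

theorem mkPre_ok {B big : Bool} {AL GA EP : TM} {k : Pre → Bool} (hb : B = true → big = true)
    (h : mkPre B big AL GA EP k = true) : ∃ P, k P = true ∧ ∀ x a γ ε, R x AL a → R x GA γ →
      R x EP ε → PreR x P B big a γ ε := by
  unfold mkPre at h
  obtain ⟨ep, h, r_ep⟩ := bndR h
  obtain ⟨ga, h, r_ga⟩ := bndR h
  obtain ⟨al, h, r_al⟩ := bndR h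
  obtain ⟨e2, h, r_e2⟩ := mRR_ok h
  obtain ⟨e3, h, r_e3⟩ := mRR_ok h
  obtain ⟨em, h, r_em⟩ := bndR h
  rcases br_ok h with ⟨hB, g⟩ | ⟨hB, g⟩ <;> subst hB
  · obtain rfl := hb rfl
    have h := g
    obtain ⟨ie, h, r_ie⟩ := rinv_ok h
    obtain ⟨i2, h, r_i2⟩ := mRR_ok h
    obtain ⟨i3, h, r_i3⟩ := mRR_ok h
    obtain ⟨k1, h, r_k1⟩ := mRR_ok h
    refine ⟨_, h, fun x a γ ε h_AL h_GA h_EP => ?_⟩
    have h_ep := r_ep x _ h_EP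
    have h_ga := r_ga x _ h_GA
    have h_al := r_al x _ h_AL
    have h_e2 := r_e2 x _ _ h_ep h_ep
    have h_e3 : R x e3 (ε ^ 3) := R.cg (r_e3 x _ _ h_e2 h_ep) (by ring)
    have h_em : R x em (ε ^ 3 - 1) := R.cg (r_em x _ (R_rd h_e3 268435456)) (by norm_num)
    have h_ie : R x ie (1 / ε) := R.cg ((r_ie x _ h_ep).2) (by rw [one_div])
    have h_i2 := r_i2 x _ _ h_ie h_ie
    have h_i3 : R x i3 (1 / ε ^ 3) := R.cg (r_i3 x _ _ h_i2 h_ie) (by ring)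
    have h_k1 : R x k1 (1 / ε ^ 4) := R.cg (r_k1 x _ _ h_i2 h_i2) (by ring)
    exact ⟨h_al, h_ga, h_ep, h_e3, h_em, h_k1, R_om h_i3, h_ie⟩
  · have h := g
    obtain ⟨k1, h, r_k1⟩ := mRR_ok h
    obtain ⟨k2, h, r_k2⟩ := mRR_ok h
    rcases br_ok h with ⟨hB, g'⟩ | ⟨hB, g'⟩ <;> subst hB
    · obtain ⟨ie, h, r_ie⟩ := rinv_ok g'
      refine ⟨_, h, fun x a γ ε h_AL h_GA h_EP => ?_⟩
      have h_ep := r_ep x _ h_EP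
      have h_ga := r_ga x _ h_GA
      have h_al := r_al x _ h_AL
      have h_e2 := r_e2 x _ _ h_ep h_ep
      have h_e3 : R x e3 (ε ^ 3) := R.cg (r_e3 x _ _ h_e2 h_ep) (by ring)
      have h_em : R x em (ε ^ 3 - 1) := R.cg (r_em x _ (R_rd h_e3 268435456)) (by norm_num)
      have h_k1 : R x k1 (ε ^ 4) := R.cg (r_k1 x _ _ h_e2 h_e2) (by ring)
      have h_k2 := r_k2 x _ _ h_ep h_em
      exact ⟨h_al, h_ga, h_ep, h_e3, h_em, h_k1, h_k2, (r_ie x _ h_ep).2.cg (one_div ε).symm⟩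
    · obtain ⟨ie, h, r_ie⟩ := mRR_ok g'
      refine ⟨_, h, fun x a γ ε h_AL h_GA h_EP => ?_⟩
      have h_ep := r_ep x _ h_EP
      have h_ga := r_ga x _ h_GA
      have h_al := r_al x _ h_AL
      have h_e2 := r_e2 x _ _ h_ep h_ep
      have h_e3 : R x e3 (ε ^ 3) := R.cg (r_e3 x _ _ h_e2 h_ep) (by ring)
      have h_em : R x em (ε ^ 3 - 1) := R.cg (r_em x _ (R_rd h_e3 268435456)) (by norm_num)
      have h_k1 : R x k1 (ε ^ 4) := R.cg (r_k1 x _ _ h_e2 h_e2) (by ring)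
      have h_k2 := r_k2 x _ _ h_ep h_em
      exact ⟨h_al, h_ga, h_ep, h_e3, h_em, h_k1, h_k2, r_ie x _ _ h_em (R_om h_ga)⟩

/-- the parameters in the two charts -/
def par (B sb : Bool) (al γ ε c : ℝ) : Par :=
  cond B ⟨-c, al, γ, ε⟩ ⟨al * (sv sb * c * ε ^ 4), sv sb * c * ε ^ 4, γ, ε⟩

def obv (B : Bool) (ε c : ℝ) : ℝ := cond B (c - 1) (c * ε ^ 4 - 1)

theorem par_γ (B sb : Bool) (al γ ε c : ℝ) : (par B sb al γ ε c).γ = γ := by cases B <;> rfl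
theorem par_ε (B sb : Bool) (al γ ε c : ℝ) : (par B sb al γ ε c).ε = ε := by cases B <;> rfl

theorem geoS_ok {B sb : Bool} {P : Pre} {c v : TM} {k : TM → TM → TM → TM → Bool}
    (h : geoS B sb P c v k = true) : ∃ u2 s24 s14 ob, k u2 s24 s14 ob = true ∧
      ∀ x big al γ ε cv, 0 < ε → PreR x P B big al γ ε → R x c cv → R x v (sv sb * cv) →
        R x u2 (par B sb al γ ε cv).u2 ∧ R x s24 (par B sb al γ ε cv).S24 ∧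
        R x s14 (par B sb al γ ε cv).S14 ∧ R x ob (obv B ε cv) := by
  rcases br_ok h with ⟨hB, g⟩ | ⟨hB, g⟩ <;> subst hB
  · obtain ⟨s24, h, r1⟩ := mRR_ok g
    obtain ⟨s14, h, r2⟩ := mRR_ok h
    exact ⟨_, _, _, _, h, fun x big al γ ε cv hε hP hc hv => ⟨hP.al, r1 x _ _ hP.al hP.k2,
      r2 x _ _ (R_rn hc) hP.k2, (R_rd hc _).cg (by norm_num [obv])⟩⟩
  · obtain ⟨u2, h, r1⟩ := mRR_ok g
    obtain ⟨s24, h, r2⟩ := mRR_ok h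
    obtain ⟨s14, h, r3⟩ := mRR_ok h
    refine ⟨_, _, _, _, h, fun x big al γ ε cv hε hP hc hv => ?_⟩
    have h1 := r1 x _ _ hv hP.k1
    have h2 := r2 x _ _ hv hP.k2
    refine ⟨h1, h2.cg ?_, (r3 x _ _ hP.al h2).cg ?_, (R_rd (R_sg sb h1) _).cg ?_⟩
    · simp only [par, cond_false, Par.S24, Par.E]
      field_simp
    · simp only [par, cond_false, Par.S14, Par.E]
      field_simp
    · simp only [obv, cond_false]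
      norm_num
      linear_combination (cv * ε ^ 4) * sv_sq sb

theorem dd_ok {r s d e b : TM} {k : TM → Bool} (h : dd r s d e b k = true) :
    ∃ c, k c = true ∧ ∀ x w w' ε bv, 0 < w → 0 < w' → ε ≠ 0 → w - w' = ε * bv → R x r (cr w) →
      R x s (cr w') → R x d (cr w ^ 2) → R x e (cr w' ^ 2) → R x b bv →
      R x c ((cr w' ^ 2 - cr w ^ 2) / ε) := by
  unfold dd at h
  obtain ⟨a1, h, r_a1⟩ := mRR_ok h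
  obtain ⟨a2, h, r_a2⟩ := mRR_ok h
  obtain ⟨a3, h, r_a3⟩ := mRR_ok h
  obtain ⟨a4, h, r_a4⟩ := mRR_ok h
  obtain ⟨a5, h, r_a5⟩ := rinv_ok h
  obtain ⟨a6, h, r_a6⟩ := mRR_ok h
  obtain ⟨a7, h, r_a7⟩ := mRR_ok h
  refine ⟨_, h, fun x w w' ε bv hw hw' hε he h_r h_s h_d h_e h_b => ?_⟩
  have h_a1 := r_a1 x _ _ h_r h_s
  have h_a2 := r_a2 x _ _ h_a1 h_a1
  have h_a3 := r_a3 x _ _ h_a2 h_a1
  have h_a4 := r_a4 x _ _ h_a3 (R_ra h_r h_s)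
  have h_a5 := (r_a5 x _ (R_ra (R_ra h_d h_e) h_a1)).2
  have h_a6 := r_a6 x _ _ h_a4 h_a5
  have h_a7 := r_a7 x _ _ h_b h_a6
  exact h_a7.cg (de_eq hw hw' hε he).symm

theorem geoD_ok {big : Bool} {P : Pre} {v r13 r14 r23 r24 d13 d14 d23 d24 : TM}
    {k : TM → TM → Bool} (h : geoD big P v r13 r14 r23 r24 d13 d14 d23 d24 k = true) :
    ∃ de1 de2, k de1 de2 = true ∧ ∀ x B al vv (Q : Par), 0 < Q.ε → Q.W →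
      PreR x P B big al Q.γ Q.ε → R x v vv →
      (big = false → Q.u2 = vv * Q.ε ^ 4 ∧ Q.u1 = al * Q.u2) → R x r13 Q.r13 → R x r14 Q.r14 →
      R x r23 Q.r23 → R x r24 Q.r24 → R x d13 (Q.r13 ^ 2) → R x d14 (Q.r14 ^ 2) →
      R x d23 (Q.r23 ^ 2) → R x d24 (Q.r24 ^ 2) →
      R x de1 ((Q.r14 ^ 2 - Q.r13 ^ 2) / Q.ε) ∧ R x de2 ((Q.r24 ^ 2 - Q.r23 ^ 2) / Q.ε) := by
  rcases br_ok h with ⟨hB, g⟩ | ⟨hB, g⟩ <;> subst hB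
  · obtain ⟨de1, h, r1⟩ := mRR_ok g
    obtain ⟨de2, h, r2⟩ := mRR_ok h
    exact ⟨_, _, h, fun x B al vv Q hε hW hP hv hu a1 a2 a3 a4 b1 b2 b3 b4 =>
      ⟨(r1 x _ _ (R_rs b2 b1) hP.ie).cg (by simp [div_eq_mul_inv]),
        (r2 x _ _ (R_rs b4 b3) hP.ie).cg (by simp [div_eq_mul_inv])⟩⟩
  · obtain ⟨b2, h, r1⟩ := mRR_ok g
    obtain ⟨b1, h, r2⟩ := mRR_ok h
    obtain ⟨de1, h, r3⟩ := dd_ok h
    obtain ⟨de2, h, r4⟩ := dd_ok h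
    refine ⟨_, _, h, fun x B al vv Q hε hW hP hv hu a1 a2 a3 a4 c1 c2 c3 c4 => ?_⟩
    obtain ⟨e2, e1⟩ := hu rfl
    have h1 := r1 x _ _ hv hP.ie
    have h2 := r2 x _ _ hP.al h1
    have hε' := hε.ne'
    refine ⟨r3 x _ _ _ _ hW.2.1 hW.2.2.1 hε' ?_ a1 a2 c1 c2 h2,
      r4 x _ _ _ _ hW.2.2.2.1 hW.2.2.2.2 hε' ?_ a3 a4 c3 c4 h1⟩
    · simp only [Par.S13, Par.S14, Par.E, cond_false, e1, e2]
      field_simp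
      ring
    · simp only [Par.S23, Par.S24, Par.E, cond_false, e2]
      field_simp
      ring

theorem geoX_ok {P : Pre} {de1 de2 d12 d13 d23 : TM} {k : TM → TM → TM → TM → TM → TM → Bool}
    (h : geoX P de1 de2 d12 d13 d23 k = true) : ∃ x1 x2 Y1 Y2 Pi g, k x1 x2 Y1 Y2 Pi g = true ∧
      ∀ x B big al (Q : Par), PreR x P B big al Q.γ Q.ε → R x de1 ((Q.r14 ^ 2 - Q.r13 ^ 2) / Q.ε) →
        R x de2 ((Q.r24 ^ 2 - Q.r23 ^ 2) / Q.ε) → R x d12 (Q.r12 ^ 2) → R x d13 (Q.r13 ^ 2) →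
        R x d23 (Q.r23 ^ 2) → R x x1 Q.x1 ∧ R x x2 Q.x2 ∧ R x Y1 Q.Y1 ∧ R x Y2 Q.Y2 ∧
          R x Pi Q.Pi ∧ R x g Q.g := by
  unfold geoX at h
  obtain ⟨x1, h, r_x1⟩ := half_ok h
  obtain ⟨x2, h, r_x2⟩ := half_ok h
  obtain ⟨a1, h, r_a1⟩ := mRR_ok h
  obtain ⟨a2, h, r_a2⟩ := mRR_ok h
  obtain ⟨a3, h, r_a3⟩ := mRR_ok h
  obtain ⟨a4, h, r_a4⟩ := half_ok h
  obtain ⟨Y1, h, r_Y1⟩ := bndR h
  obtain ⟨Y2, h, r_Y2⟩ := bndR h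
  obtain ⟨Pi, h, r_Pi⟩ := bndR h
  obtain ⟨a5, h, r_a5⟩ := mRR_ok h
  obtain ⟨a6, h, r_a6⟩ := mRR_ok h
  obtain ⟨g, h, r_g⟩ := bndR h
  refine ⟨_, _, _, _, _, _, h, fun x B big al Q hP h_de1 h_de2 h_d12 h_d13 h_d23 => ?_⟩
  have h_x1 : R x x1 (Q.x1) := R.cg (r_x1 x _ (R_rs hP.ep h_de1)) rfl
  have h_x2 : R x x2 (Q.x2) := R.cg (r_x2 x _ (R_rs hP.ep h_de2)) rfl
  have h_a1 := r_a1 x _ _ h_x1 h_x1
  have h_a2 := r_a2 x _ _ h_x2 h_x2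
  have h_a3 := r_a3 x _ _ h_x1 h_x2
  have h_a4 := r_a4 x _ (R_rs (R_ra h_d13 h_d23) h_d12)
  have h_Y1 : R x Y1 (Q.Y1) := R.cg (r_Y1 x _ (R_rs h_d13 h_a1)) (by rw [Par.Y1]; ring)
  have h_Y2 : R x Y2 (Q.Y2) := R.cg (r_Y2 x _ (R_rs h_d23 h_a2)) (by rw [Par.Y2]; ring)
  have h_Pi : R x Pi (Q.Pi) := R.cg (r_Pi x _ (R_rs h_a4 h_a3)) rfl
  have h_a5 := r_a5 x _ _ h_Y1 h_Y2
  have h_a6 := r_a6 x _ _ h_Pi h_Pi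
  have h_g : R x g (Q.g) := R.cg (r_g x _ (R_rs h_a5 h_a6)) (by rw [Par.g]; ring)
  exact ⟨h_x1, h_x2, h_Y1, h_Y2, h_Pi, h_g⟩

structure GeoR (x : Pt) (G : Geo) (Q : Par) (c v ob : ℝ) : Prop where
  W : Q.W
  c : R x G.c c
  v : R x G.v v
  u2 : R x G.u2 Q.u2
  ob : R x G.ob ob
  s13 : R x G.s13 Q.S13
  s23 : R x G.s23 Q.S23
  w12 : R x G.w12 (1 - Q.S12)
  w13 : R x G.w13 (1 - Q.S13)
  w14 : R x G.w14 (1 - Q.S14)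
  w23 : R x G.w23 (1 - Q.S23)
  w24 : R x G.w24 (1 - Q.S24)
  r12 : R x G.r12 Q.r12
  r13 : R x G.r13 Q.r13
  r14 : R x G.r14 Q.r14
  r23 : R x G.r23 Q.r23
  r24 : R x G.r24 Q.r24
  x1 : R x G.x1 Q.x1
  x2 : R x G.x2 Q.x2
  Y1 : R x G.Y1 Q.Y1
  Y2 : R x G.Y2 Q.Y2
  Pi : R x G.Pi Q.Pi
  g : R x G.g Q.g

theorem geo_ok {B big sb : Bool} {P : Pre} {c : TM} {n : ℕ} {k : Geo → Bool}
    (hb : B = true → big = true) (h : geo B big sb P c n k = true) : ∃ G, k G = true ∧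
      ∀ x al γ ε cv, 0 < ε → PreR x P B big al γ ε → R x c cv →
        GeoR x G (par B sb al γ ε cv) cv (sv sb * cv) (obv B ε cv) := by
  unfold geo at h
  obtain ⟨v, h, r_v⟩ := bndR h
  obtain ⟨u2, s24, s14, ob, h, r_s⟩ := geoS_ok h
  obtain ⟨s23, h, r_s23⟩ := mRR_ok h
  obtain ⟨s13, h, r_s13⟩ := mRR_ok h
  obtain ⟨s12, h, r_s12⟩ := mRR_ok h
  obtain ⟨w12, h, r_w12⟩ := bndR h
  obtain ⟨w13, h, r_w13⟩ := bndR h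
  obtain ⟨w14, h, r_w14⟩ := bndR h
  obtain ⟨w23, h, r_w23⟩ := bndR h
  obtain ⟨w24, h, r_w24⟩ := bndR h
  obtain ⟨r12, h, r_r12⟩ := cbi_ok h
  obtain ⟨r13, h, r_r13⟩ := cbi_ok h
  obtain ⟨r14, h, r_r14⟩ := cbi_ok h
  obtain ⟨r23, h, r_r23⟩ := cbi_ok h
  obtain ⟨r24, h, r_r24⟩ := cbi_ok h
  obtain ⟨d12, h, r_d12⟩ := mRR_ok h
  obtain ⟨d13, h, r_d13⟩ := mRR_ok h
  obtain ⟨d14, h, r_d14⟩ := mRR_ok h
  obtain ⟨d23, h, r_d23⟩ := mRR_ok h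
  obtain ⟨d24, h, r_d24⟩ := mRR_ok h
  obtain ⟨de1, de2, h, r_d⟩ := geoD_ok h
  obtain ⟨x1, x2, Y1, Y2, Pi, g, h, r_x⟩ := geoX_ok h
  refine ⟨_, h, fun x al γ ε cv hε hP hc => ?_⟩
  have h_v := r_v x _ (R_sg sb hc)
  obtain ⟨h_u2, h_s24, h_s14, h_ob⟩ := r_s x big al γ ε cv hε hP hc h_v
  have hu : big = false → (par B sb al γ ε cv).u2 = sv sb * cv * (par B sb al γ ε cv).ε ^ 4 ∧
      (par B sb al γ ε cv).u1 = al * (par B sb al γ ε cv).u2 := by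
    rintro rfl
    cases B
    · exact ⟨rfl, rfl⟩
    · exact absurd (hb rfl) (by simp)
  replace hP : PreR x P B big al (par B sb al γ ε cv).γ (par B sb al γ ε cv).ε := by
    rwa [par_γ, par_ε]
  replace hε : 0 < (par B sb al γ ε cv).ε := by rwa [par_ε]
  generalize par B sb al γ ε cv = Q at *
  have h_s23 : R x s23 (Q.S23) := R.cg (r_s23 x _ _ hP.ga h_s24) rfl
  have h_s13 : R x s13 (Q.S13) := R.cg (r_s13 x _ _ hP.ga h_s14) rfl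
  have h_s12 : R x s12 (Q.S12) := R.cg (r_s12 x _ _ h_s13 h_u2) rfl
  have h_w12 := r_w12 x _ (R_om h_s12)
  have h_w13 := r_w13 x _ (R_om h_s13)
  have h_w14 := r_w14 x _ (R_om h_s14)
  have h_w23 := r_w23 x _ (R_om h_s23)
  have h_w24 := r_w24 x _ (R_om h_s24)
  have p_r12 := (r_r12 x _ h_w12).1
  have h_r12 : R x r12 (Q.r12) := R.cg ((r_r12 x _ h_w12).2) rfl
  have p_r13 := (r_r13 x _ h_w13).1
  have h_r13 : R x r13 (Q.r13) := R.cg ((r_r13 x _ h_w13).2) rfl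
  have p_r14 := (r_r14 x _ h_w14).1
  have h_r14 : R x r14 (Q.r14) := R.cg ((r_r14 x _ h_w14).2) rfl
  have p_r23 := (r_r23 x _ h_w23).1
  have h_r23 : R x r23 (Q.r23) := R.cg ((r_r23 x _ h_w23).2) rfl
  have p_r24 := (r_r24 x _ h_w24).1
  have h_r24 : R x r24 (Q.r24) := R.cg ((r_r24 x _ h_w24).2) rfl
  have h_d12 : R x d12 (Q.r12 ^ 2) := R.cg (r_d12 x _ _ h_r12 h_r12) (by ring)
  have h_d13 : R x d13 (Q.r13 ^ 2) := R.cg (r_d13 x _ _ h_r13 h_r13) (by ring)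
  have h_d14 : R x d14 (Q.r14 ^ 2) := R.cg (r_d14 x _ _ h_r14 h_r14) (by ring)
  have h_d23 : R x d23 (Q.r23 ^ 2) := R.cg (r_d23 x _ _ h_r23 h_r23) (by ring)
  have h_d24 : R x d24 (Q.r24 ^ 2) := R.cg (r_d24 x _ _ h_r24 h_r24) (by ring)
  have hW : Q.W := ⟨p_r12, p_r13, p_r14, p_r23, p_r24⟩
  obtain ⟨h_de1, h_de2⟩ := r_d x B al _ Q hε hW hP h_v hu h_r13 h_r14 h_r23 h_r24 h_d13 h_d14 h_d23
    h_d24
  obtain ⟨a1, a2, a3, a4, a5, a6⟩ := r_x x B big al Q hP h_de1 h_de2 h_d12 h_d13 h_d23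
  exact ⟨hW, hc, h_v, h_u2, h_ob, h_s13, h_s23, h_w12, h_w13, h_w14, h_w23, h_w24, h_r12, h_r13,
    h_r14, h_r23, h_r24, a1, a2, a3, a4, a5, a6⟩

structure MsR (x : Pt) (M : Ms) (V : Val) : Prop where
  y1 : R x M.y1 V.y1
  y2 : R x M.y2 V.y2
  u1 : R x M.u1 V.u1
  m1 : R x M.m1 V.m1
  m2 : R x M.m2 V.m2
  n3 : R x M.n3 V.n3
  n4 : R x M.n4 V.n4
  g4 : R x M.g4 (V.γ * V.n4)
  m3 : R x M.m3 V.m3
  m4 : R x M.m4 V.m4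
  si : R x M.si V.si
  T : R x M.T V.T
  E1 : R x M.E1 V.E1

theorem mass_ok {P : Pre} {G : Geo} {y1 y2 u1 nn py qy : TM} {f : Bool} {N : ℕ} {k : Ms → Bool}
    (h : mass P G y1 y2 u1 nn py qy f N k = true) : ∃ M, k M = true ∧
      ∀ x B big al c v ob (V : Val) n p q, PreR x P B big al V.γ V.ε → GeoR x G V.toPar c v ob →
        R x y1 V.y1 → R x y2 V.y2 → R x u1 V.u1 → R x nn n → R x py p → R x qy q →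
        V.m1 = sv f * N * p → V.m2 = -(sv f * N * q) →
        V.n3 = sv f * N * (n * (V.ε * (V.y1 - V.y2) - (V.y1 * V.x2 - V.y2 * V.x1))) →
        V.n4 = sv f * N * (n * (V.y1 * V.x2 - V.y2 * V.x1)) → MsR x M V := by
  unfold mass at h
  obtain ⟨a1, h, r_a1⟩ := mRR_ok h
  obtain ⟨a2, h, r_a2⟩ := mRR_ok h
  obtain ⟨a3, h, r_a3⟩ := mRR_ok h
  obtain ⟨A4, h, r_A4⟩ := bndR h
  obtain ⟨b3, h, r_b3⟩ := mRR_ok h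
  obtain ⟨b4, h, r_b4⟩ := mRR_ok h
  obtain ⟨m1, h, r_m1⟩ := bndR h
  obtain ⟨m2, h, r_m2⟩ := bndR h
  obtain ⟨n3, h, r_n3⟩ := bndR h
  obtain ⟨n4, h, r_n4⟩ := bndR h
  obtain ⟨g4, h, r_g4⟩ := mRR_ok h
  obtain ⟨m3, h, r_m3⟩ := mRR_ok h
  obtain ⟨m4, h, r_m4⟩ := mRR_ok h
  obtain ⟨si, h, r_si⟩ := bndR h
  obtain ⟨c1, h, r_c1⟩ := mRR_ok h
  obtain ⟨c2, h, r_c2⟩ := mRR_ok h
  obtain ⟨c3, h, r_c3⟩ := mRR_ok h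
  obtain ⟨c4, h, r_c4⟩ := mRR_ok h
  obtain ⟨c5, h, r_c5⟩ := mRR_ok h
  obtain ⟨c6, h, r_c6⟩ := mRR_ok h
  obtain ⟨T, h, r_T⟩ := bndR h
  obtain ⟨E1, h, r_E1⟩ := bndR h
  refine ⟨_, h, fun x B big al c v ob V n p q hP hG h_y1 h_y2 h_u1 h_nn h_py h_qy e1 e2 e3 e4 => ?_⟩
  have h_a1 := r_a1 x _ _ h_y1 hG.x2
  have h_a2 := r_a2 x _ _ h_y2 hG.x1
  have h_a3 := r_a3 x _ _ hP.ep (R_rs h_y1 h_y2)
  have h_A4 := r_A4 x _ (R_rs h_a1 h_a2)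
  have h_b3 := r_b3 x _ _ h_nn (R_rs h_a3 h_A4)
  have h_b4 := r_b4 x _ _ h_nn h_A4
  have h_m1 : R x m1 (V.m1) := R.cg (r_m1 x _ (R_sg f (R_rk h_py N))) (by rw [e1]; ring)
  have h_m2 : R x m2 (V.m2) := R.cg (r_m2 x _ (R_rn (R_sg f (R_rk h_qy N)))) (by rw [e2]; ring)
  have h_n3 : R x n3 (V.n3) := R.cg (r_n3 x _ (R_sg f (R_rk h_b3 N))) (by rw [e3]; ring)
  have h_n4 : R x n4 (V.n4) := R.cg (r_n4 x _ (R_sg f (R_rk h_b4 N))) (by rw [e4]; ring)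
  have h_g4 := r_g4 x _ _ hP.ga h_n4
  have h_m3 : R x m3 (V.m3) := R.cg (r_m3 x _ _ hP.e3 h_n3) rfl
  have h_m4 : R x m4 (V.m4) := R.cg (r_m4 x _ _ hP.e3 h_g4) rfl
  have h_si : R x si (V.si) := R.cg (r_si x _ (R_ra (R_ra (R_ra h_m1 h_m2) h_m3) h_m4)) rfl
  have h_c1 := r_c1 x _ _ h_n3 hP.ga
  have h_c2 := r_c2 x _ _ hP.em (R_ra h_n4 h_c1)
  have h_c3 := r_c3 x _ _ hG.u2 hG.s23
  have h_c4 := r_c4 x _ _ h_m2 h_c3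
  have h_c5 := r_c5 x _ _ h_u1 hG.s13
  have h_c6 := r_c6 x _ _ h_m1 h_c5
  have h_T : R x T (V.T) := R.cg (r_T x _ (R_ra (R_ra h_c2 h_c4) h_c6)) rfl
  have h_E1 : R x E1 (V.E1) := R.cg (r_E1 x _ (R_rs (R_rk h_si 2) h_T)) (by rw [Val.E1]; norm_num)
  exact ⟨h_y1, h_y2, h_u1, h_m1, h_m2, h_n3, h_n4, h_g4, h_m3, h_m4, h_si, h_T, h_E1⟩

theorem uf_ok {w r q : TM} {k : TM → Bool} (h : uf w r q k = true) : ∃ c, k c = true ∧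
    ∀ x (a b : ℝ) (z : ℂ), R x w a → R x r b → Rep x q z → Rep x c ((a * (a * b) : ℝ) * z ^ 2) := by
  unfold uf at h
  obtain ⟨a1, h, r_a1⟩ := mRR_ok h
  obtain ⟨a2, h, r_a2⟩ := mRR_ok h
  obtain ⟨a3, h, r_a3⟩ := TMI.mulCC_ok h
  obtain ⟨a4, h, r_a4⟩ := mRC_ok h
  refine ⟨_, h, fun x a b z h_w h_r h_q => ?_⟩
  have h_a1 := r_a1 x _ _ h_w h_r
  have h_a2 := r_a2 x _ _ h_w h_a1
  have h_a3 := r_a3 x _ _ h_q h_q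
  have h_a4 := r_a4 x _ _ h_a2 h_a3
  exact Rep.cg' h_a4 (by ring)

theorem kk_ok {M : Ms} {xi3 xi4 U13 U23 U14 U24 : TM} {k : TM → TM → TM → TM → Bool}
    (h : kk M xi3 xi4 U13 U23 U14 U24 k = true) : ∃ K33 K43 K44 K34, k K33 K43 K44 K34 = true ∧
      ∀ x (V : Val), MsR x M V → Rep x xi3 V.xi3 → Rep x xi4 V.xi4 → Rep x U13 V.U13 →
        Rep x U23 V.U23 → Rep x U14 V.U14 → Rep x U24 V.U24 →
        Rep x K33 V.K33 ∧ Rep x K43 V.K43 ∧ Rep x K44 V.K44 ∧ Rep x K34 V.K34 := by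
  unfold kk at h
  obtain ⟨D3, h, r_D3⟩ := bndC h
  obtain ⟨D4, h, r_D4⟩ := bndC h
  obtain ⟨b1, h, r_b1⟩ := TMI.mulCC_ok h
  obtain ⟨b2, h, r_b2⟩ := TMI.mulCC_ok h
  obtain ⟨b3, h, r_b3⟩ := TMI.mulCC_ok h
  obtain ⟨b4, h, r_b4⟩ := TMI.mulCC_ok h
  obtain ⟨c1, h, r_c1⟩ := mRC_ok h
  obtain ⟨c2, h, r_c2⟩ := mRC_ok h
  obtain ⟨c3, h, r_c3⟩ := mRC_ok h
  obtain ⟨c4, h, r_c4⟩ := mRC_ok h
  obtain ⟨c5, h, r_c5⟩ := mRC_ok h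
  obtain ⟨c6, h, r_c6⟩ := mRC_ok h
  obtain ⟨c7, h, r_c7⟩ := mRC_ok h
  obtain ⟨c8, h, r_c8⟩ := mRC_ok h
  obtain ⟨K33, h, r_K33⟩ := bndC h
  obtain ⟨K43, h, r_K43⟩ := bndC h
  obtain ⟨K44, h, r_K44⟩ := bndC h
  obtain ⟨K34, h, r_K34⟩ := bndC h
  refine ⟨_, _, _, _, h, fun x V hM h_xi3 h_xi4 h_U13 h_U23 h_U14 h_U24 => ?_⟩
  have h_D3 := r_D3 x _ (C_cs h_U23 h_U13)
  have h_D4 := r_D4 x _ (C_cs h_U24 h_U14)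
  have h_b1 := r_b1 x _ _ h_xi3 h_D3
  have h_b2 := r_b2 x _ _ h_xi4 h_D3
  have h_b3 := r_b3 x _ _ h_xi4 h_D4
  have h_b4 := r_b4 x _ _ h_xi3 h_D4
  have h_c1 := r_c1 x _ _ hM.m1 h_U13
  have h_c2 := r_c2 x _ _ hM.m2 h_U23
  have h_c3 := r_c3 x _ _ hM.m3 (C_ca h_U13 h_b1)
  have h_c4 := r_c4 x _ _ hM.m3 (C_ca h_U13 h_b2)
  have h_c5 := r_c5 x _ _ hM.m1 h_U14
  have h_c6 := r_c6 x _ _ hM.m2 h_U24
  have h_c7 := r_c7 x _ _ hM.m4 (C_ca h_U14 h_b3)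
  have h_c8 := r_c8 x _ _ hM.m4 (C_ca h_U14 h_b4)
  have h_K33 : Rep x K33 (V.K33) := Rep.cg' (r_K33 x _ (C_car (C_ca (C_ca h_c1 h_c2) h_c3) hM.g4)) rfl
  have h_K43 : Rep x K43 (V.K43) := Rep.cg' (r_K43 x _ (C_csr h_c4 hM.n3)) rfl
  have h_K44 : Rep x K44 (V.K44) := Rep.cg' (r_K44 x _ (C_car (C_ca (C_ca h_c5 h_c6) h_c7) hM.n3)) rfl
  have h_K34 : Rep x K34 (V.K34) := Rep.cg' (r_K34 x _ (C_csr h_c8 hM.g4)) rfl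
  exact ⟨h_K33, h_K43, h_K44, h_K34⟩

structure KkR (x : Pt) (K : Kk) (V : Val) : Prop where
  xi3 : Rep x K.xi3 V.xi3
  xi4 : Rep x K.xi4 V.xi4
  K33 : Rep x K.K33 V.K33
  K43 : Rep x K.K43 V.K43
  K44 : Rep x K.K44 V.K44
  K34 : Rep x K.K34 V.K34
  F : R x K.F V.F
  ss : R x K.ss (V.si ^ 2)
  sT : R x K.sT (V.si * V.T)
  TT : R x K.TT (V.T ^ 2)
  E2 : R x K.E2 V.E2
  NW : R x K.NW (2 * V.E2 - 3 * V.E1 ^ 2)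

theorem kst_ok {P : Pre} {G : Geo} {M : Ms} {k : Kk → Bool} (h : kst P G M k = true) :
    ∃ K, k K = true ∧ ∀ x B big al c v ob (V : Val), PreR x P B big al V.γ V.ε →
      GeoR x G V.toPar c v ob → MsR x M V → KkR x K V := by
  unfold kst at h
  obtain ⟨q1, h, r_q1⟩ := bndC h
  obtain ⟨q2, h, r_q2⟩ := bndC h
  obtain ⟨U13, h, r_1⟩ := uf_ok h
  obtain ⟨U23, h, r_2⟩ := uf_ok h
  obtain ⟨U14, h, r_3⟩ := uf_ok h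
  obtain ⟨U24, h, r_4⟩ := uf_ok h
  obtain ⟨s12, h, r_s12⟩ := mRR_ok h
  obtain ⟨ze, h, r_ze⟩ := mRC_ok h
  obtain ⟨a1, h, r_a1⟩ := TMI.mulCC_ok h
  obtain ⟨xi3, h, r_xi3⟩ := bndC h
  obtain ⟨a2, h, r_a2⟩ := mRC_ok h
  obtain ⟨xi4, h, r_xi4⟩ := bndC h
  obtain ⟨K33, K43, K44, K34, h, r_k⟩ := kk_ok h
  obtain ⟨f1, h, r_f1⟩ := TMI.mulCC_ok h
  obtain ⟨f2, h, r_f2⟩ := TMI.mulCC_ok h
  obtain ⟨f3, h, r_f3⟩ := TMI.mulCC_ok h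
  obtain ⟨F, h, r_F⟩ := bndR h
  obtain ⟨ss, h, r_ss⟩ := mRR_ok h
  obtain ⟨sT, h, r_sT⟩ := mRR_ok h
  obtain ⟨TT, h, r_TT⟩ := mRR_ok h
  obtain ⟨E2, h, r_E2⟩ := bndR h
  obtain ⟨NW, h, r_NW⟩ := bndR h
  refine ⟨_, h, fun x B big al c v ob V hP hG hM => ?_⟩
  have h_q1 : Rep x q1 V.q1 := r_q1 x _ (C_mkc hG.x1 hM.y1)
  have h_q2 : Rep x q2 V.q2 := r_q2 x _ (C_mkc hG.x2 hM.y2)
  have h_s12 := r_s12 x _ _ hG.w12 hG.r12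
  have h_ze : Rep x ze (V.ze) := Rep.cg' (r_ze x _ _ h_s12 (C_cj (C_cs h_q2 h_q1))) rfl
  have h_a1 := r_a1 x _ _ h_q1 h_ze
  have h_xi3 : Rep x xi3 (V.xi3) := Rep.cg' (r_xi3 x _ (C_cg h_a1)) rfl
  have h_a2 := r_a2 x _ _ hP.ep h_ze
  have h_xi4 : Rep x xi4 (V.xi4) := Rep.cg' (r_xi4 x _ (C_ca h_xi3 h_a2)) rfl
  obtain ⟨h_K33, h_K43, h_K44, h_K34⟩ := r_k x V hM h_xi3 h_xi4 (r_1 x _ _ _ hG.w13 hG.r13 h_q1)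
    (r_2 x _ _ _ hG.w23 hG.r23 h_q2) (r_3 x _ _ _ hG.w14 hG.r14 (C_csr h_q1 hP.ep))
    (r_4 x _ _ _ hG.w24 hG.r24 (C_csr h_q2 hP.ep))
  have h_f1 := r_f1 x _ _ h_K33 (C_cj h_K33)
  have h_f2 := r_f2 x _ _ h_K44 (C_cj h_K44)
  have h_f3 := r_f3 x _ _ h_K34 (C_cj h_K43)
  have h_F : R x F (V.F) := R.cg (r_F x _ (R_ra (R_ra (R_nz h_f1) (R_nz h_f2)) (R_rk (R_nz h_f3) 2))) (by rw [Val.F]; norm_num)
  have h_ss : R x ss (V.si ^ 2) := R.cg (r_ss x _ _ hM.si hM.si) (by ring)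
  have h_sT := r_sT x _ _ hM.si hM.T
  have h_TT : R x TT (V.T ^ 2) := R.cg (r_TT x _ _ hM.T hM.T) (by ring)
  have h_E2 : R x E2 (V.E2) := R.cg (r_E2 x _ (R_rs (R_ra (R_ra (R_rk h_ss 22) (R_rk h_sT 2)) h_TT) (R_rk h_F 9))) (by rw [Val.E2]; norm_num)
  have h_NW : R x NW (2 * V.E2 - 3 * V.E1 ^ 2) := R.cg (r_NW x _ (R_rs (R_rs (R_ra (R_rk h_ss 32) (R_rk h_sT 16)) h_TT) (R_rk h_F 18))) (by rw [Val.E2, Val.E1]; push_cast; ring)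
  exact ⟨h_xi3, h_xi4, h_K33, h_K43, h_K44, h_K34, h_F, h_ss, h_sT, h_TT, h_E2, h_NW⟩

structure XxR (x : Pt) (Z : Xx) (V : Val) : Prop where
  c3 : Rep x Z.c3 V.c3
  c4 : Rep x Z.c4 V.c4
  p3 : Rep x Z.p3 V.ρ3
  p4 : Rep x Z.p4 V.ρ4
  X : R x Z.X V.Xc.re
  B0 : R x Z.B0 V.B0
  sF : R x Z.sF (V.si ^ 2 - V.F)
  E3 : R x Z.E3 V.E3

theorem xst_ok {P : Pre} {G : Geo} {M : Ms} {K : Kk} {k : Xx → Bool} (h : xst P G M K k = true) :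
    ∃ X, k X = true ∧ ∀ x B big al c v ob (V : Val), PreR x P B big al V.γ V.ε →
      GeoR x G V.toPar c v ob → MsR x M V → KkR x K V → XxR x X V := by
  unfold xst at h
  obtain ⟨du, h, r_du⟩ := bndR h
  obtain ⟨a1, h, r_a1⟩ := mRR_ok h
  obtain ⟨a2, h, r_a2⟩ := mRC_ok h
  obtain ⟨c3, h, r_c3⟩ := mRC_ok h
  obtain ⟨a3, h, r_a3⟩ := mRC_ok h
  obtain ⟨a4, h, r_a4⟩ := mRC_ok h
  obtain ⟨c4, h, r_c4⟩ := mRC_ok h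
  obtain ⟨b1, h, r_b1⟩ := mRC_ok h
  obtain ⟨b2, h, r_b2⟩ := mRC_ok h
  obtain ⟨b3, h, r_b3⟩ := mRC_ok h
  obtain ⟨b4, h, r_b4⟩ := mRC_ok h
  obtain ⟨p3, h, r_p3⟩ := bndC h
  obtain ⟨p4, h, r_p4⟩ := bndC h
  obtain ⟨v1, h, r_v1⟩ := TMI.mulCC_ok h
  obtain ⟨v2, h, r_v2⟩ := TMI.mulCC_ok h
  obtain ⟨v3, h, r_v3⟩ := TMI.mulCC_ok h
  obtain ⟨v4, h, r_v4⟩ := TMI.mulCC_ok h
  obtain ⟨z1, h, r_z1⟩ := TMI.mulCC_ok h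
  obtain ⟨z2, h, r_z2⟩ := TMI.mulCC_ok h
  obtain ⟨X, h, r_X⟩ := bndR h
  obtain ⟨B0, h, r_B0⟩ := bndR h
  obtain ⟨sF, h, r_sF⟩ := bndR h
  obtain ⟨e1, h, r_e1⟩ := mRR_ok h
  obtain ⟨e2, h, r_e2⟩ := mRR_ok h
  obtain ⟨E3, h, r_E3⟩ := bndR h
  refine ⟨_, h, fun x B big al c v ob V hP hG hM hK => ?_⟩
  have h_du := r_du x _ (R_rs hG.u2 hM.u1)
  have h_a1 := r_a1 x _ _ hP.em hP.ga
  have h_a2 := r_a2 x _ _ h_du hK.xi3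
  have h_c3 : Rep x c3 (V.c3) := Rep.cg' (r_c3 x _ _ h_a1 (C_car (C_cg h_a2) (R_om hM.u1))) (by rw [Val.c3]; ring)
  have h_a3 := r_a3 x _ _ h_du hK.xi4
  have h_a4 := r_a4 x _ _ hP.ga (C_car h_a3 hM.u1)
  have h_c4 : Rep x c4 (V.c4) := Rep.cg' (r_c4 x _ _ hP.em (C_car (C_cg h_a4) (R_om R_rz))) (by rw [Val.c4]; push_cast; ring)
  have h_b1 := r_b1 x _ _ hM.n3 hK.K33
  have h_b2 := r_b2 x _ _ hM.n4 hK.K43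
  have h_b3 := r_b3 x _ _ hM.n3 hK.K34
  have h_b4 := r_b4 x _ _ hM.n4 hK.K44
  have h_p3 : Rep x p3 (V.ρ3) := Rep.cg' (r_p3 x _ (C_ca h_b1 h_b2)) rfl
  have h_p4 : Rep x p4 (V.ρ4) := Rep.cg' (r_p4 x _ (C_ca h_b3 h_b4)) rfl
  have h_v1 := r_v1 x _ _ (C_cj hK.K33) h_c3
  have h_v2 := r_v2 x _ _ (C_cj hK.K34) h_c4
  have h_v3 := r_v3 x _ _ (C_cj hK.K43) h_c3
  have h_v4 := r_v4 x _ _ (C_cj hK.K44) h_c4
  have h_z1 := r_z1 x _ _ h_p3 (C_ca h_v1 h_v2)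
  have h_z2 := r_z2 x _ _ h_p4 (C_ca h_v3 h_v4)
  have h_X : R x X (V.Xc.re) := R.cg (r_X x _ (R_nz (C_ca h_z1 h_z2))) rfl
  have h_B0 : R x B0 (V.B0) := R.cg (r_B0 x _ (R_ra (R_ra (R_rk hK.ss 9) (R_rk hK.sT 6)) hK.TT)) (by rw [Val.B0]; norm_num)
  have h_sF := r_sF x _ (R_rs hK.ss hK.F)
  have h_e1 := r_e1 x _ _ hM.si h_B0
  have h_e2 := r_e2 x _ _ (R_rs hM.si hM.T) h_sF
  have h_E3 : R x E3 (V.E3) := R.cg (r_E3 x _ (R_ra h_e1 (R_rk (R_rs h_e2 h_X) 9))) (by rw [Val.E3]; norm_num)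
  exact ⟨h_c3, h_c4, h_p3, h_p4, h_X, h_B0, h_sF, h_E3⟩

theorem est_ok {M : Ms} {K : Kk} {X : Xx} {k : TM → Bool} (h : est M K X k = true) :
    ∃ c, k c = true ∧ ∀ x (V : Val), MsR x M V → KkR x K V → XxR x X V → R x c V.E4 := by
  unfold est at h
  obtain ⟨a1, h, r_a1⟩ := TMI.mulCC_ok h
  obtain ⟨a2, h, r_a2⟩ := TMI.mulCC_ok h
  obtain ⟨yy, h, r_yy⟩ := bndC h
  obtain ⟨a3, h, r_a3⟩ := TMI.mulCC_ok h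
  obtain ⟨a4, h, r_a4⟩ := TMI.mulCC_ok h
  obtain ⟨a5, h, r_a5⟩ := TMI.mulCC_ok h
  obtain ⟨dt, h, r_dt⟩ := bndC h
  obtain ⟨a6, h, r_a6⟩ := TMI.mulCC_ok h
  obtain ⟨a7, h, r_a7⟩ := mRR_ok h
  obtain ⟨a8, h, r_a8⟩ := mRR_ok h
  obtain ⟨E4, h, r_E4⟩ := bndR h
  refine ⟨_, h, fun x V hM hK hX => ?_⟩
  have h_a1 := r_a1 x _ _ hX.p3 (C_cj hX.c3)
  have h_a2 := r_a2 x _ _ hX.p4 (C_cj hX.c4)
  have h_yy : Rep x yy (V.yy) := Rep.cg' (r_yy x _ (C_ca h_a1 h_a2)) rfl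
  have h_a3 := r_a3 x _ _ h_yy (C_cj h_yy)
  have h_a4 := r_a4 x _ _ hK.K33 hK.K44
  have h_a5 := r_a5 x _ _ hK.K34 hK.K43
  have h_dt : Rep x dt (V.dt) := Rep.cg' (r_dt x _ (C_cs h_a4 h_a5)) rfl
  have h_a6 := r_a6 x _ _ h_dt (C_cj h_dt)
  have h_a7 := r_a7 x _ _ hX.B0 hX.sF
  have h_a8 := r_a8 x _ _ (R_ra (R_rk hM.si 3) hM.T) hX.X
  have h_E4 : R x E4 (V.E4) := R.cg (r_E4 x _ (R_ra (R_rs (R_ra h_a7 (R_rk h_a8 2)) (R_nz h_a3)) (R_rk (R_nz h_a6) 9))) (by rw [Val.E4]; norm_num)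
  exact h_E4

end Pool.Agent.MP_4948b4_mp.N4
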